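import Mathlib

/-! Commutative algebra: transcendence degree, growth, auxiliary polynomial, ramification. -/

namespace Pool.Agent.Lib.MP_7b66ee_ag

open Algebra Module WithZero

universe u

variable {K : Type u} [Field K]

lemma trdeg_drop {A B : Type u} [CommRing A] [IsDomain A] [Algebra K A] [FiniteType K A]
    [CommRing B] [IsDomain B] [Algebra K B] (φ : A →ₐ[K] B) (hs : Function.Surjective φ)
    (hi : ¬Function.Injective φ) : trdeg K B < trdeg K A := by
  obtain ⟨s, g, inj, fin⟩ := exists_finite_inj_algHom_of_fg K A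
  algebraize [g.toRingHom]
  have : Module.Finite (MvPolynomial (Fin s) K) A := fin
  by_contra hc
  push Not at hc
  have ind : AlgebraicIndependent K (g ∘ MvPolynomial.X) := by
    rw [AlgebraicIndependent, ← MvPolynomial.aeval_unique]; exact inj
  obtain ⟨x, e⟩ : ∃ x, MvPolynomial.aeval x = φ.comp g := ⟨_, (MvPolynomial.aeval_unique _).symm⟩
  have : Algebra.IsIntegral (adjoin K (Set.range x)) B := ⟨fun b => by
    obtain ⟨a, rfl⟩ := hs b
    exact IsIntegral.map_of_comp_eq (R := MvPolynomial (Fin s) K)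
      ((φ.comp g).codRestrict (adjoin K (Set.range x)) fun p => by
      rw [adjoin_range_eq_range_aeval, e]; exact ⟨p, rfl⟩).toRingHom φ.toRingHom
      (RingHom.ext fun _ => rfl) (Algebra.IsIntegral.isIntegral a)⟩
  have tb := Algebra.IsAlgebraic.isTranscendenceBasis_of_lift_le_trdeg_of_finite K x
    (ind.lift_cardinalMk_le_trdeg.trans (Cardinal.lift_le.2 hc))
  have h1 : Function.Injective (φ.comp g) := e ▸ tb.1
  have h2 : (RingHom.ker φ).comap (algebraMap (MvPolynomial (Fin s) K) A) = ⊥ :=
    (Submodule.eq_bot_iff _).2 fun p hp => h1 (by rw [map_zero]; exact hp)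
  exact hi ((RingHom.injective_iff_ker_eq_bot φ).2 (Ideal.eq_bot_of_comap_eq_bot h2))

lemma fg_chain {B : Type*} [AddCommGroup B] [Module K B] {N : Submodule K B} (hN : N.FG)
    {f : ℕ → Submodule K B} (hf : Monotone f) (h : ∀ x ∈ N, ∃ c, x ∈ f c) : ∃ c, N ≤ f c := by
  obtain ⟨S, rfl⟩ := hN
  choose! c hc using h
  exact ⟨S.sup c, Submodule.span_le.2 fun x hx =>
    hf (Finset.le_sup hx) (hc x (Submodule.subset_span hx))⟩

lemma pow_mono {B : Type*} [CommRing B] [Algebra K B] {U : Submodule K B} (h : 1 ∈ U) :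
    Monotone fun c : ℕ => U ^ c :=
  monotone_nat_of_le_succ fun c x hx => by
    rw [pow_succ]; simpa using Submodule.mul_mem_mul hx h

lemma mem_pow {B : Type*} [CommRing B] [Algebra K B] {U : Submodule K B} (h : 1 ∈ U) {S : Set B}
    (hS : S ⊆ U) {x : B} (hx : x ∈ adjoin K S) : ∃ c, x ∈ U ^ c := by
  induction hx using adjoin_induction with
  | mem x hx => exact ⟨1, by simpa using hS hx⟩
  | algebraMap c => exact ⟨0, by simp⟩
  | add x y _ _ hx hy =>
    obtain ⟨c, hc⟩ := hx
    obtain ⟨d, hd⟩ := hy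
    exact ⟨max c d, add_mem (pow_mono h (le_max_left _ _) hc) (pow_mono h (le_max_right _ _) hd)⟩
  | mul x y _ _ hx hy =>
    obtain ⟨c, hc⟩ := hx
    obtain ⟨d, hd⟩ := hy
    exact ⟨c + d, pow_add U c d ▸ Submodule.mul_mem_mul hc hd⟩

lemma growth {B : Type u} [CommRing B] [IsDomain B] [Algebra K B] [FiniteType K B] {d : ℕ}
    (hd : trdeg K B ≤ d) {W : Submodule K B} (hW : W.FG) :
    ∃ C, ∀ k, finrank K ↥(W ^ k) ≤ C * (k + 1) ^ d := by
  classical
  obtain ⟨s, g, inj, fin⟩ := exists_finite_inj_algHom_of_fg K B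
  algebraize [g.toRingHom]
  have : Module.Finite (MvPolynomial (Fin s) K) B := fin
  let u : Fin s → B := fun i => g (MvPolynomial.X i)
  have e : MvPolynomial.aeval u = g := (MvPolynomial.aeval_unique _).symm
  have hs : s ≤ d := by
    have ind : AlgebraicIndependent K u := by rw [AlgebraicIndependent, e]; exact inj
    simpa using ind.lift_cardinalMk_le_trdeg.trans (Cardinal.lift_le.2 hd)
  obtain ⟨b, hb⟩ := Module.Finite.fg_top (R := MvPolynomial (Fin s) K) (M := B)
  let U := Submodule.span K (insert 1 (Set.range u))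
  let E := Submodule.span K (b : Set B)
  have U1 : 1 ∈ U := Submodule.subset_span (Set.mem_insert _ _)
  have mono : Monotone fun c : ℕ => U ^ c * E := fun _ _ h => mul_le_mul_left (pow_mono U1 h) _
  have all : ∀ x, ∃ c, x ∈ U ^ c * E := fun x => by
    induction (hb ▸ Submodule.mem_top : x ∈ Submodule.span _ (b : Set B))
      using Submodule.span_induction with
    | mem x hx => exact ⟨0, by simpa using Submodule.subset_span hx⟩
    | zero => exact ⟨0, zero_mem _⟩
    | add x y _ _ hx hy =>
      obtain ⟨c, hc⟩ := hx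
      obtain ⟨d, hd⟩ := hy
      exact ⟨max c d, add_mem (mono (le_max_left _ _) hc) (mono (le_max_right _ _) hd)⟩
    | smul p x _ hx =>
      obtain ⟨c, hc⟩ := hx
      obtain ⟨d, hd⟩ := mem_pow U1 (S := Set.range u) (x := g p)
        (fun y hy => Submodule.subset_span (Set.mem_insert_of_mem _ hy))
        (by rw [adjoin_range_eq_range_aeval, e]; exact ⟨p, rfl⟩)
      exact ⟨d + c, by rw [pow_add, mul_assoc]; exact Submodule.mul_mem_mul hd hc⟩
  obtain ⟨c, hc⟩ := fg_chain (hW.mul (Submodule.fg_span b.finite_toSet)) mono fun x _ => all x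
  obtain ⟨c0, h0⟩ := all 1
  have h1 : ∀ k, W ^ k ≤ U ^ (c0 + c * k) * E := fun k => by
    induction k with
    | zero => simpa using h0
    | succ k ih =>
      calc W ^ (k + 1) = W ^ k * W := pow_succ _ _
        _ ≤ U ^ (c0 + c * k) * E * W := mul_le_mul_left ih _
        _ = U ^ (c0 + c * k) * (W * E) := by ring
        _ ≤ U ^ (c0 + c * k) * (U ^ c * E) := mul_le_mul_right hc _
        _ = _ := by ring
  have h2 : ∀ m, U ^ m ≤ Submodule.span K
      {x | ∃ α : Fin s → ℕ, (∀ i, α i ≤ m) ∧ x = ∏ i, u i ^ α i} := fun m => by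
    induction m with
    | zero =>
      rw [pow_zero, Submodule.one_le]
      exact Submodule.subset_span ⟨0, by simp, by simp⟩
    | succ m ih =>
      rw [pow_succ]
      refine (mul_le_mul_left ih _).trans ?_
      rw [Submodule.span_mul_span]
      refine Submodule.span_mono ?_
      rintro _ ⟨_, ⟨α, hα, rfl⟩, y, rfl | ⟨j, rfl⟩, rfl⟩
      · exact ⟨α, fun i => (hα i).trans m.le_succ, mul_one _⟩
      · refine ⟨α + Pi.single j 1, fun i => add_le_add (hα i) ?_, ?_⟩
        · rw [Pi.single_apply]; split_ifs <;> simp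
        · simp only [Pi.add_apply, pow_add, Finset.prod_mul_distrib]
          simp [Pi.single_apply]
  refine ⟨b.card * (c0 + c + 1) ^ d, fun k => ?_⟩
  set m := c0 + c * k
  have h3 : W ^ k ≤ Submodule.span K (Set.range fun p : (Fin s → Fin (m + 1)) × b =>
      (∏ i, u i ^ (p.1 i : ℕ)) * p.2) := by
    refine (h1 k).trans ((mul_le_mul_left (h2 m) _).trans ?_)
    rw [Submodule.span_mul_span]
    refine Submodule.span_mono ?_
    rintro _ ⟨_, ⟨α, hα, rfl⟩, y, hy, rfl⟩
    exact ⟨(fun i => ⟨α i, Nat.lt_succ_of_le (hα i)⟩, ⟨y, hy⟩), rfl⟩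
  have := FiniteDimensional.span_of_finite K (Set.finite_range
    fun p : (Fin s → Fin (m + 1)) × b => (∏ i, u i ^ (p.1 i : ℕ)) * p.2)
  refine (Submodule.finrank_mono h3).trans ((finrank_range_le_card _).trans ?_)
  simp only [Fintype.card_prod, Fintype.card_pi, Fintype.card_fin, Finset.prod_const,
    Finset.card_univ, Fintype.card_coe]
  rw [mul_comm, mul_assoc, ← mul_pow]
  refine Nat.mul_le_mul_left _ ((Nat.pow_le_pow_right m.succ_pos hs).trans
    (Nat.pow_le_pow_left ?_ _))
  simp only [m]
  nlinarith [Nat.zero_le (c0 * k)]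

lemma aux_poly {A B : Type u} [CommRing A] [Algebra K A] [FiniteType K A] [CommRing B]
    [IsDomain B] [Algebra K B] (φ : A →ₐ[K] B) (hs : Function.Surjective φ)
    (v : Derivation K A A) {n d : ℕ} {t : Fin n → A} (ht : AlgebraicIndependent K t)
    (hd : trdeg K B ≤ d) (hn : d + 2 ≤ n) (M : ℕ) :
    ∃ k, 0 < k ∧ ∃ a : (Fin n → Fin (k + 1)) → K, ∑ α, a α • ∏ i, t i ^ (α i : ℕ) ≠ 0 ∧
      ∀ i < M * k, φ (v^[i] (∑ α, a α • ∏ i, t i ^ (α i : ℕ))) = 0 := by
  classical
  have := FiniteType.of_surjective φ hs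
  obtain ⟨S, hS⟩ := FiniteType.out (R := K) (A := A)
  let W := Submodule.span K (insert 1 (Set.range t ∪ S))
  have W1 : 1 ∈ W := Submodule.subset_span (Set.mem_insert _ _)
  have Wf : W.FG := Submodule.fg_span (((Set.finite_range t).union S.finite_toSet).insert 1)
  obtain ⟨e, he⟩ := fg_chain (Wf.map v.toLinearMap) (pow_mono W1) fun x _ => mem_pow W1 (S := S)
    (fun y hy => Submodule.subset_span (Or.inr (Or.inr hy))) (hS ▸ Algebra.mem_top)
  have h1 : ∀ k, ∀ x ∈ W ^ k, v x ∈ W ^ (k + e) := fun k => by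
    induction k with
    | zero =>
      intro x hx
      obtain ⟨c, rfl⟩ := Submodule.mem_one.1 (by simpa using hx)
      simp
    | succ k ih =>
      intro x hx
      rw [pow_succ] at hx
      refine Submodule.mul_induction_on hx (fun x hx y hy => ?_) fun x y hx hy => ?_
      · rw [v.leibniz, smul_eq_mul, smul_eq_mul]
        refine add_mem (pow_mono W1 (show k + e ≤ _ by omega) ?_) ?_
        · exact (pow_add W k e).ge (Submodule.mul_mem_mul hx (he ⟨y, hy, rfl⟩))
        · rw [show k + 1 + e = k + e + 1 by omega, pow_succ']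
          exact Submodule.mul_mem_mul hy (ih x hx)
      · rw [map_add]; exact add_mem hx hy
  have h2 : ∀ i k, ∀ x ∈ W ^ k, v^[i] x ∈ W ^ (k + e * i) := fun i k x hx => by
    induction i with
    | zero => simpa using hx
    | succ i ih => rw [Function.iterate_succ_apply', mul_add, mul_one, ← add_assoc]; exact h1 _ _ ih
  obtain ⟨C, hC⟩ := growth hd (Wf.map φ.toLinearMap)
  set k := M * C * (n + e * M + 1) ^ d + 1 with hk
  have h3 : ∀ (α : Fin n → Fin (k + 1)) (T : Finset (Fin n)),
      ∏ i ∈ T, t i ^ (α i : ℕ) ∈ W ^ (k * T.card) := fun α T => by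
    induction T using Finset.induction_on with
    | empty => simpa using ⟨1, map_one _⟩
    | insert j T hj ih =>
      rw [Finset.prod_insert hj, Finset.card_insert_of_notMem hj, mul_add, mul_one, add_comm,
        pow_add]
      exact Submodule.mul_mem_mul (pow_mono W1 (Nat.le_of_lt_succ (α j).2)
        (Submodule.pow_mem_pow W (Submodule.subset_span (Or.inr (Or.inl ⟨j, rfl⟩))) _)) ih
  let σ := Fintype.linearCombination K fun α : Fin n → Fin (k + 1) => ∏ i, t i ^ (α i : ℕ)
  let L : ((Fin n → Fin (k + 1)) → K) →ₗ[K]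
      Fin (M * k) → ↥(W.map φ.toLinearMap ^ (k * n + e * (M * k))) :=
    LinearMap.pi fun i => (φ.toLinearMap ∘ₗ (v.toLinearMap ^ (i : ℕ)) ∘ₗ σ).codRestrict _ fun a => by
      rw [← Submodule.map_pow]
      refine ⟨_, pow_mono W1 (show k * n + e * i ≤ _ by gcongr; exact i.2.le) ?_, rfl⟩
      rw [LinearMap.comp_apply, Module.End.pow_apply]
      refine h2 _ _ _ (Submodule.sum_mem _ fun α _ => Submodule.smul_mem _ _ ?_)
      simpa using h3 α Finset.univ
  have : Module.Finite K ↥(W.map φ.toLinearMap ^ (k * n + e * (M * k))) :=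
    Module.Finite.iff_fg.2 ((Wf.map _).pow _)
  obtain ⟨a, ha, a0⟩ := (Submodule.ne_bot_iff _).1 (LinearMap.ker_ne_bot_of_finrank_lt (f := L) (by
    rw [Module.finrank_pi_fintype, Module.finrank_pi]
    simp only [Finset.sum_const, Finset.card_univ, Fintype.card_fin, smul_eq_mul, Fintype.card_pi,
      Finset.prod_const]
    calc _ ≤ M * k * (C * ((n + e * M + 1) * (k + 1)) ^ d) := by
          refine Nat.mul_le_mul_left _ ((hC _).trans (Nat.mul_le_mul_left _
            (Nat.pow_le_pow_left ?_ _)))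
          nlinarith [Nat.zero_le (e * M)]
      _ = M * C * (n + e * M + 1) ^ d * k * (k + 1) ^ d := by rw [mul_pow]; ring
      _ < (k + 1) ^ 2 * (k + 1) ^ d := by
          refine Nat.mul_lt_mul_of_pos_right ?_ (by positivity)
          have : M * C * (n + e * M + 1) ^ d ≤ k := by omega
          nlinarith
      _ ≤ _ := by rw [← pow_add]; exact Nat.pow_le_pow_right k.succ_pos (by omega)))
  refine ⟨k, by omega, a, fun h => a0 (funext ?_), fun i hi => ?_⟩
  · refine Fintype.linearIndependent_iff.1 ?_ a h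
    have := ((MvPolynomial.basisMonomials (Fin n) K).linearIndependent.comp
      (fun α : Fin n → Fin (k + 1) => Finsupp.equivFunOnFinite.symm fun i => (α i : ℕ))
      fun α β h => funext fun i => Fin.ext
        (congrFun (Finsupp.equivFunOnFinite.symm.injective h) i)).map'
      (MvPolynomial.aeval t).toLinearMap (LinearMap.ker_eq_bot.2 ht)
    convert this using 1
    funext α
    simp [MvPolynomial.aeval_monomial, Finsupp.prod_fintype]
  · have := congrArg Subtype.val (congrFun ha ⟨i, hi⟩)
    rw [← show (v.toLinearMap ^ i) _ = v^[i] _ from Module.End.pow_apply _ _ _]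
    exact this

variable {L : Type u} [Field L] [Algebra K L] [CharZero K]

lemma closure_ft (A : Subalgebra K L) [FiniteType K A] [EssFiniteType K L]
    [Algebra.IsAlgebraic A L] : FiniteType K (integralClosure A L) := by
  obtain ⟨s, g, inj, fin⟩ := exists_finite_inj_algHom_of_fg K A
  algebraize [g.toRingHom, (A.val.comp g).toRingHom,
    ((IsScalarTower.toAlgHom K A (integralClosure A L)).comp g).toRingHom]
  have : Module.Finite (MvPolynomial (Fin s) K) A := fin
  have : IsScalarTower (MvPolynomial (Fin s) K) A L := .of_algebraMap_eq' rfl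
  have : IsScalarTower (MvPolynomial (Fin s) K) (integralClosure A L) L := .of_algebraMap_eq' rfl
  have : IsScalarTower K (MvPolynomial (Fin s) K) L :=
    .of_algebraMap_eq fun c => ((A.val.comp g).commutes c).symm
  have : IsScalarTower K (MvPolynomial (Fin s) K) (integralClosure A L) :=
    .of_algebraMap_eq fun c => (AlgHom.commutes _ c).symm
  have : FaithfulSMul (MvPolynomial (Fin s) K) L :=
    (faithfulSMul_iff_algebraMap_injective _ _).2 (Subtype.val_injective.comp inj)
  have : IsIntegralClosure (integralClosure A L) (MvPolynomial (Fin s) K) L :=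
    ⟨Subtype.val_injective, fun {x} => ⟨fun h => ⟨⟨x, h.tower_top⟩, rfl⟩, by
      rintro ⟨y, rfl⟩; exact isIntegral_trans (A := A) _ y.2⟩⟩
  let := FractionRing.liftAlgebra (MvPolynomial (Fin s) K) L
  have := Algebra.IsAlgebraic.trans (MvPolynomial (Fin s) K) A L
  have : Algebra.IsAlgebraic (FractionRing (MvPolynomial (Fin s) K)) L :=
    .extendScalars (IsFractionRing.injective (MvPolynomial (Fin s) K) _)
  have : IsScalarTower K (FractionRing (MvPolynomial (Fin s) K)) L := .to₁₃₄ _
    (MvPolynomial (Fin s) K) _ _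
  have := EssFiniteType.of_comp K (FractionRing (MvPolynomial (Fin s) K)) L
  have : FiniteDimensional (FractionRing (MvPolynomial (Fin s) K)) L :=
    Algebra.finite_of_essFiniteType_of_isAlgebraic
  have := IsIntegralClosure.finite (MvPolynomial (Fin s) K)
    (FractionRing (MvPolynomial (Fin s) K)) L (integralClosure A L)
  exact .trans (S := MvPolynomial (Fin s) K) inferInstance inferInstance

lemma ram (w : Valuation L ℤᵐ⁰) {A C : Subalgebra K L} (hC : C.FG) (hA : A ≤ C)
    (hint : ∀ x ∈ C, IsIntegral A x) (hw : ∀ x ∈ C, w x ≤ 1)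
    (hO : ∀ x, w x ≤ 1 → ∃ a ∈ C, ∃ s ∈ C, w s = 1 ∧ x = a / s) {s : L} (hs : s ∈ A)
    (ws : w s = exp (-1)) (d : Derivation K L L) (hd : ∀ a ∈ A, d a ∈ A) (x : L) (hx : w x ≤ 1) :
    w (d x) ≤ 1 := by
  have frac : ∀ γ, (∀ x ∈ C, w (d x) ≤ γ) → ∀ x, w x ≤ 1 → w (d x) ≤ γ := fun γ h x hx => by
    obtain ⟨a, ha, s, hs, h1, rfl⟩ := hO x hx
    rw [Derivation.leibniz_div, smul_eq_mul, map_mul, map_pow, map_inv₀, h1, inv_one, one_pow,
      one_mul]
    exact w.map_sub_le (by rw [smul_eq_mul, map_mul]; exact mul_le_of_le_one_of_le h1.le (h a ha))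
      (by rw [smul_eq_mul, map_mul]; exact mul_le_of_le_one_of_le (hw a ha) (h s hs))
  have step : ∀ n : ℕ, (∀ x ∈ C, w (d x) ≤ exp ((n + 1 : ℕ) : ℤ)) →
      ∀ x ∈ C, w (d x) ≤ exp (n : ℤ) := fun n h x hx => by
    have one : 1 ≤ exp (n : ℤ) := by rw [← exp_zero, exp_le_exp]; simp
    obtain ⟨Q, hQ, hQ0⟩ := hint x hx
    have mem : ∀ P : Polynomial A, Polynomial.aeval x P ∈ C := fun P => by
      rw [Polynomial.aeval_eq_sum_range]
      exact sum_mem fun i _ => mul_mem (hA (P.coeff i).2) (pow_mem hx i)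
    obtain ⟨i, h1, h2⟩ : ∃ i, w (Polynomial.aeval x (Polynomial.derivative^[i] Q)) < 1 ∧
        ¬w (Polynomial.aeval x (Polynomial.derivative^[i + 1] Q)) < 1 := by
      by_contra hc
      push Not at hc
      have all : ∀ i, w (Polynomial.aeval x (Polynomial.derivative^[i] Q)) < 1 := fun i => by
        induction i with
        | zero => simp [Polynomial.aeval_def, hQ0]
        | succ i ih => exact hc i ih
      have := all Q.natDegree
      rw [← Polynomial.factorial_smul_hasseDeriv, LinearMap.smul_apply,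
        Polynomial.hasseDeriv_natDegree_eq_C, hQ.leadingCoeff, map_one, nsmul_one, map_natCast,
        ← map_natCast (algebraMap K L)] at this
      have c0 : ((Q.natDegree.factorial : ℕ) : K) ≠ 0 := by exact_mod_cast Nat.factorial_ne_zero _
      have := mul_lt_one_of_lt_of_le this (hw _ (C.algebraMap_mem (↑Q.natDegree.factorial)⁻¹))
      rw [← map_mul, ← map_mul, mul_inv_cancel₀ c0, map_one, map_one] at this
      exact lt_irrefl _ this
    rw [Function.iterate_succ_apply'] at h2
    generalize Polynomial.derivative^[i] Q = P at h1 h2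
    have h3 : w (Polynomial.aeval x P.derivative) = 1 := le_antisymm (hw _ (mem _)) (not_lt.1 h2)
    have h4 : d (Polynomial.aeval x P) - Polynomial.aeval x P.derivative * d x ∈ C := by
      clear h1 h2 h3
      induction P using Polynomial.induction_on' with
      | add p q hp hq =>
        convert add_mem hp hq using 1
        simp only [map_add]; ring
      | monomial m a =>
        convert mul_mem (pow_mem hx m) (hA (hd _ a.2)) using 1
        simp [Polynomial.derivative_monomial, Polynomial.aeval_monomial]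
        ring
    have s0 : s ≠ 0 := fun e => by simp [e] at ws; exact exp_ne_zero ws.symm
    have h5 : w (Polynomial.aeval x P / s) ≤ 1 := by
      rw [map_div₀, ws, ← exp_zero, ← lt_mul_exp_iff_le exp_ne_zero, div_lt_iff₀ exp_pos]
      simpa using h1
    have h6 : w (d (Polynomial.aeval x P)) ≤ exp (n : ℤ) := by
      rw [← mul_div_cancel₀ (Polynomial.aeval x P) s0, d.leibniz, smul_eq_mul, smul_eq_mul]
      refine w.map_add_le ?_ ?_ <;> rw [map_mul]
      · refine (mul_le_mul_right (frac _ h _ h5) _).trans (le_of_eq ?_)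
        rw [ws, ← exp_add]; congr 1; push_cast; ring
      · exact (mul_le_one' h5 (hw _ (hA (hd _ hs)))).trans one
    have := w.map_sub_le h6 ((hw _ h4).trans one)
    rwa [sub_sub_cancel, map_mul, h3, one_mul] at this
  obtain ⟨N, hN⟩ : ∃ N : ℕ, ∀ x ∈ C, w (d x) ≤ exp (N : ℤ) := by
    obtain ⟨S, rfl⟩ := hC
    refine ⟨S.sup fun y => (log (w (d y))).toNat, fun x hx => ?_⟩
    induction hx using adjoin_induction with
    | mem x hx =>
      refine le_exp_of_log_le ((Int.self_le_toNat _).trans ?_)
      exact_mod_cast Finset.le_sup (f := fun y => (log (w (d y))).toNat) hx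
    | algebraMap c => simp
    | add x y _ _ hx hy => rw [map_add]; exact w.map_add_le hx hy
    | mul x y mx my hx hy =>
      rw [d.leibniz, smul_eq_mul, smul_eq_mul]
      exact w.map_add_le (by rw [map_mul]; exact mul_le_of_le_one_of_le (hw x mx) hy)
        (by rw [map_mul]; exact mul_le_of_le_one_of_le (hw y my) hx)
  refine frac 1 ?_ x hx
  induction N with
  | zero => exact hN
  | succ N ih => exact ih (step N hN)

lemma exists_dv {C : Type u} [CommRing C] [IsDomain C] [IsNoetherianRing C] [IsIntegrallyClosed C]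
    [Algebra C L] [IsFractionRing C L] (q : Ideal C) [q.IsPrime] (h0 : q ≠ ⊥)
    (h1 : ∀ p : Ideal C, p.IsPrime → p ≠ ⊥ → p ≤ q → p = q) :
    ∃ w : Valuation L ℤᵐ⁰, (∀ x : C, w (algebraMap C L x) ≤ 1) ∧
      (∀ x : C, w (algebraMap C L x) < 1 ↔ x ∈ q) ∧ (∃ t : C, w (algebraMap C L t) = exp (-1)) ∧
      ∀ x, w x ≤ 1 → ∃ a s : C, s ∉ q ∧ x = algebraMap C L a / algebraMap C L s := by
  let O := Localization.subalgebra.ofField L q.primeCompl q.primeCompl_le_nonZeroDivisors
  have : IsLocalRing O := IsLocalization.AtPrime.isLocalRing O q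
  have : IsNoetherianRing O := IsLocalization.isNoetherianRing q.primeCompl O inferInstance
  have : IsIntegrallyClosed O :=
    isIntegrallyClosed_of_isLocalization O q.primeCompl q.primeCompl_le_nonZeroDivisors
  have cm : (IsLocalRing.maximalIdeal O).comap (algebraMap C O) = q :=
    IsLocalization.AtPrime.under_maximalIdeal O q
  have nb : IsLocalRing.maximalIdeal O ≠ ⊥ := fun e => h0 (by
    rw [← cm, e]
    exact Ideal.comap_bot_of_injective _
      (IsLocalization.injective O q.primeCompl_le_nonZeroDivisors))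
  have : IsDiscreteValuationRing O := ((IsDiscreteValuationRing.TFAE O
    (IsLocalRing.isField_iff_maximalIdeal_eq.not.2 nb)).out 3 0).1 <|
    show IsIntegrallyClosed O ∧ ∃! P : Ideal O, P ≠ ⊥ ∧ P.IsPrime from ⟨inferInstance, _,
      ⟨nb, inferInstance⟩, fun P ⟨hP, hP'⟩ => by
        rw [← IsLocalization.map_under q.primeCompl O P, h1 (P.under C) inferInstance
          (fun e => hP (by rw [← IsLocalization.map_under q.primeCompl O P, e, Ideal.map_bot]))
          (cm ▸ Ideal.comap_mono (IsLocalRing.le_maximalIdeal hP'.ne_top))]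
        exact IsLocalization.AtPrime.map_eq_maximalIdeal q O⟩
  let m := IsDiscreteValuationRing.maximalIdeal O
  have a1 : ∀ x : C, m.valuation L (algebraMap C L x) ≤ 1 := fun x =>
    m.valuation_le_one (algebraMap C O x)
  have a2 : ∀ x : C, m.valuation L (algebraMap C L x) < 1 ↔ x ∈ q := fun x =>
    (m.valuation_lt_one_iff_mem (algebraMap C O x)).trans (SetLike.ext_iff.1 cm x)
  have a3 : ∀ x, m.valuation L x ≤ 1 → ∃ a s : C, s ∉ q ∧
      x = algebraMap C L a / algebraMap C L s := fun x hx => by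
    obtain ⟨⟨_, a, s, hs, rfl⟩, rfl⟩ := IsDiscreteValuationRing.exists_lift_of_le_one hx
    exact ⟨a, s, hs, (div_eq_mul_inv _ _).symm⟩
  refine ⟨m.valuation L, a1, a2, ?_, a3⟩
  obtain ⟨t, ht⟩ := m.valuation_exists_uniformizer L
  obtain ⟨a, s, hs, rfl⟩ := a3 t (ht.le.trans (by decide))
  rw [map_div₀, le_antisymm (a1 s) (not_lt.1 fun h => hs ((a2 s).1 h)), div_one] at ht
  exact ⟨a, ht⟩

end Pool.Agent.Lib.MP_7b66ee_ag
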