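import Pool.Agent.Lib.MP_7b66ee_ag.Defs

/-! Gauss norms on annuli. -/

namespace Pool.Agent.Lib.MP_7b66ee_ag

open Filter Topology Polynomial IsUltrametricDist

universe u

noncomputable section

variable {K : Type u} [NontriviallyNormedField K] {r : ℝ}

lemma lau_mem {p : Ann K r → K} (hp : p ∈ Lau K r) : p ∈ An K r :=
  fun ε hε => ⟨p, hp, fun z => by simpa using hε.le⟩

def zf (r : ℝ) : An K r := ⟨fun z => z.1, lau_mem (Algebra.subset_adjoin (Or.inl rfl))⟩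
def zi (r : ℝ) : An K r := ⟨fun z => z.1⁻¹, lau_mem (Algebra.subset_adjoin (Or.inr rfl))⟩
def lin (r : ℝ) (a : K) : An K r := zf r - algebraMap K _ a

@[simp] lemma zf_ap (z : Ann K r) : (zf r).1 z = z.1 := rfl
@[simp] lemma zi_ap (z : Ann K r) : (zi r).1 z = z.1⁻¹ := rfl
@[simp] lemma lin_ap (a : K) (z : Ann K r) : (lin r a).1 z = z.1 - a := rfl
@[simp] lemma c_ap (a : K) (z : Ann K r) : (algebraMap K (An K r) a).1 z = a := rfl
@[simp] lemma mul_ap (f g : An K r) (z : Ann K r) : (f * g).1 z = f.1 z * g.1 z := rfl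
@[simp] lemma add_ap (f g : An K r) (z : Ann K r) : (f + g).1 z = f.1 z + g.1 z := rfl
@[simp] lemma sub_ap (f g : An K r) (z : Ann K r) : (f - g).1 z = f.1 z - g.1 z := rfl

lemma an_ext {f g : An K r} (h : ∀ z, f.1 z = g.1 z) : f = g := Subtype.ext (funext h)

lemma zf_zi : zf (K := K) r * zi r = 1 := an_ext fun z => mul_inv_cancel₀ z.ne

lemma lau_add {Q : An K r → Prop} (hc : ∀ c, Q (algebraMap K _ c)) (h1 : Q (zf r)) (h2 : Q (zi r))
    (ha : ∀ f g, Q f → Q g → Q (f + g)) (hm : ∀ f g, Q f → Q g → Q (f * g)) (p : An K r)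
    (hp : p.1 ∈ Lau K r) : Q p := by
  obtain ⟨p, hp'⟩ := p
  change p ∈ _ at hp
  change Q ⟨p, lau_mem hp⟩
  clear hp'
  induction hp using Algebra.adjoin_induction with
  | mem x hx => rcases hx with rfl | rfl; exacts [h1, h2]
  | algebraMap c => exact hc c
  | add x y _ _ hx hy => exact ha _ _ hx hy
  | mul x y _ _ hx hy => exact hm _ _ hx hy

lemma lau_ind [IsAlgClosed K] {Q : An K r → Prop} (hc : ∀ c, Q (algebraMap K _ c))
    (h1 : ∀ a, Q (lin r a)) (h2 : Q (zi r)) (hm : ∀ f g, Q f → Q g → Q (f * g)) (p : An K r)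
    (hp : p.1 ∈ Lau K r) : Q p := by
  obtain ⟨P, n, rfl⟩ : ∃ (P : K[X]) (n : ℕ), p = aeval (zf r) P * zi r ^ n := by
    refine lau_add (Q := fun p => ∃ (P : K[X]) (n : ℕ), p = aeval (zf r) P * zi r ^ n)
      (fun c => ⟨C c, 0, by simp⟩) ⟨X, 0, by simp⟩ ⟨1, 1, by simp⟩ ?_ ?_ p hp
    · rintro _ _ ⟨P, n, rfl⟩ ⟨P', m, rfl⟩
      refine ⟨P * X ^ m + P' * X ^ n, n + m, ?_⟩
      have a : (zf (K := K) r * zi r) ^ m = 1 := by rw [zf_zi, one_pow]
      have b : (zf (K := K) r * zi r) ^ n = 1 := by rw [zf_zi, one_pow]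
      simp only [map_add, map_mul, map_pow, aeval_X]
      linear_combination (-(aeval (zf r) P * zi r ^ n)) * a - aeval (zf r) P' * zi r ^ m * b
    · rintro _ _ ⟨P, n, rfl⟩ ⟨P', m, rfl⟩
      exact ⟨P * P', n + m, by rw [map_mul]; ring⟩
  clear hp
  have h0 : Q 1 := by simpa using hc 1
  refine hm _ _ ?_ ?_
  · rw [(IsAlgClosed.splits P).eq_prod_roots, map_mul, aeval_C]
    refine hm _ _ (hc _) ?_
    induction P.roots using Multiset.induction_on with
    | empty => simpa using h0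
    | cons a s ih =>
      rw [Multiset.map_cons, Multiset.prod_cons, map_mul]
      exact hm _ _ (by simpa [lin] using h1 a) ih
  · induction n with
    | zero => simpa using h0
    | succ n ih => rw [pow_succ]; exact hm _ _ ih h2

lemma approx (h : An K r) {ε : ℝ} (hε : 0 < ε) :
    ∃ p : An K r, p.1 ∈ Lau K r ∧ ∀ z, ‖h.1 z - p.1 z‖ ≤ ε := by
  obtain ⟨p, hp, h1⟩ := h.2 ε hε
  exact ⟨⟨p, lau_mem hp⟩, hp, h1⟩

lemma bdd (h : An K r) : ∃ C, 0 < C ∧ ∀ z, ‖h.1 z‖ ≤ C := by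
  obtain ⟨p, hp, h1⟩ := h.2 1 one_pos
  obtain ⟨C, hC, h2⟩ := Lau_bdd K hp
  exact ⟨C + 1, by positivity, fun z => by
    linarith [norm_le_norm_add_norm_sub' (h.1 z) (p z), h1 z, h2 z]⟩

/-- the Gauss norm of the circle through q -/
def G (q : Ann K r) (h : An K r) : ℝ := ⨆ w : {w : Ann K r // ‖w.1‖ = ‖q.1‖}, ‖h.1 w.1‖

lemma le_G {q w : Ann K r} (h : An K r) (hw : ‖w.1‖ = ‖q.1‖) : ‖h.1 w‖ ≤ G q h := by
  obtain ⟨C, -, hC⟩ := bdd h
  exact le_ciSup (f := fun w : {w : Ann K r // ‖w.1‖ = ‖q.1‖} => ‖h.1 w.1‖)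
    ⟨C, by rintro _ ⟨w, rfl⟩; exact hC _⟩ ⟨w, hw⟩

lemma G_le {q : Ann K r} {h : An K r} {c : ℝ} (H : ∀ w, ‖w.1‖ = ‖q.1‖ → ‖h.1 w‖ ≤ c) :
    G q h ≤ c := by
  have : Nonempty {w : Ann K r // ‖w.1‖ = ‖q.1‖} := ⟨⟨q, rfl⟩⟩
  exact ciSup_le fun w => H w.1 w.2

lemma G_nonneg (q : Ann K r) (h : An K r) : 0 ≤ G q h := (norm_nonneg _).trans (le_G h rfl)

lemma G_congr {q w : Ann K r} (h : An K r) (hw : ‖w.1‖ = ‖q.1‖) : G w h = G q h :=
  le_antisymm (G_le fun _ hv => le_G h (hv.trans hw)) (G_le fun _ hv => le_G h (hv.trans hw.symm))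

lemma G_near {q : Ann K r} {h p : An K r} {ε : ℝ} (H : ∀ z, ‖h.1 z - p.1 z‖ ≤ ε) :
    G q h ≤ G q p + ε :=
  G_le fun w hw => by linarith [norm_le_norm_add_norm_sub' (h.1 w) (p.1 w), H w, le_G p hw]

lemma G_c (q : Ann K r) (c : K) : G q (algebraMap K _ c) = ‖c‖ :=
  le_antisymm (G_le fun _ _ => le_rfl) (le_G (algebraMap K _ c) (w := q) rfl)

lemma G_zi (q : Ann K r) : G q (zi r) = ‖q.1‖⁻¹ :=
  le_antisymm (G_le fun _ hw => by simp [hw]) (by simpa using le_G (zi r) (w := q) rfl)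

lemma G_zero (q : Ann K r) : G q 0 = 0 := by simpa using G_c q 0
lemma G_one (q : Ann K r) : G q 1 = 1 := by simpa using G_c q 1

variable [IsUltrametricDist K]

lemma sub_le_max (x y : K) : ‖x - y‖ ≤ max ‖x‖ ‖y‖ := by
  simpa [sub_eq_add_neg] using norm_add_le_max x (-y)

lemma sub_eq_max {x y : K} (h : ‖x‖ ≠ ‖y‖) : ‖x - y‖ = max ‖x‖ ‖y‖ := by
  simpa [sub_eq_add_neg] using norm_add_eq_max_of_norm_ne_norm (x := x) (y := -y) (by simpa)

lemma G_add (q : Ann K r) (f g : An K r) : G q (f + g) ≤ max (G q f) (G q g) :=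
  G_le fun _ hw => (norm_add_le_max _ _).trans (max_le_max (le_G f hw) (le_G g hw))

lemma G_eq {q : Ann K r} {h p : An K r} {ε : ℝ} (H : ∀ z, ‖h.1 z - p.1 z‖ ≤ ε) (hε : ε < G q h) :
    G q p = G q h := by
  have a : G q (h - p) ≤ ε := G_le fun w _ => H w
  have b : G q (p - h) ≤ ε := G_le fun w _ => by rw [sub_ap, norm_sub_rev]; exact H w
  have c := G_add q p (h - p)
  have d := G_add q h (p - h)
  rw [add_sub_cancel] at c d
  refine le_antisymm (d.trans (max_le le_rfl (b.trans hε.le))) ?_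
  rcases le_max_iff.1 c with c | c
  exacts [c, by linarith]

variable [IsAlgClosed K]

lemma exists_gen {q : K} (hq : q ≠ 0) (S : Finset K) :
    ∃ w : K, ‖w‖ = ‖q‖ ∧ ∀ a ∈ S, ‖w - a‖ = max ‖q‖ ‖a‖ := by
  classical
  set T := insert 0 (S.filter fun a => ‖a‖ ≤ ‖q‖)
  have hT : ∀ a ∈ T, ‖a‖ ≤ ‖q‖ := fun a ha => by
    rcases Finset.mem_insert.1 ha with rfl | ha
    exacts [by simp, (Finset.mem_filter.1 ha).2]
  have hne : T.Nonempty := Finset.insert_nonempty _ _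
  have q0 : 0 < ‖q‖ := norm_pos_iff.2 hq
  obtain ⟨w, hw⟩ := IsAlgClosed.eval_surjective (p := ∏ a ∈ T, (X - C a)) (by
    rw [natDegree_finsetProd_X_sub_C_eq_card]; exact hne.card_pos.ne') (q ^ T.card)
  have hw' : ∏ a ∈ T, ‖w - a‖ = ∏ _a ∈ T, ‖q‖ := by
    simpa [eval_prod] using congrArg norm hw
  have h1 : ‖w‖ ≤ ‖q‖ := by
    by_contra h
    push Not at h
    refine absurd hw' (Finset.prod_lt_prod_of_nonempty (fun _ _ => q0) (fun a ha => ?_) hne).ne'
    rw [sub_eq_max ((hT a ha).trans_lt h).ne']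
    exact lt_max_of_lt_left h
  have h2 : ∀ a ∈ T, ‖w - a‖ ≤ ‖q‖ := fun a ha => (sub_le_max _ _).trans (max_le h1 (hT a ha))
  have h3 : ∀ a ∈ T, ‖w - a‖ = ‖q‖ := fun a ha => by
    by_contra h
    have h0 : ∀ a ∈ T, 0 < ‖w - a‖ := fun a ha => lt_of_le_of_ne (norm_nonneg _) fun h => by
      rw [Finset.prod_eq_zero ha h.symm] at hw'
      exact (Finset.prod_pos fun _ _ => q0).ne hw'
    exact (Finset.prod_lt_prod h0 h2 ⟨a, ha, lt_of_le_of_ne (h2 a ha) h⟩).ne hw'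
  have h4 : ‖w‖ = ‖q‖ := by simpa using h3 0 (Finset.mem_insert_self _ _)
  refine ⟨w, h4, fun a ha => ?_⟩
  by_cases h : ‖a‖ ≤ ‖q‖
  · rw [h3 a (Finset.mem_insert_of_mem (Finset.mem_filter.2 ⟨ha, h⟩)), max_eq_left h]
  · rw [sub_eq_max (by rw [h4]; exact (not_le.1 h).ne), h4]

/-- the filter of generic points of the circle through q -/
def Fl (q : Ann K r) : Filter (Ann K r) :=
  ⨅ S : Finset K, 𝓟 {w | ‖w.1‖ = ‖q.1‖ ∧ ∀ a ∈ S, ‖w.1 - a‖ = max ‖q.1‖ ‖a‖}

instance (q : Ann K r) : (Fl q).NeBot := by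
  classical
  refine iInf_neBot_of_directed' (fun S T => ⟨S ∪ T, ?_, ?_⟩) fun S => ?_
  · exact principal_mono.2 fun w hw => ⟨hw.1, fun a ha => hw.2 a (Finset.mem_union_left _ ha)⟩
  · exact principal_mono.2 fun w hw => ⟨hw.1, fun a ha => hw.2 a (Finset.mem_union_right _ ha)⟩
  · obtain ⟨w, h1, h2⟩ := exists_gen q.ne S
    exact principal_neBot_iff.2 ⟨⟨w, h1 ▸ q.2⟩, h1, h2⟩

omit [IsUltrametricDist K] [IsAlgClosed K] in
lemma Fl_ev (q : Ann K r) (a : K) :
    ∀ᶠ w in Fl q, ‖w.1‖ = ‖q.1‖ ∧ ‖w.1 - a‖ = max ‖q.1‖ ‖a‖ :=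
  mem_iInf_of_mem {a} fun _ hw => ⟨hw.1, hw.2 a (Finset.mem_singleton_self a)⟩

lemma tend (q : Ann K r) (h : An K r) : Tendsto (fun w => ‖h.1 w‖) (Fl q) (𝓝 (G q h)) := by
  have key : ∀ p : An K r, p.1 ∈ Lau K r →
      ∀ᶠ w in Fl q, ∀ v : Ann K r, ‖v.1‖ = ‖q.1‖ → ‖p.1 v‖ ≤ ‖p.1 w‖ := by
    refine lau_ind (fun c => .of_forall fun _ _ _ => le_rfl) (fun a => ?_) ?_ fun f g hf hg => ?_
    · filter_upwards [Fl_ev q a] with w hw v hv
      rw [lin_ap, lin_ap, hw.2, ← hv]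
      exact sub_le_max _ _
    · filter_upwards [Fl_ev q 0] with w hw v hv
      simp [hw.1, hv]
    · filter_upwards [hf, hg] with w h1 h2 v hv
      rw [mul_ap, mul_ap, norm_mul, norm_mul]
      exact mul_le_mul (h1 v hv) (h2 v hv) (norm_nonneg _) (norm_nonneg _)
  refine tendsto_order.2 ⟨fun a ha => ?_, fun a ha => ?_⟩
  · obtain ⟨p, hp, h1⟩ := approx h (ε := (G q h - a) / 3) (by linarith)
    filter_upwards [key p hp] with w hw
    linarith [G_near (q := q) h1, G_le hw, norm_le_norm_add_norm_sub (h.1 w) (p.1 w), h1 w]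
  · filter_upwards [Fl_ev q 0] with w hw
    exact (le_G h hw.1).trans_lt ha

lemma G_mul (q : Ann K r) (f g : An K r) : G q (f * g) = G q f * G q g :=
  tendsto_nhds_unique (tend q _) (by simpa using (tend q f).mul (tend q g))

lemma G_lin (q : Ann K r) (a : K) : G q (lin r a) = max ‖q.1‖ ‖a‖ :=
  tendsto_nhds_unique (tend q _)
    (tendsto_const_nhds.congr' ((Fl_ev q a).mono fun _ hw => hw.2.symm))

lemma conv (a b c : Ann K r) (i j : ℕ) (H : ‖c.1‖ ^ (i + j) = ‖a.1‖ ^ i * ‖b.1‖ ^ j)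
    (h : An K r) : G c h ^ (i + j) ≤ G a h ^ i * G b h ^ j := by
  have key : ∀ p : An K r, p.1 ∈ Lau K r → G c p ^ (i + j) ≤ G a p ^ i * G b p ^ j := by
    refine lau_ind (fun t => by simp only [G_c, pow_add, le_rfl]) (fun t => ?_) ?_
      fun f g hf hg => ?_
    · simp only [G_lin]
      rcases max_choice ‖c.1‖ ‖t‖ with e | e <;> rw [e]
      · rw [H]; gcongr <;> exact le_max_left _ _
      · rw [pow_add]; gcongr <;> exact le_max_right _ _
    · simp only [G_zi, inv_pow, H, mul_inv, le_rfl]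
    · simp only [G_mul, mul_pow]
      rw [mul_mul_mul_comm]
      exact mul_le_mul hf hg (pow_nonneg (G_nonneg _ _) _)
        (mul_nonneg (pow_nonneg (G_nonneg _ _) _) (pow_nonneg (G_nonneg _ _) _))
  choose p hp h1 using fun n : ℕ => approx h (ε := 1 / ((n : ℝ) + 1)) (by positivity)
  have t : ∀ q, Tendsto (fun n => G q (p n)) atTop (𝓝 (G q h)) := fun q => by
    refine tendsto_of_tendsto_of_tendsto_of_le_of_le
      (g := fun n : ℕ => G q h - 1 / ((n : ℝ) + 1)) (h := fun n : ℕ => G q h + 1 / ((n : ℝ) + 1))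
      (by simpa using (tendsto_one_div_add_atTop_nhds_zero_nat (𝕜 := ℝ)).const_sub (G q h))
      (by simpa using (tendsto_one_div_add_atTop_nhds_zero_nat (𝕜 := ℝ)).const_add (G q h))
      (fun n => ?_) fun n => G_near fun z => by rw [norm_sub_rev]; exact h1 n z
    exact sub_le_iff_le_add.2 (G_near (h1 n))
  exact le_of_tendsto_of_tendsto' ((t c).pow _) (((t a).pow _).mul ((t b).pow _))
    fun n => key _ (hp n)

/-- the point 1 -/
def one (hr : 1 ≤ r) : Ann K r := ⟨1, by simpa using hr, by simpa using hr⟩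

/-- the inverse of a point -/
def Ann.inv (q : Ann K r) : Ann K r :=
  ⟨q.1⁻¹, by rw [norm_inv, ← div_eq_mul_inv, one_le_div (norm_pos_iff.2 q.ne)]; exact q.2.2,
    q.inv_le⟩

lemma conv2 (hr : 1 ≤ r) (q : Ann K r) (h : An K r) : G (one hr) h ^ 2 ≤ G q h * G q.inv h := by
  simpa using conv q q.inv (one hr) 1 1 (by simp [one, Ann.inv, q.ne]) h

lemma ident (hr : 1 ≤ r) {h : An K r} (h0 : G (one hr) h = 0) : h = 0 := by
  refine an_ext fun q => norm_le_zero_iff.1 ((le_G h rfl).trans (not_lt.1 fun hq => ?_))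
  have q0 := norm_pos_iff.2 q.ne
  have hw : ∀ n : ℕ, ∃ w : Ann K r, ‖w.1‖ ^ (1 + n) = ‖q.1‖ ^ n := fun n => by
    obtain ⟨w, hw⟩ := IsAlgClosed.exists_pow_nat_eq (q.1 ^ n) (n := 1 + n) (by omega)
    have hw' : ‖w‖ ^ (1 + n) = ‖q.1‖ ^ n := by rw [← norm_pow, hw, norm_pow]
    refine ⟨⟨w, ?_, ?_⟩, hw'⟩
    · refine (one_le_pow_iff_of_nonneg (by positivity) (n := 1 + n) (by omega)).1 ?_
      rw [mul_pow, hw', pow_add, mul_assoc, ← mul_pow, pow_one]
      exact one_le_mul_of_one_le_of_one_le hr (one_le_pow₀ q.2.1)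
    · refine (pow_le_pow_iff_left₀ (norm_nonneg _) (by linarith) (n := 1 + n) (by omega)).1 ?_
      rw [hw']
      exact (pow_le_pow_left₀ q0.le q.2.2 n).trans (pow_le_pow_right₀ hr (by omega))
  choose w hw using hw
  have t : Tendsto (fun n => ‖(w n).1‖) atTop (𝓝 ‖q.1‖) := by
    have := (Real.continuous_exp.tendsto _).comp
      ((tendsto_natCast_div_add_atTop (1 : ℝ)).mul_const (Real.log ‖q.1‖))
    rw [one_mul, Real.exp_log q0] at this
    refine this.congr fun n => ?_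
    have e := congrArg Real.log (hw n)
    rw [Real.log_pow, Real.log_pow] at e
    rw [Function.comp, ← Real.exp_log (norm_pos_iff.2 (w n).ne)]
    congr 1
    push_cast at e
    field_simp
    linarith
  have z : ∀ n, G (w n) h = 0 := fun n => by
    have := conv (one hr) q (w n) 1 n (by simp [hw, one]) h
    rw [h0, pow_one, zero_mul] at this
    exact pow_eq_zero_iff (n := 1 + n) (by omega) |>.1
      (le_antisymm this (pow_nonneg (G_nonneg _ _) _))
  have key : ∀ p : An K r, p.1 ∈ Lau K r → Tendsto (fun n => G (w n) p) atTop (𝓝 (G q p)) := by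
    refine lau_ind (fun c => by simp [G_c]) (fun a => ?_) ?_ fun f g hf hg => ?_
    · simpa only [G_lin] using t.max tendsto_const_nhds
    · simpa only [G_zi] using t.inv₀ q0.ne'
    · simpa only [G_mul] using hf.mul hg
  obtain ⟨p, hp, h1⟩ := approx h (ε := G q h / 2) (by linarith)
  have e := G_eq (q := q) h1 (by linarith)
  have := le_of_tendsto' (key p hp) (b := G q h / 2) fun n => by
    simpa [z n] using G_near (q := w n) (h := p) (p := h) fun z => by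
      rw [norm_sub_rev]; exact h1 z
  linarith

lemma G_low (hr : 1 ≤ r) {h : An K r} (h0 : h ≠ 0) : ∃ m, 0 < m ∧ ∀ q, m ≤ G q h := by
  obtain ⟨C, hC, h1⟩ := bdd h
  have : 0 < G (one hr) h := lt_of_le_of_ne (G_nonneg _ _) fun e => h0 (ident hr e.symm)
  refine ⟨G (one hr) h ^ 2 / C, by positivity, fun q => ?_⟩
  rw [div_le_iff₀ hC]
  exact (conv2 hr q h).trans (mul_le_mul_of_nonneg_left (G_le fun w _ => h1 w) (G_nonneg _ _))

lemma G_pos (hr : 1 ≤ r) {h : An K r} (h0 : h ≠ 0) (q : Ann K r) : 0 < G q h := by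
  obtain ⟨m, h1, h2⟩ := G_low hr h0
  exact h1.trans_le (h2 q)

lemma isDomain (hr : 1 ≤ r) : IsDomain (An K r) := by
  have : Nontrivial (An K r) := ⟨0, 1, fun h => by
    simpa [G_zero, G_one] using congrArg (G (one hr)) h⟩
  have : NoZeroDivisors (An K r) := ⟨fun {a b} h => by
    by_contra hc
    push Not at hc
    have := mul_pos (G_pos hr hc.1 (one hr)) (G_pos hr hc.2 (one hr))
    rw [← G_mul, h, G_zero] at this
    exact lt_irrefl _ this⟩
  exact NoZeroDivisors.to_isDomain _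

omit [IsUltrametricDist K] [IsAlgClosed K] in
lemma G_res {s : ℝ} (h : r ≤ s) (q : Ann K r) (f : An K s) :
    G q (res K h f) = G (incl K h q) f :=
  le_antisymm (G_le fun w hw => le_G f (w := incl K h w) hw) (G_le fun w hw =>
    le_G (res K h f) (w := ⟨w.1, hw ▸ q.2⟩) hw)

lemma res_inj {s : ℝ} (hr : 1 ≤ r) (h : r ≤ s) : Function.Injective (res K h) :=
  (injective_iff_map_eq_zero _).2 fun f hf => ident (hr.trans h) (by
    have := G_res h (one hr) f
    rw [hf, G_zero] at this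
    exact this.symm)

end

end Pool.Agent.Lib.MP_7b66ee_ag
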