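import Pool.Agent.Lib.MP_7b66ee_ag.AnA

/-! Division, the derivation z d/dz and Jensen's formula on annuli. -/

namespace Pool.Agent.Lib.MP_7b66ee_ag

open Filter Topology IsUltrametricDist

universe u

noncomputable section

variable {K : Type u} [NontriviallyNormedField K] [IsUltrametricDist K] [IsAlgClosed K] {r : ℝ}

lemma est (a : K) (k : An K r) (w : Ann K r) : ‖w.1‖ * ‖k.1 w‖ ≤ G w (lin r a * k) := by
  rw [G_mul, G_lin]
  exact mul_le_mul (le_max_left _ _) (le_G k rfl) (norm_nonneg _) (by positivity)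

lemma est' {a : K} {k : An K r} {c : ℝ} (H : ∀ z, ‖(lin r a * k).1 z‖ ≤ c) (w : Ann K r) :
    ‖k.1 w‖ ≤ r * c := by
  have h1 := (est a k w).trans (G_le fun z _ => H z)
  have h2 := mul_le_mul_of_nonneg_right w.2.1 (norm_nonneg (k.1 w))
  have h3 := mul_le_mul_of_nonneg_left h1 ((norm_nonneg _).trans w.2.2)
  linarith

variable [CompleteSpace K]

omit [IsUltrametricDist K] [IsAlgClosed K] in
lemma an_lim (g : ℕ → An K r) (c : ℝ)
    (hc : ∀ n m, n ≤ m → ∀ w, ‖(g n).1 w - (g m).1 w‖ ≤ c * (1 / ((n : ℝ) + 1))) :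
    ∃ h : An K r, ∀ n w, ‖h.1 w - (g n).1 w‖ ≤ c * (1 / ((n : ℝ) + 1)) := by
  have t : Tendsto (fun n : ℕ => c * (1 / ((n : ℝ) + 1))) atTop (𝓝 0) := by
    simpa using (tendsto_one_div_add_atTop_nhds_zero_nat (𝕜 := ℝ)).const_mul c
  have : ∀ w, ∃ y, Tendsto (fun n => (g n).1 w) atTop (𝓝 y) := fun w =>
    cauchySeq_tendsto_of_complete (cauchySeq_of_le_tendsto_0' _
      (fun n m h => by rw [dist_eq_norm]; exact hc n m h w) t)
  choose y hy using this
  have e : ∀ n w, ‖y w - (g n).1 w‖ ≤ c * (1 / ((n : ℝ) + 1)) := fun n w =>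
    le_of_tendsto ((hy w).sub_const _).norm ((eventually_ge_atTop n).mono fun m hm => by
      rw [norm_sub_rev]; exact hc n m hm w)
  refine ⟨⟨y, fun ε hε => ?_⟩, e⟩
  obtain ⟨n, hn⟩ := (t.eventually (gt_mem_nhds (half_pos hε))).exists
  obtain ⟨p, hp, h1⟩ := (g n).2 _ (half_pos hε)
  exact ⟨p, hp, fun z => by
    linarith [norm_sub_le_norm_sub_add_norm_sub (y z) ((g n).1 z) (p z), e n z, h1 z]⟩

lemma exists_sl (z : Ann K r) (h : An K r) :
    ∃ k, h = algebraMap K _ (h.1 z) + lin r z.1 * k := by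
  have key : ∀ p : An K r, p.1 ∈ Lau K r → ∃ k, p = algebraMap K _ (p.1 z) + lin r z.1 * k := by
    refine lau_add (fun c => ⟨0, by simp⟩) ⟨1, by simp [lin]⟩
      ⟨-(algebraMap K _ z.1⁻¹ * zi r), an_ext fun w => ?_⟩ ?_ ?_
    · change w.1⁻¹ = z.1⁻¹ + (w.1 - z.1) * -(z.1⁻¹ * w.1⁻¹)
      field_simp [z.ne, w.ne]
      ring
    · rintro f g ⟨k, hk⟩ ⟨l, hl⟩
      exact ⟨k + l, by rw [add_ap, map_add]; linear_combination hk + hl⟩
    · rintro f g ⟨k, hk⟩ ⟨l, hl⟩
      exact ⟨k * g + algebraMap K _ (f.1 z) * l, by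
        rw [mul_ap, map_mul]; linear_combination g * hk + algebraMap K _ (f.1 z) * hl⟩
  choose p hp h1 using fun n : ℕ => approx h (ε := 1 / ((n : ℝ) + 1)) (by positivity)
  choose k hk using fun n => key _ (hp n)
  have e : ∀ n w, (w.1 - z.1) * (k n).1 w = (p n).1 w - (p n).1 z := fun n w => by
    have := congrArg (fun f : An K r => f.1 w) (hk n)
    simp only [add_ap, mul_ap, c_ap, lin_ap] at this
    linear_combination -this
  obtain ⟨l, hl⟩ := an_lim k (r * 1) fun n m hnm w => by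
    rw [mul_assoc, one_mul]
    refine est' (a := z.1) (k := k n - k m) (fun v => ?_) w
    have a : 1 / ((m : ℝ) + 1) ≤ 1 / ((n : ℝ) + 1) := by gcongr
    rw [show (lin r z.1 * (k n - k m)).1 v = (h.1 v - (p m).1 v - (h.1 v - (p n).1 v)) -
      (h.1 z - (p m).1 z - (h.1 z - (p n).1 z)) by
        simp only [mul_ap, sub_ap, lin_ap]; linear_combination e n v - e m v]
    exact (sub_le_max _ _).trans (max_le
      ((sub_le_max _ _).trans (max_le ((h1 m v).trans a) (h1 n v)))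
      ((sub_le_max _ _).trans (max_le ((h1 m z).trans a) (h1 n z))))
  refine ⟨l, an_ext fun w => ?_⟩
  have t := tendsto_one_div_add_atTop_nhds_zero_nat (𝕜 := ℝ)
  have t1 : ∀ v, Tendsto (fun n => (p n).1 v) atTop (𝓝 (h.1 v)) := fun v =>
    tendsto_iff_norm_sub_tendsto_zero.2 (squeeze_zero (fun _ => norm_nonneg _)
      (fun n => by rw [norm_sub_rev]; exact h1 n v) t)
  have t2 : Tendsto (fun n => (k n).1 w) atTop (𝓝 (l.1 w)) :=
    tendsto_iff_norm_sub_tendsto_zero.2 (squeeze_zero (fun _ => norm_nonneg _)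
      (fun n => (norm_sub_rev _ _).trans_le (hl n w)) (by simpa using t.const_mul (r * 1)))
  have := tendsto_nhds_unique (t2.const_mul (w.1 - z.1)) (((t1 w).sub (t1 z)).congr
    fun n => (e n w).symm)
  simp only [add_ap, mul_ap, c_ap, lin_ap]
  linear_combination -this

/-- the difference quotient -/
def sl (z : Ann K r) (h : An K r) : An K r := (exists_sl z h).choose

lemma sl_spec (z : Ann K r) (h : An K r) : lin r z.1 * sl z h = h - algebraMap K _ (h.1 z) := by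
  have := (exists_sl z h).choose_spec
  change h = _ + _ * sl z h at this
  linear_combination -this

lemma sl_eq {z : Ann K r} {h k : An K r} (H : lin r z.1 * k = h - algebraMap K _ (h.1 z)) :
    sl z h = k := an_ext fun w => by
  have := est' (a := z.1) (k := sl z h - k) (c := 0)
    (fun v => by rw [mul_sub, sl_spec, H, sub_self]; simp) w
  rw [mul_zero, norm_le_zero_iff] at this
  exact sub_eq_zero.1 this

lemma lin_dvd {z : Ann K r} {h : An K r} : lin r z.1 ∣ h ↔ h.1 z = 0 :=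
  ⟨by rintro ⟨k, rfl⟩; simp, fun e => ⟨sl z h, by rw [sl_spec, e]; simp⟩⟩

lemma lip (h : An K r) : ∃ C, ∀ w z, ‖h.1 w - h.1 z‖ ≤ C * ‖w.1 - z.1‖ := by
  obtain ⟨C, -, hC⟩ := bdd h
  refine ⟨r * C, fun w z => ?_⟩
  have a := est' (a := z.1) (k := sl z h) (c := C)
    (fun v => by rw [sl_spec]; exact (sub_le_max _ _).trans (max_le (hC _) (hC _))) w
  have b := congrArg (fun f : An K r => f.1 w) (sl_spec z h)
  simp only [sub_ap, mul_ap, c_ap, lin_ap] at b
  rw [← b, norm_mul, mul_comm]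
  gcongr

/-- z d/dz -/
def Df (h : An K r) (z : Ann K r) : K := z.1 * (sl z h).1 z

lemma Df_le (h : An K r) (z : Ann K r) : ‖Df h z‖ ≤ G z h := by
  rw [Df, norm_mul]
  refine (est z.1 _ z).trans ?_
  rw [sl_spec]
  exact G_le fun w hw => (sub_le_max _ _).trans (max_le (le_G h hw) (le_G h rfl))

lemma Df_add (f g : An K r) : Df (f + g) = Df f + Df g := funext fun z => by
  rw [Df, sl_eq (k := sl z f + sl z g) (by rw [mul_add, sl_spec, sl_spec, add_ap, map_add]; ring)]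
  simp [Df, mul_add]

lemma Df_mul (f g : An K r) : Df (f * g) = f.1 * Df g + g.1 * Df f := funext fun z => by
  rw [Df, sl_eq (k := sl z f * g + algebraMap K _ (f.1 z) * sl z g) (by
    rw [mul_ap, map_mul]
    linear_combination g * sl_spec z f + algebraMap K _ (f.1 z) * sl_spec z g)]
  simp only [Df, add_ap, mul_ap, c_ap, Pi.add_apply, Pi.mul_apply]
  ring

lemma Df_c (c : K) : Df (algebraMap K (An K r) c) = 0 := funext fun z => by
  rw [Df, sl_eq (k := 0) (by simp)]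
  simp

lemma Df_zf : Df (zf (K := K) r) = (zf r).1 := funext fun z => by
  rw [Df, sl_eq (k := 1) (by simp [lin])]
  simp

lemma Df_mem (h : An K r) : Df h ∈ An K r := fun ε hε => by
  obtain ⟨p, hp, h1⟩ := approx h hε
  refine ⟨Df p, (lau_add (Q := fun p => p.1 ∈ Lau K r ∧ Df p ∈ Lau K r) ?_ ?_ ?_ ?_ ?_ p hp).2,
    fun z => ?_⟩
  · exact fun c => ⟨(Lau K r).algebraMap_mem c, by rw [Df_c]; exact zero_mem _⟩
  · exact ⟨Algebra.subset_adjoin (Or.inl rfl), by
      rw [Df_zf]; exact Algebra.subset_adjoin (Or.inl rfl)⟩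
  · have m : (zi (K := K) r).1 ∈ Lau K r := Algebra.subset_adjoin (Or.inr rfl)
    refine ⟨m, ?_⟩
    convert neg_mem m using 1
    funext w
    have := congrFun (Df_mul (zf r) (zi r)) w
    rw [zf_zi, ← map_one (algebraMap K _), Df_c, Df_zf] at this
    simp only [Pi.add_apply, Pi.mul_apply, zf_ap, zi_ap, Pi.zero_apply, Pi.neg_apply] at this ⊢
    field_simp [w.ne] at this ⊢
    linear_combination -this
  · exact fun f g hf hg => ⟨add_mem hf.1 hg.1, by rw [Df_add]; exact add_mem hf.2 hg.2⟩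
  · exact fun f g hf hg => ⟨mul_mem hf.1 hg.1, by
      rw [Df_mul]; exact add_mem (mul_mem hf.1 hg.2) (mul_mem hg.1 hf.2)⟩
  · have := congrFun (Df_add (h - p) p) z
    rw [sub_add_cancel, Pi.add_apply] at this
    rw [this, add_sub_cancel_right]
    exact (Df_le _ z).trans (G_le fun w _ => h1 w)

variable (K) in
/-- z d/dz as a derivation -/
def Dr (r : ℝ) : Derivation K (An K r) (An K r) :=
  Derivation.mk'
    { toFun := fun h => ⟨Df h, Df_mem h⟩
      map_add' := fun f g => Subtype.ext (Df_add f g)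
      map_smul' := fun c f => Subtype.ext (by
        rw [Algebra.smul_def, RingHom.id_apply, Algebra.smul_def]
        change Df _ = (algebraMap K (An K r) c).1 * Df f
        rw [Df_mul, Df_c, mul_zero, add_zero]) }
    fun f g => Subtype.ext (Df_mul f g)

lemma G_D (q : Ann K r) (h : An K r) : G q (Dr K r h) ≤ G q h :=
  G_le fun w hw => (Df_le h w).trans (G_congr h hw).le

lemma D_lin (a : K) : Dr K r (lin r a) = zf r := by
  rw [lin, map_sub, Derivation.map_algebraMap, sub_zero]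
  exact Subtype.ext Df_zf

omit [IsUltrametricDist K] [IsAlgClosed K] [CompleteSpace K] in
lemma res_lin {s : ℝ} (h : r ≤ s) (a : K) : res K h (lin s a) = lin r a := rfl

lemma res_D {s : ℝ} (h : r ≤ s) (f : An K s) : res K h (Dr K s f) = Dr K r (res K h f) :=
  an_ext fun z => by
    change Df f (incl K h z) = Df _ z
    rw [Df, Df, sl_eq (z := z) (h := res K h f) (k := res K h (sl (incl K h z) f))
      (congrArg (res K h) (sl_spec (incl K h z) f))]
    rfl

/-- the Jensen functional -/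
def Phi (hr : 1 ≤ r) (q : Ann K r) (h : An K r) : ℝ :=
  Real.log (G q h) + Real.log (G q.inv h) - 2 * Real.log (G (one hr) h)

/-- a lies in the closed annulus bounded by q -/
def In (q : Ann K r) (a : K) : Prop := ‖q.1‖⁻¹ ≤ ‖a‖ ∧ ‖a‖ ≤ ‖q.1‖

omit [CompleteSpace K]

lemma Phi_nonneg (hr : 1 ≤ r) (q : Ann K r) {h : An K r} (h0 : h ≠ 0) : 0 ≤ Phi hr q h := by
  have := Real.log_le_log (pow_pos (G_pos hr h0 _) 2) (conv2 hr q h)
  rw [Real.log_pow, Real.log_mul (G_pos hr h0 _).ne' (G_pos hr h0 _).ne'] at this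
  simpa [Phi] using this

lemma Phi_mul (hr : 1 ≤ r) (q : Ann K r) {f g : An K r} (hf : f ≠ 0) (hg : g ≠ 0) :
    Phi hr q (f * g) = Phi hr q f + Phi hr q g := by
  simp only [Phi, G_mul, Real.log_mul (G_pos hr hf _).ne' (G_pos hr hg _).ne']
  ring

lemma lin_ne (hr : 1 ≤ r) (a : K) : lin r a ≠ 0 := fun h => by
  have := G_lin (one hr) a
  rw [h, G_zero] at this
  exact absurd (this ▸ le_max_left _ _ : ‖(one hr : Ann K r).1‖ ≤ 0) (by simp [one])

lemma Phi_lin (hr : 1 ≤ r) (q : Ann K r) (a : K) : Phi hr q (lin r a) =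
    Real.log (max ‖q.1‖ ‖a‖) + Real.log (max ‖q.1‖⁻¹ ‖a‖) - 2 * Real.log (max 1 ‖a‖) := by
  simp only [Phi, G_lin]
  simp [Ann.inv, one]

lemma Phi_out (hr : 1 ≤ r) {q : Ann K r} (hq : 1 ≤ ‖q.1‖) {a : K} (ha : ¬In q a) :
    Phi hr q (lin r a) = 0 := by
  have := inv_le_one_of_one_le₀ hq
  rw [Phi_lin]
  rcases not_and_or.1 ha with h | h <;> push Not at h
  · rw [max_eq_left (by linarith), max_eq_left h.le, max_eq_left (by linarith)]
    simp
  · rw [max_eq_right h.le, max_eq_right (by linarith), max_eq_right (by linarith)]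
    ring

lemma Phi_in (hr : 1 ≤ r) {q Q : Ann K r} (hq : 1 ≤ ‖q.1‖) (hQ : ‖q.1‖ ≤ ‖Q.1‖) {a : K}
    (ha : In q a) : Real.log ‖Q.1‖ - Real.log ‖q.1‖ ≤ Phi hr Q (lin r a) := by
  have h1 : ‖Q.1‖⁻¹ ≤ ‖q.1‖⁻¹ := inv_anti₀ (by linarith) hQ
  have h2 : 0 < ‖q.1‖⁻¹ := by positivity
  have h3 := Real.log_le_log h2 ha.1
  have h4 := Real.log_le_log (h2.trans_le ha.1) ha.2
  rw [Phi_lin, max_eq_left (ha.2.trans hQ), max_eq_right (h1.trans ha.1)]
  rw [Real.log_inv] at h3
  rcases max_choice 1 ‖a‖ with e | e <;> rw [e]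
  · simp; linarith
  · linarith

omit [IsUltrametricDist K] [IsAlgClosed K] in
lemma In.mem {q : Ann K r} {a : K} (ha : In q a) : 1 ≤ r * ‖a‖ ∧ ‖a‖ ≤ r := by
  refine ⟨le_trans ?_ (mul_le_mul_of_nonneg_left ha.1 ((norm_nonneg _).trans q.2.2)),
    ha.2.trans q.2.2⟩
  rw [← div_eq_mul_inv, one_le_div (norm_pos_iff.2 q.ne)]
  exact q.2.2

lemma roots (hr : 1 ≤ r) {q Q : Ann K r} (hq : 1 ≤ ‖q.1‖) (hQ : ‖q.1‖ ≤ ‖Q.1‖) (p : An K r)
    (hp : p.1 ∈ Lau K r) : p ≠ 0 → ∃ T : Multiset K,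
      T.card * (Real.log ‖Q.1‖ - Real.log ‖q.1‖) ≤ Phi hr Q p ∧
      ((∀ w, In q w.1 → p.1 w ≠ 0) → Phi hr q p = 0) ∧
      ∀ w : Ann K r, In q w.1 → ∀ δ, 0 < δ → δ ≤ 1 → (∀ a ∈ T, δ * r ≤ ‖w.1 - a‖) →
        G w p * δ ^ T.card ≤ ‖p.1 w‖ := by
  revert p
  refine lau_ind (fun c _ => ⟨0, ?_, fun _ => ?_, fun w _ δ _ _ _ => ?_⟩) (fun a h0 => ?_)
    (fun _ => ⟨0, ?_, fun _ => ?_, fun w _ δ _ _ _ => ?_⟩) fun f g hf hg h0 => ?_
  · simp only [Phi, G_c]; simp; linarith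
  · simp only [Phi, G_c]; ring
  · simp [G_c]
  · by_cases ha : In q a
    · refine ⟨{a}, by simpa using Phi_in hr hq hQ ha, fun h => absurd (sub_self a)
        (h ⟨a, ha.mem⟩ ha), fun w _ δ h1 _ h3 => ?_⟩
      rw [G_lin, Multiset.card_singleton, pow_one, mul_comm]
      exact le_trans (mul_le_mul_of_nonneg_left (max_le w.2.2 ha.mem.2) h1.le) (h3 a (by simp))
    · refine ⟨0, by simpa using Phi_nonneg hr Q h0, fun _ => Phi_out hr hq ha,
        fun w hw δ _ _ _ => ?_⟩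
      rw [G_lin, lin_ap, sub_eq_max fun e => ha (by rw [In, ← e]; exact hw)]
      simp
  · simp only [Phi, G_zi]; simp [Ann.inv, one]
  · simp only [Phi, G_zi]; simp [Ann.inv, one]
  · simp [G_zi]
  · have f0 := left_ne_zero_of_mul h0
    have g0 := right_ne_zero_of_mul h0
    obtain ⟨S, a1, a2, a3⟩ := hf f0
    obtain ⟨T, b1, b2, b3⟩ := hg g0
    refine ⟨S + T, ?_, fun h => ?_, fun w hw δ h1 h2 h3 => ?_⟩
    · rw [Phi_mul hr Q f0 g0, Multiset.card_add]; push_cast; linarith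
    · rw [Phi_mul hr q f0 g0, a2 fun w hw => left_ne_zero_of_mul (h w hw),
        b2 fun w hw => right_ne_zero_of_mul (h w hw), add_zero]
    · rw [G_mul, Multiset.card_add, pow_add, mul_mul_mul_comm, mul_ap, norm_mul]
      exact mul_le_mul (a3 w hw δ h1 h2 fun a ha => h3 a (by simp [ha]))
        (b3 w hw δ h1 h2 fun a ha => h3 a (by simp [ha]))
        (mul_nonneg (G_nonneg _ _) (by positivity)) (norm_nonneg _)

variable [CompleteSpace K]

lemma zero_free (hr : 1 ≤ r) {q Q : Ann K r} (hq : 1 ≤ ‖q.1‖) (hQ : ‖q.1‖ < ‖Q.1‖) {u : An K r}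
    (u0 : u ≠ 0) (hu : ∀ w, In q w.1 → u.1 w ≠ 0) : Phi hr q u = 0 := by
  obtain ⟨m, hm, hm'⟩ := G_low hr u0
  have ap : ∀ ε, 0 < ε → ε < m → ∃ p : An K r, p.1 ∈ Lau K r ∧ (∀ z, ‖u.1 z - p.1 z‖ ≤ ε) ∧
      p ≠ 0 ∧ ∀ w, G w p = G w u := fun ε h1 h2 => by
    obtain ⟨p, hp, h3⟩ := approx u h1
    have e := fun w => G_eq (q := w) h3 (h2.trans_le (hm' w))
    refine ⟨p, hp, h3, fun h => ?_, e⟩
    have := e q
    rw [h, G_zero] at this
    linarith [hm' q]
  by_cases hc : ∃ μ > 0, ∀ w, In q w.1 → μ ≤ ‖u.1 w‖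
  · obtain ⟨μ, h1, h2⟩ := hc
    obtain ⟨p, hp, h3, p0, e⟩ := ap (min μ m / 2) (by positivity)
      (by linarith [min_le_right μ m])
    obtain ⟨-, -, h4, -⟩ := roots hr hq hQ.le p hp p0
    simpa only [Phi, e] using h4 fun w hw h => by
      have := h3 w
      rw [h, sub_zero] at this
      linarith [min_le_left μ m, h2 w hw]
  push Not at hc
  choose w hw1 hw2 using fun n : ℕ => hc (1 / ((n : ℝ) + 1)) (by positivity)
  have t := tendsto_one_div_add_atTop_nhds_zero_nat (𝕜 := ℝ)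
  have hl : 0 < Real.log ‖Q.1‖ - Real.log ‖q.1‖ := sub_pos.2 (Real.log_lt_log (by linarith) hQ)
  obtain ⟨d, hd⟩ := exists_nat_ge (Phi hr Q u / (Real.log ‖Q.1‖ - Real.log ‖q.1‖))
  have tb : TotallyBounded (Set.range fun n => (w n).1) := Metric.totallyBounded_iff.2 fun ε hε => by
    set δ := min 1 (ε / r)
    have δ0 : 0 < δ := by positivity
    have δ1 : δ ≤ 1 := min_le_left _ _
    have δ2 : δ * r ≤ ε := (le_div_iff₀ (by linarith)).1 (min_le_right _ _)
    have m1 : m * δ ^ d ≤ m := mul_le_of_le_one_right hm.le (pow_le_one₀ δ0.le δ1)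
    have m0 : 0 < m * δ ^ d := by positivity
    obtain ⟨p, hp, h3, p0, e⟩ := ap (m * δ ^ d / 3) (by positivity) (by linarith)
    obtain ⟨T, h4, -, h5⟩ := roots hr hq hQ.le p hp p0
    have hT : T.card ≤ d := by
      simp only [Phi, e] at h4
      exact_mod_cast ((le_div_iff₀ hl).2 h4).trans hd
    obtain ⟨N, hN⟩ := eventually_atTop.1 (t.eventually (gt_mem_nhds (div_pos m0 three_pos)))
    refine ⟨{a | a ∈ T} ∪ (fun n => (w n).1) '' Set.Iio N,
      T.finite_toSet.union ((Set.finite_Iio N).image _), ?_⟩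
    rintro _ ⟨n, rfl⟩
    simp only [Set.mem_iUnion]
    rcases lt_or_ge n N with h | h
    · exact ⟨_, Or.inr ⟨n, h, rfl⟩, Metric.mem_ball_self hε⟩
    by_contra hc
    push Not at hc
    have a := h5 (w n) (hw1 n) δ δ0 δ1 fun a ha => δ2.trans (by
      simpa [dist_eq_norm] using hc a (Or.inl ha))
    have b : m * δ ^ d ≤ G (w n) p * δ ^ T.card := mul_le_mul (e _ ▸ hm' _)
      (pow_le_pow_of_le_one δ0.le δ1 hT) (by positivity) (G_nonneg _ _)
    linarith [norm_le_norm_add_norm_sub (u.1 (w n)) (p.1 (w n)), h3 (w n), hN n h, hw2 n]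
  obtain ⟨a, -, φ, hφ, ha⟩ := (tb.closure.isCompact_of_isClosed isClosed_closure).tendsto_subseq
    fun n => subset_closure ⟨n, rfl⟩
  have hin : In q a := ⟨ge_of_tendsto' ha.norm fun n => (hw1 _).1,
    le_of_tendsto' ha.norm fun n => (hw1 _).2⟩
  obtain ⟨C, hC⟩ := lip u
  refine absurd (norm_le_zero_iff.1 (ge_of_tendsto' (x := atTop)
    (f := fun n => 1 / ((φ n : ℝ) + 1) + C * ‖(w (φ n)).1 - a‖) ?_ fun n => ?_))
    (hu ⟨a, hin.mem⟩ hin)
  · simpa using (t.comp hφ.tendsto_atTop).add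
      ((tendsto_iff_norm_sub_tendsto_zero.1 ha).const_mul C)
  · linarith [norm_le_norm_add_norm_sub (u.1 (w (φ n))) (u.1 ⟨a, hin.mem⟩), hw2 (φ n),
      hC (w (φ n)) ⟨a, hin.mem⟩]

lemma lin_prime (hr : 1 ≤ r) (z : Ann K r) : Prime (lin r z.1) :=
  ⟨lin_ne hr _, fun h => by simpa using lin_dvd.1 (h.dvd (a := 1)),
    fun a b h => by simpa only [lin_dvd, mul_ap, mul_eq_zero] using h⟩

omit [CompleteSpace K] in
lemma fin_mult (hr : 1 ≤ r) {q Q : Ann K r} (hq : 1 ≤ ‖q.1‖) (hQ : ‖q.1‖ < ‖Q.1‖) {a : K}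
    (ha : In q a) {h : An K r} (h0 : h ≠ 0) : FiniteMultiplicity (lin r a) h := by
  have := isDomain (K := K) hr
  have hl : 0 < Real.log ‖Q.1‖ - Real.log ‖q.1‖ := sub_pos.2 (Real.log_lt_log (by linarith) hQ)
  have key : ∀ (n : ℕ) (h : An K r), h ≠ 0 → lin r a ^ n ∣ h →
      n * (Real.log ‖Q.1‖ - Real.log ‖q.1‖) ≤ Phi hr Q h := fun n => by
    induction n with
    | zero => exact fun h h0 _ => by simpa using Phi_nonneg hr Q h0
    | succ n ih =>
      rintro _ h0 ⟨k, rfl⟩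
      rw [pow_succ', mul_assoc] at h0 ⊢
      rw [Phi_mul hr Q (lin_ne hr a) (right_ne_zero_of_mul h0)]
      push_cast
      linarith [ih _ (right_ne_zero_of_mul h0) (dvd_mul_right _ _), Phi_in hr hq hQ.le ha]
  obtain ⟨n, hn⟩ := exists_nat_ge (Phi hr Q h / (Real.log ‖Q.1‖ - Real.log ‖q.1‖))
  refine ⟨n, fun hd => ?_⟩
  have := key _ h h0 hd
  rw [div_le_iff₀ hl] at hn
  push_cast at this
  linarith

lemma jensen (hr : 1 ≤ r) {q Q : Ann K r} (hq : 1 ≤ ‖q.1‖) (hQ : ‖q.1‖ < ‖Q.1‖) {h : An K r}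
    (h0 : h ≠ 0) : (Function.support fun a : {a // In q a} => multiplicity (lin r a.1) h).Finite ∧
      Phi hr q h = ∑ᶠ a : {a // In q a}, Phi hr q (lin r a.1) * multiplicity (lin r a.1) h := by
  classical
  have := isDomain (K := K) hr
  have hl : 0 < Real.log ‖Q.1‖ - Real.log ‖q.1‖ := sub_pos.2 (Real.log_lt_log (by linarith) hQ)
  obtain ⟨n, hn⟩ := exists_nat_gt (Phi hr Q h / (Real.log ‖Q.1‖ - Real.log ‖q.1‖))
  rw [div_lt_iff₀ hl] at hn
  induction n generalizing h with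
  | zero => exact absurd (Phi_nonneg hr Q h0) (by simpa using hn)
  | succ n ih =>
    by_cases hu : ∀ w, In q w.1 → h.1 w ≠ 0
    · have e : ∀ a : {a // In q a}, multiplicity (lin r a.1) h = 0 := fun a =>
        multiplicity_eq_zero.2 fun hd => hu ⟨a.1, a.2.mem⟩ a.2 (lin_dvd.1 hd)
      simp [e, zero_free hr hq hQ h0 hu]
    push Not at hu
    obtain ⟨w, hw, hw0⟩ := hu
    obtain ⟨k, rfl⟩ := lin_dvd.2 hw0
    have k0 := right_ne_zero_of_mul h0
    rw [Phi_mul hr _ (lin_ne hr _) k0] at hn ⊢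
    obtain ⟨i1, i2⟩ := ih k0 (by push_cast at hn; linarith [Phi_in hr hq hQ.le hw])
    have e : ∀ a : {a // In q a}, multiplicity (lin r a.1) (lin r w.1 * k) =
        (if a = ⟨w.1, hw⟩ then 1 else 0) + multiplicity (lin r a.1) k := fun a => by
      rw [multiplicity_mul (lin_prime hr ⟨a.1, a.2.mem⟩) (fin_mult hr hq hQ a.2 h0)]
      congr 1
      split_ifs with ha
      · subst ha
        exact multiplicity_self
      · exact multiplicity_eq_zero.2 fun hd => ha (Subtype.ext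
          (sub_eq_zero.1 (lin_dvd (z := ⟨a.1, a.2.mem⟩).1 hd)))
    refine ⟨(i1.insert ⟨w.1, hw⟩).subset fun a ha => ?_, ?_⟩
    · by_contra hc
      simp only [Set.mem_insert_iff, not_or, Function.notMem_support] at hc
      exact ha (by simp only [e, if_neg hc.1, hc.2, add_zero])
    · simp only [e, Nat.cast_add, mul_add]
      rw [finsum_add_distrib ((Set.finite_singleton ⟨w.1, hw⟩).subset fun a ha => by
        by_contra hc; exact ha (by simp [show a ≠ _ from hc]))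
        (i1.subset fun a ha hc => ha (by simp [hc])), ← i2, finsum_eq_single _ ⟨w.1, hw⟩
        fun a ha => by simp [ha]]
      simp

end

end Pool.Agent.Lib.MP_7b66ee_ag
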