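import Pool.Agent.Lib.MP_7b66ee_ag.AnB

/-! The field of meromorphic functions on the multiplicative group and its places. -/

namespace Pool.Agent.Lib.MP_7b66ee_ag

open Filter Topology WithZero
open scoped NNReal nonZeroDivisors

universe u

noncomputable section

/-- the value distribution data of a differential field -/
structure Nev (K E : Type u) [NormedField K] [Field E] [Algebra K E] where
  D : Derivation K E E
  gs : ℕ → Bool → Valuation E ℝ≥0
  gsK : ∀ n b c, gs n b (algebraMap K E c) = ‖c‖₊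
  gsD : ∀ n b x, gs n b (D x) ≤ gs n b x
  P : ℕ → Type u
  a : ∀ n, P n → Valuation E ℤᵐ⁰
  aK : ∀ n p c, a n p (algebraMap K E c) ≤ 1
  res : ∀ n p x, a n p x ≤ 1 → ∃ c, a n p (x - algebraMap K E c) < 1
  aD : ∀ n p x, a n p x ≤ 1 → a n p (D x) ≤ 1
  unif : ∀ n p, ∃ t, a n p t = exp (-1) ∧ a n p (D t) = 1
  wt : ∀ n, P n → ℝ
  wt0 : ∀ n p, 0 ≤ wt n p
  fin : ∀ n x, (Function.support fun p => log (a n p x)).Finite
  jen : ∀ x, x ≠ 0 → ∃ κ, ∀ n, Real.log (gs n true x) + Real.log (gs n false x) +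
    ∑ᶠ p, wt n p * (log (a n p x) : ℤ) = κ
  b : ∀ n, P n
  wtb : ∀ C, ∃ n, C < wt n (b n)
  ab : ∀ n x, a n (b n) x = a 0 (b 0) x

lemma ext_der (K S T : Type*) [CommRing K] [CommRing S] [CommRing T] [Algebra K S] [Algebra K T]
    [Algebra S T] [IsScalarTower K S T] [Algebra.FormallyEtale S T] (d : Derivation K S T) :
    ∃ D : Derivation K T T, ∀ s, D (algebraMap S T s) = d s :=
  ⟨((KaehlerDifferential.isBaseChange_of_formallyEtale K S T).lift
    d.liftKaehlerDifferential).compDer (KaehlerDifferential.D K T), fun s => by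
      rw [← d.liftKaehlerDifferential_comp_D, ← (KaehlerDifferential.isBaseChange_of_formallyEtale
        K S T).lift_eq d.liftKaehlerDifferential, KaehlerDifferential.map_D]
      rfl⟩

lemma val_div {K L Γ : Type*} [CommRing K] [Field L] [Algebra K L]
    [LinearOrderedCommGroupWithZero Γ] (v : Valuation L Γ) (D : Derivation K L L) {x y : L}
    {c : Γ} (hx : v y * v (D x) ≤ c) (hy : v x * v (D y) ≤ c) :
    v (D (x / y)) ≤ (v y)⁻¹ ^ 2 * c := by
  rw [Derivation.leibniz_div, smul_eq_mul, map_mul, map_pow, map_inv₀]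
  refine mul_le_mul_right (v.map_sub_le ?_ ?_) _ <;> rwa [smul_eq_mul, map_mul]

variable {K : Type u} [NontriviallyNormedField K] [IsUltrametricDist K] [IsAlgClosed K]
  {r : ℝ} [hr : Fact (1 ≤ r)]

instance : IsDomain (An K r) := isDomain hr.out

instance : Fact ((1 : ℝ) ≤ 1) := ⟨le_rfl⟩

variable (K r) in
def Fr : Type u := FractionRing (An K r)

instance : Field (Fr K r) := inferInstanceAs (Field (FractionRing (An K r)))
instance : Algebra (An K r) (Fr K r) := inferInstanceAs (Algebra (An K r) (FractionRing (An K r)))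
instance : Algebra K (Fr K r) := ((algebraMap (An K r) (Fr K r)).comp (algebraMap K _)).toAlgebra
instance : IsScalarTower K (An K r) (Fr K r) := .of_algebraMap_eq' rfl
instance : IsFractionRing (An K r) (Fr K r) :=
  inferInstanceAs (IsFractionRing (An K r) (FractionRing (An K r)))

variable (K r) in
def jr : An K r →ₐ[K] Fr K 1 := (IsScalarTower.toAlgHom K _ _).comp (res K hr.out)

lemma jr_inj : Function.Injective (jr K r) :=
  (IsFractionRing.injective (An K 1) (Fr K 1)).comp (res_inj le_rfl hr.out)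

variable (K r) in
def Jr : Fr K r →ₐ[K] Fr K 1 := IsFractionRing.liftAlgHom (g := jr K r) jr_inj

lemma Jr_alg (h : An K r) : Jr K r (algebraMap _ _ h) = algebraMap _ _ (res K hr.out h) := by
  simp [Jr, jr]

variable (K) in
/-- meromorphic functions on the multiplicative group -/
def Mer : IntermediateField K (Fr K 1) where
  carrier := {x | ∀ (r : ℝ) [Fact (1 ≤ r)], x ∈ (Jr K r).fieldRange}
  mul_mem' := fun a b r _ => mul_mem (a r) (b r)
  add_mem' := fun a b r _ => add_mem (a r) (b r)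
  algebraMap_mem' := fun c _ _ => IntermediateField.algebraMap_mem _ c
  inv_mem' := fun _ a r _ => inv_mem (a r)

variable (K r) in
def io : Mer K →ₐ[K] Fr K r := ((AlgHom.equivFieldRange (Jr K r)).symm : _ →ₐ[K] _).comp
  (IntermediateField.inclusion fun _ h => h r)

lemma Jr_io (x : Mer K) : Jr K r (io K r x) = x :=
  congrArg Subtype.val ((AlgHom.equivFieldRange (Jr K r)).apply_symm_apply _)

lemma Jr_inj : Function.Injective (Jr K r) := (Jr K r).injective

lemma frac (y : Fr K r) : ∃ h k : An K r, k ≠ 0 ∧ y = algebraMap _ _ h / algebraMap _ _ k := by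
  obtain ⟨h, k, hk, rfl⟩ := IsFractionRing.div_surjective (A := An K r) y
  exact ⟨h, k, nonZeroDivisors.ne_zero hk, rfl⟩

lemma ext_val {Γ : Type*} [LinearOrderedCommGroupWithZero Γ] (v : Valuation (An K r) Γ)
    (hv : ∀ h, h ≠ 0 → v h ≠ 0) : ∃ w : Valuation (Fr K r) Γ, ∀ h, w (algebraMap _ _ h) = v h :=
  ⟨v.extendToLocalization (S := (An K r)⁰) (fun h hh => hv h (nonZeroDivisors.ne_zero hh)) _,
    fun h => v.extendToLocalization_apply_map_apply _ _ h⟩

lemma exists_gv (q : Ann K r) :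
    ∃ w : Valuation (Fr K r) ℝ≥0, ∀ h, (w (algebraMap _ _ h) : ℝ) = G q h := by
  obtain ⟨w, hw⟩ := ext_val (K := K) (r := r) (Γ := ℝ≥0)
    { toFun := fun h => ⟨G q h, G_nonneg q h⟩
      map_zero' := Subtype.ext (G_zero q)
      map_one' := Subtype.ext (G_one q)
      map_mul' := fun f g => Subtype.ext (G_mul q f g)
      map_add_le_max' := fun f g => by
        exact NNReal.coe_le_coe.1 ((G_add q f g).trans (NNReal.coe_max
          ⟨G q f, G_nonneg q f⟩ ⟨G q g, G_nonneg q g⟩).ge) }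
    fun h h0 e => (G_pos hr.out h0 q).ne' (congrArg Subtype.val e)
  exact ⟨w, fun h => congrArg Subtype.val (hw h)⟩

def gv (q : Ann K r) : Valuation (Fr K r) ℝ≥0 := (exists_gv q).choose

lemma gv_alg (q : Ann K r) (h : An K r) : (gv q (algebraMap _ _ h) : ℝ) = G q h :=
  (exists_gv q).choose_spec h

variable [CompleteSpace K]

variable (K r) in
lemma exists_DF : ∃ D : Derivation K (Fr K r) (Fr K r),
    ∀ s, D (algebraMap _ _ s) = algebraMap _ _ (Dr K r s) :=
  have := Algebra.FormallyEtale.of_isLocalization (Rₘ := Fr K r) (An K r)⁰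
  ext_der K (An K r) (Fr K r) ((Algebra.linearMap _ _).compDer (Dr K r))

variable (K r) in
def DF : Derivation K (Fr K r) (Fr K r) := (exists_DF K r).choose

lemma DF_alg (s : An K r) : DF K r (algebraMap _ _ s) = algebraMap _ _ (Dr K r s) :=
  (exists_DF K r).choose_spec s

lemma Jr_DF (y : Fr K r) : Jr K r (DF K r y) = DF K 1 (Jr K r y) := by
  obtain ⟨h, k, -, rfl⟩ := frac y
  simp only [map_div₀, Derivation.leibniz_div, smul_eq_mul, map_mul, map_pow, map_inv₀, map_sub,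
    DF_alg, Jr_alg, res_D]

variable (K) in
def DM : Derivation K (Mer K) (Mer K) :=
  Derivation.mk' (((DF K 1).toLinearMap ∘ₗ (Mer K).val.toLinearMap).codRestrict
    (Mer K).toSubalgebra.toSubmodule fun x r _ =>
      ⟨DF K r (io K r x), (Jr_DF _).trans (congrArg _ (Jr_io x))⟩)
    fun x y => Subtype.ext ((DF K 1).leibniz x y)

lemma io_DM (x : Mer K) : io K r (DM K x) = DF K r (io K r x) :=
  Jr_inj (by rw [Jr_DF, Jr_io, Jr_io]; rfl)

lemma gv_D (q : Ann K r) (y : Fr K r) : gv q (DF K r y) ≤ gv q y := by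
  obtain ⟨h, k, hk, rfl⟩ := frac y
  have e : ∀ h, gv q (DF K r (algebraMap _ _ h)) ≤ gv q (algebraMap (An K r) _ h) := fun h => by
    rw [← NNReal.coe_le_coe, DF_alg, gv_alg, gv_alg]; exact G_D q h
  have k0 : gv q (algebraMap (An K r) _ k) ≠ 0 := by simpa using hk
  refine (val_div _ _ (mul_le_mul_right (e h) _)
    ((mul_le_mul_right (e k) _).trans (mul_comm _ _).le)).trans (le_of_eq ?_)
  rw [map_div₀]
  field_simp

variable {q Q : Ann K r} (hq : 1 ≤ ‖q.1‖) (hQ : ‖q.1‖ < ‖Q.1‖)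
include hq hQ

lemma exists_pv (a : {a // In q a}) : ∃ w : Valuation (Fr K r) ℤᵐ⁰,
    ∀ h, h ≠ 0 → w (algebraMap _ _ h) = exp (-(multiplicity (lin r a.1) h : ℤ)) := by
  classical
  have f := fun h h0 => fin_mult hr.out hq hQ a.2 (h := h) h0
  have p := lin_prime hr.out ⟨a.1, a.2.mem⟩
  obtain ⟨w, hw⟩ := ext_val (K := K) (r := r) (Γ := ℤᵐ⁰)
    { toFun := fun h => if h = 0 then 0 else exp (-(multiplicity (lin r a.1) h : ℤ))
      map_zero' := if_pos rfl
      map_one' := by rw [if_neg one_ne_zero, multiplicity_eq_zero.2 p.not_dvd_one]; rfl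
      map_mul' := fun g h => by
        by_cases g0 : g = 0
        · simp [g0]
        by_cases h0 : h = 0
        · simp [h0]
        rw [if_neg g0, if_neg h0, if_neg (mul_ne_zero g0 h0),
          multiplicity_mul p (f _ (mul_ne_zero g0 h0)), ← exp_add]
        push_cast
        rw [neg_add]
      map_add_le_max' := fun g h => by
        by_cases g0 : g = 0
        · simp [g0]
        by_cases h0 : h = 0
        · simp [h0]
        by_cases s0 : g + h = 0
        · simp [s0]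
        simp only [if_neg g0, if_neg h0, if_neg s0, le_max_iff, exp_le_exp, neg_le_neg_iff,
          Nat.cast_le, ← min_le_iff]
        exact (f _ s0).le_multiplicity_of_pow_dvd (dvd_add
          (pow_dvd_of_le_multiplicity (min_le_left _ _))
          (pow_dvd_of_le_multiplicity (min_le_right _ _))) }
    fun h h0 => by simp [h0]
  exact ⟨w, fun h h0 => (hw h).trans (if_neg h0)⟩

def pv (a : {a // In q a}) : Valuation (Fr K r) ℤᵐ⁰ := (exists_pv hq hQ a).choose

lemma pv_alg (a : {a // In q a}) {h : An K r} (h0 : h ≠ 0) :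
    pv hq hQ a (algebraMap _ _ h) = exp (-(multiplicity (lin r a.1) h : ℤ)) :=
  (exists_pv hq hQ a).choose_spec h h0

lemma pv_le (a : {a // In q a}) (h : An K r) : pv hq hQ a (algebraMap _ _ h) ≤ 1 := by
  by_cases h0 : h = 0
  · simp [h0]
  · rw [pv_alg hq hQ a h0, ← exp_zero, exp_le_exp]; simp

lemma pv_one (a : {a // In q a}) {h : An K r} (h0 : h.1 ⟨a.1, a.2.mem⟩ ≠ 0) :
    pv hq hQ a (algebraMap _ _ h) = 1 := by
  rw [pv_alg hq hQ a (by rintro rfl; exact h0 rfl),
    multiplicity_eq_zero.2 fun hd => h0 (lin_dvd.1 hd)]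
  rfl

lemma pv_lin (a : {a // In q a}) : pv hq hQ a (algebraMap _ _ (lin r a.1)) = exp (-1) := by
  rw [pv_alg hq hQ a (lin_ne hr.out _), multiplicity_self]; rfl

lemma pv_rep (a : {a // In q a}) {y : Fr K r} (hy : pv hq hQ a y ≤ 1) :
    ∃ h k : An K r, k.1 ⟨a.1, a.2.mem⟩ ≠ 0 ∧ y = algebraMap _ _ h / algebraMap _ _ k := by
  obtain ⟨h, k, hk, rfl⟩ := frac y
  by_cases h0 : h = 0
  · exact ⟨0, 1, one_ne_zero, by simp [h0]⟩
  rw [map_div₀, pv_alg hq hQ a h0, pv_alg hq hQ a hk, ← exp_sub, ← exp_zero, exp_le_exp] at hy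
  obtain ⟨k', e, hk'⟩ := (fin_mult hr.out hq hQ a.2 hk).exists_eq_pow_mul_and_not_dvd
  obtain ⟨h', e'⟩ : lin r a.1 ^ multiplicity (lin r a.1) k ∣ h :=
    pow_dvd_of_le_multiplicity (by omega)
  refine ⟨h', k', fun h => hk' (lin_dvd (z := ⟨a.1, a.2.mem⟩).2 h), ?_⟩
  conv_lhs => rw [e, e']
  rw [map_mul, map_mul, mul_div_mul_left _ _ (by simpa using fun h => absurd h (lin_ne hr.out _))]

lemma pv_res (a : {a // In q a}) {y : Fr K r} (hy : pv hq hQ a y ≤ 1) :
    ∃ c, pv hq hQ a (y - algebraMap K _ c) < 1 := by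
  obtain ⟨h, k, hk, rfl⟩ := pv_rep hq hQ a hy
  have k1 := pv_one hq hQ a hk
  have k0 : algebraMap _ (Fr K r) k ≠ 0 := fun e => by simp [e] at k1
  refine ⟨h.1 ⟨a.1, a.2.mem⟩ / k.1 ⟨a.1, a.2.mem⟩, ?_⟩
  obtain ⟨l, hl⟩ := (lin_dvd (z := ⟨a.1, a.2.mem⟩) (h := h - algebraMap K _
    (h.1 ⟨a.1, a.2.mem⟩ / k.1 ⟨a.1, a.2.mem⟩) * k)).2 (by
      rw [sub_ap, mul_ap, c_ap, div_mul_cancel₀ _ hk, sub_self])
  rw [div_sub' k0, IsScalarTower.algebraMap_apply K (An K r), ← map_mul, ← map_sub, mul_comm k,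
    hl, map_div₀, k1, div_one, map_mul, map_mul, pv_lin]
  exact (mul_le_of_le_one_right' (pv_le hq hQ a l)).trans_lt (by decide)

lemma pv_D (a : {a // In q a}) {y : Fr K r} (hy : pv hq hQ a y ≤ 1) :
    pv hq hQ a (DF K r y) ≤ 1 := by
  obtain ⟨h, k, hk, rfl⟩ := pv_rep hq hQ a hy
  have := val_div (pv hq hQ a) (DF K r) (x := algebraMap _ _ h) (y := algebraMap _ _ k) (c := 1)
    (by rw [DF_alg]; exact mul_le_one' (pv_le ..) (pv_le ..))
    (by rw [DF_alg]; exact mul_le_one' (pv_le ..) (pv_le ..))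
  simpa [pv_one hq hQ a hk] using this

lemma pv_jen {y : Fr K r} (hy : y ≠ 0) : (Function.support fun a => log (pv hq hQ a y)).Finite ∧
    Real.log (gv q y) + Real.log (gv q.inv y) + ∑ᶠ a : {a // In q a}, Phi hr.out q (lin r a.1) *
      (log (pv hq hQ a y) : ℤ) = 2 * Real.log (gv (one hr.out : Ann K r) y) := by
  obtain ⟨h, k, hk, rfl⟩ := frac y
  have h0 : h ≠ 0 := fun e => hy (by simp [e])
  obtain ⟨a1, a2⟩ := jensen hr.out hq hQ h0
  obtain ⟨b1, b2⟩ := jensen hr.out hq hQ hk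
  simp only [map_div₀, pv_alg hq hQ _ h0, pv_alg hq hQ _ hk, ← exp_sub, log_exp, NNReal.coe_div,
    gv_alg, Real.log_div (G_pos hr.out h0 _).ne' (G_pos hr.out hk _).ne']
  refine ⟨(a1.union b1).subset fun a ha => ?_, ?_⟩
  · by_contra hc
    simp only [Set.mem_union, not_or, Function.notMem_support] at hc
    exact ha (by simp [hc.1, hc.2])
  · simp only [neg_sub_neg, Int.cast_sub, Int.cast_natCast, mul_sub]
    rw [finsum_sub_distrib (b1.subset fun a ha hc => ha (by simp [hc]))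
      (a1.subset fun a ha hc => ha (by simp [hc])), ← a2, ← b2, Phi, Phi]
    ring

omit hq hQ in
lemma mult_res {s : ℝ} [Fact (1 ≤ s)] (h : r ≤ s) (z : Ann K r) {f : An K s}
    (hf : FiniteMultiplicity (lin s z.1) f) :
    multiplicity (lin r z.1) (res K h f) = multiplicity (lin s z.1) f := by
  obtain ⟨k, e, hk⟩ := hf.exists_eq_pow_mul_and_not_dvd
  have e' := congrArg (res K h) e
  rw [map_mul, map_pow, res_lin] at e'
  refine multiplicity_eq_of_dvd_of_not_dvd ⟨_, e'⟩ fun hd => hk ?_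
  rw [e', pow_succ, mul_dvd_mul_iff_left (pow_ne_zero _ (lin_ne hr.out _))] at hd
  exact (lin_dvd (z := incl K h z)).2 (lin_dvd (z := z).1 hd)

end

theorem exists_nev (K : Type u) [NontriviallyNormedField K] [IsUltrametricDist K] [IsAlgClosed K]
    [CompleteSpace K] : Nonempty (Nev K (Mer K)) := by
  obtain ⟨π, hπ⟩ := NormedField.exists_one_lt_norm K
  let r : ℕ → ℝ := fun n => ‖π‖ ^ (n + 1)
  have hr : ∀ n, Fact (1 ≤ r n) := fun n => ⟨one_le_pow₀ hπ.le⟩
  have hm : ∀ n i, i ≤ n + 1 → 1 ≤ r n * ‖π ^ i‖ ∧ ‖π ^ i‖ ≤ r n := fun n i hi => by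
    rw [norm_pow]
    exact ⟨one_le_mul_of_one_le_of_one_le (hr n).out (one_le_pow₀ hπ.le),
      pow_le_pow_right₀ hπ.le hi⟩
  let q : ∀ n, Ann K (r n) := fun n => ⟨π ^ n, hm n n (by omega)⟩
  let Q : ∀ n, Ann K (r n) := fun n => ⟨π ^ (n + 1), hm n _ le_rfl⟩
  have hq : ∀ n, 1 ≤ ‖(q n).1‖ := fun n => by simpa [q] using one_le_pow₀ hπ.le
  have hQ : ∀ n, ‖(q n).1‖ < ‖(Q n).1‖ := fun n => by
    simpa [q, Q] using pow_lt_pow_right₀ hπ (Nat.lt_succ_self n)
  have h1 : ∀ n, In (q n) 1 := fun n => ⟨by simpa using inv_le_one_of_one_le₀ (hq n),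
    by simpa using hq n⟩
  have hz : ∀ s [Fact (1 ≤ s)], Jr K s (algebraMap _ _ (zf s)) = algebraMap _ _ (zf (K := K) 1) :=
    fun s _ => Jr_alg _
  let z : Mer K := ⟨algebraMap _ _ (zf (K := K) 1), fun s _ => ⟨_, hz s⟩⟩
  have iz : ∀ n, io K (r n) z = algebraMap _ _ (zf (r n)) := fun n =>
    Jr_inj ((Jr_io z).trans (hz _).symm)
  refine ⟨{
    D := DM K
    gs := fun n b => (gv (cond b (q n) (q n).inv)).comap (io K (r n))
    gsK := fun n b c => NNReal.eq ?_
    gsD := fun n b x => ?_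
    P := fun n => {a // In (q n) a}
    a := fun n p => (pv (hq n) (hQ n) p).comap (io K (r n))
    aK := fun n p c => ?_
    res := fun n p x hx => ?_
    aD := fun n p x hx => ?_
    unif := fun n p => ⟨z - algebraMap K _ p.1, ?_, ?_⟩
    wt := fun n p => Phi (hr n).out (q n) (lin _ p.1)
    wt0 := fun n p => Phi_nonneg _ _ (lin_ne (hr n).out _)
    fin := fun n x => ?_
    jen := fun x hx => ⟨2 * Real.log (gv (one le_rfl : Ann K 1) x.1), fun n => ?_⟩
    b := fun n => ⟨1, h1 n⟩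
    wtb := fun C => ?_
    ab := fun n x => ?_ }⟩
  · change (gv _ (io K _ _) : ℝ) = _
    rw [AlgHom.commutes, IsScalarTower.algebraMap_apply K (An K (r n)), gv_alg, G_c]; rfl
  · change gv _ (io K _ _) ≤ gv _ (io K _ _)
    rw [io_DM]; exact gv_D _ _
  · change pv _ _ _ (io K _ _) ≤ _
    rw [AlgHom.commutes, IsScalarTower.algebraMap_apply K (An K (r n))]; exact pv_le ..
  · obtain ⟨c, hc⟩ := pv_res _ _ p hx
    exact ⟨c, by change pv _ _ _ (io K _ _) < _; rwa [map_sub, AlgHom.commutes]⟩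
  · change pv _ _ _ (io K _ _) ≤ _
    rw [io_DM]; exact pv_D _ _ p hx
  · change pv _ _ _ (io K _ _) = _
    rw [map_sub, iz, AlgHom.commutes, IsScalarTower.algebraMap_apply K (An K (r n)), ← map_sub]
    exact pv_lin ..
  · change pv _ _ _ (io K _ _) = _
    rw [io_DM, map_sub, iz, AlgHom.commutes, IsScalarTower.algebraMap_apply K (An K (r n)), ← map_sub,
      DF_alg]
    exact pv_one _ _ _ (by rw [← lin, D_lin]; exact Ann.ne (K := K) ⟨p.1, p.2.mem⟩)
  · by_cases hx : x = 0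
    · simp [hx]
    · exact (pv_jen (hq n) (hQ n) ((map_ne_zero (io K (r n))).2 hx)).1
  · refine (pv_jen (hq n) (hQ n) ((map_ne_zero (io K (r n))).2 hx)).2.trans ?_
    rw [← Jr_io (r := r n) x]
    obtain ⟨h, k, -, e⟩ := frac (io K (r n) x)
    simp only [e, map_div₀, Jr_alg, NNReal.coe_div, gv_alg, G_res]
    rfl
  · obtain ⟨n, hn⟩ := exists_nat_gt (C / Real.log ‖π‖)
    rw [div_lt_iff₀ (Real.log_pos hπ)] at hn
    refine ⟨n, hn.trans_le (le_of_eq ?_)⟩
    rw [Phi_lin, norm_one, max_eq_left (hq n), max_eq_right (inv_le_one_of_one_le₀ (hq n))]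
    simp [q]
  · have hle : r 0 ≤ r n := pow_le_pow_right₀ hπ.le (by omega)
    change pv _ _ _ (io K _ _) = pv _ _ _ (io K _ _)
    obtain ⟨h, k, hk, e⟩ := frac (io K (r n) x)
    have e' : io K (r 0) x = algebraMap _ _ (res K hle h) / algebraMap _ _ (res K hle k) :=
      Jr_inj (by
        rw [Jr_io, ← Jr_io (r := r n), e]
        simp only [map_div₀, Jr_alg]
        rfl)
    have inj := res_inj (K := K) (hr 0).out hle
    by_cases h0 : h = 0
    · simp [e, e', h0]
    rw [e, e', map_div₀, map_div₀, pv_alg _ _ _ h0, pv_alg _ _ _ hk,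
      pv_alg _ _ _ ((map_ne_zero_iff _ inj).2 h0), pv_alg _ _ _ ((map_ne_zero_iff _ inj).2 hk)]
    exact congrArg₂ (fun i j : ℕ => exp (-(i : ℤ)) / exp (-(j : ℤ)))
      (mult_res hle (one (hr 0).out) (fin_mult (hr n).out (hq n) (hQ n) (h1 n) h0)).symm
      (mult_res hle (one (hr 0).out) (fin_mult (hr n).out (hq n) (hQ n) (h1 n) hk)).symm

end Pool.Agent.Lib.MP_7b66ee_ag
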