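import Pool.Agent.Lib.MP_7b66ee_ag.Defs

/-! From pluricanonical forms to functions. -/

namespace Pool.Agent.Lib.MP_7b66ee_ag

open Module

universe u

noncomputable section

lemma exists_ev {L V : Type*} [Field L] [AddCommGroup V] [Module L V] [Module.Finite L V]
    {S : Set (Dual L V)} (hS : Submodule.span L S = ⊤) :
    ∃ (d : Fin (finrank L V) → Dual L V) (e : ⋀[L]^(finrank L V) V ≃ₗ[L] L), (∀ i, d i ∈ S) ∧
      ∀ a, e (exteriorPower.ιMulti L _ a) = (Matrix.of fun j i => d i (a j)).det := by
  obtain ⟨f, h1, h2, -⟩ := Submodule.exists_fun_fin_finrank_span_eq L S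
  have hn : finrank L (Submodule.span L S) = finrank L V := by
    rw [hS, finrank_top, Subspace.dual_finrank_eq]
  let d := f ∘ finCongr hn.symm
  have h3 : ⊤ ≤ Submodule.span L (Set.range d) := by
    rw [(finCongr hn.symm).surjective.range_comp, h2, hS]
  let b := basisOfTopLeSpanOfCardEqFinrank d h3 (by simp)
  let T := (evalEquiv L V).trans b.dualBasis.equivFun
  have hT : ∀ x i, T x i = d i x := fun x i => by simp [T, b]
  let g := exteriorPower.alternatingMapLinearEquiv
    (Matrix.detRowAlternating.compLinearMap T.toLinearMap)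
  have hg : ∀ a, g (exteriorPower.ιMulti L _ a) = (Matrix.of fun j i => d i (a j)).det :=
    fun a => (exteriorPower.alternatingMapLinearEquiv_apply_ιMulti _ a).trans
      (congrArg Matrix.det (Matrix.ext fun j i => hT _ _))
  have sur : Function.Surjective g := fun c =>
    ⟨c • exteriorPower.ιMulti L _ fun j => T.symm ((1 : Matrix _ _ L) j), by
      simp only [map_smul, hg, ← hT, LinearEquiv.apply_symm_apply]
      exact (congrArg (c • ·) Matrix.det_one).trans (mul_one c)⟩
  exact ⟨d, .ofBijective g ⟨(LinearMap.injective_iff_surjective_of_finrank_eq_finrank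
    (by simp [exteriorPower.finrank_eq])).2 sur, sur⟩, fun i => h1 _, hg⟩

theorem exists_psi {K L : Type u} [Field K] [Field L] [Algebra K L] [Algebra.EssFiniteType K L]
    (h : GenType K L) {S : Set (Derivation K L L)} (hS : ∀ δ, δ ∈ Submodule.span L S) :
    ∃ Ψ : Finset L, Algebra.IsAlgebraic (IntermediateField.adjoin K (Ψ : Set L)) L ∧
      ∀ ψ ∈ Ψ, ∀ O : ValuationSubring L, (∀ c, algebraMap K L c ∈ O) →
        (∀ d ∈ S, ∀ x ∈ O, d x ∈ O) → ψ ∈ O := by
  classical
  obtain ⟨k, θ, T, -, h0, h1, h2⟩ := h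
  let q := (KaehlerDifferential.linearMapEquivDerivation K L (M := L)).symm
  obtain ⟨d, e, hd, he⟩ := exists_ev (S := q '' S) ((Submodule.map_span q.toLinearMap S).symm.trans (by
    rw [(Submodule.eq_top_iff').2 hS, Submodule.map_top, q.range]))
  choose δ hδ hq using hd
  let ev : Pluri K L k ≃ₗ[L] L := (PiTensorProduct.congr fun _ => e).trans
    (PiTensorProduct.constantBaseRingEquiv (Fin k) L).toLinearEquiv
  have reg : ∀ O : ValuationSubring L, (∀ d ∈ S, ∀ x ∈ O, d x ∈ O) → ∀ η, RegAt K O η →
      ev η ∈ O := fun O hO η hη => by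
    induction hη using AddSubgroup.closure_induction with
    | mem _ hx =>
      obtain ⟨c, a, hc, ha, rfl⟩ := hx
      rw [map_smul]
      refine mul_mem hc ?_
      simp only [ev, LinearEquiv.trans_apply, PiTensorProduct.congr_tprod, he,
        AlgEquiv.toLinearEquiv_apply, PiTensorProduct.constantBaseRingEquiv_tprod, Matrix.det_apply',
        Matrix.of_apply, ← hq]
      exact prod_mem fun i _ => sum_mem fun σ _ => mul_mem (intCast_mem _ _)
        (prod_mem fun j _ => by simpa [q] using hO _ (hδ j) _ (ha _ _))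
    | zero => simp
    | add _ _ _ _ a b => rw [map_add]; exact add_mem a b
    | neg _ _ a => rw [map_neg]; exact neg_mem a
  refine ⟨insert (ev θ) (T.image fun φ => ev (φ • θ)), ?_, fun ψ hψ O h3 h4 => ?_⟩
  · refine ⟨fun x => (h2.1 x).tower_top_of_subalgebra_le
      (A := (IntermediateField.adjoin K (T : Set L)).toSubalgebra)
      (B := (IntermediateField.adjoin K _).toSubalgebra) ?_⟩
    refine IntermediateField.adjoin_le_iff.2 fun φ hφ => ?_
    rw [show φ = ev (φ • θ) / ev θ by
      rw [map_smul, smul_eq_mul, mul_div_cancel_right₀ _ (ev.map_ne_zero_iff.2 h0)]]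
    exact div_mem (IntermediateField.subset_adjoin _ _ (Finset.mem_insert_of_mem
      (Finset.mem_image_of_mem _ hφ))) (IntermediateField.subset_adjoin _ _
        (Finset.mem_insert_self _ _))
  · rcases Finset.mem_insert.1 hψ with rfl | hψ
    · exact reg O h4 _ (h1 O h3).1
    · obtain ⟨φ, hφ, rfl⟩ := Finset.mem_image.1 hψ
      exact reg O h4 _ ((h1 O h3).2 φ hφ)

end

end Pool.Agent.Lib.MP_7b66ee_ag
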