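import Pool.Agent.Lib.MP_7b66ee_ag.Ht
import Pool.Agent.Lib.MP_7b66ee_ag.Alg

/-! The degeneracy theorem for function fields with a frame. -/

namespace Pool.Agent.Lib.MP_7b66ee_ag

open Algebra WithZero

universe u

noncomputable section

/-- affine charts of a complete variety with a vector field without invariant subvariety -/
structure Frame (K L : Type u) [Field K] [Field L] [Algebra K L] where
  J : Type u
  fin : Finite J
  A : J → Subalgebra K L
  ft : ∀ j, FiniteType K (A j)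
  alg : ∀ j, Algebra.IsAlgebraic (A j) L
  val : ∀ O : ValuationSubring L, (∀ c, algebraMap K L c ∈ O) → ∃ j, ∀ x ∈ A j, x ∈ O
  v : ∀ j, Derivation K (A j) (A j)
  simple : ∀ j (I : Ideal (A j)), (∀ s ∈ I, v j s ∈ I) → I = ⊥ ∨ I = ⊤

attribute [instance] Frame.ft Frame.alg Frame.fin

lemma exc {K L : Type u} [Field K] [CharZero K] [Field L] [Algebra K L] [EssFiniteType K L]
    (A : Subalgebra K L) [FiniteType K A] [Algebra.IsAlgebraic A L] (v : Derivation K A A)
    (hs : ∀ I : Ideal A, (∀ s ∈ I, v s ∈ I) → I = ⊥ ∨ I = ⊤) {ψ : L}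
    (reg : ∀ O : ValuationSubring L, (∀ c, algebraMap K L c ∈ O) →
      (∀ d : Derivation K L L, (∀ a ∈ A, d a ∈ A) → ∀ x ∈ O, d x ∈ O) → ψ ∈ O) :
    ∃ Z : Set (Ideal (integralClosure A L)), Z.Finite ∧
      (∀ q ∈ Z, q.IsPrime ∧ ∃ p : Ideal _, p.IsPrime ∧ p ≠ ⊥ ∧ p < q) ∧
      ∀ a : Valuation L ℤᵐ⁰, (∀ x : A, a x ≤ 1) → (∀ s : A, a s ≤ exp (-2) → a (v s) < 1) →
        1 < a ψ → ∃ q ∈ Z, ∀ x ∈ q, a x < 1 := by
  set C := integralClosure A L
  have ft := closure_ft A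
  have := FiniteType.isNoetherianRing K C
  have : IsFractionRing C L := integralClosure.isFractionRing_of_algebraic fun x h => Subtype.ext h
  have : IsIntegrallyClosed C := (isIntegrallyClosed_iff_isIntegrallyClosedIn L).2 inferInstance
  let J : Ideal C := (1 : Submodule C L).comap (LinearMap.toSpanSingleton C L ψ)
  have hJ : ∀ c : C, c ∈ J ↔ ∃ y : C, (y : L) = c * ψ := fun c => Submodule.mem_one
  have J0 : J ≠ ⊥ := by
    obtain ⟨y, c, hc, rfl⟩ := IsFractionRing.div_surjective (A := C) ψ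
    refine (Submodule.ne_bot_iff _).2 ⟨c, (hJ c).2 ⟨y, ?_⟩, nonZeroDivisors.ne_zero hc⟩
    exact (mul_div_cancel₀ _ fun e => nonZeroDivisors.ne_zero hc (Subtype.ext e)).symm
  have key : ∀ q ∈ J.minimalPrimes, ∃ Z : Set (Ideal C), Z.Finite ∧
      (∀ q ∈ Z, q.IsPrime ∧ ∃ p : Ideal _, p.IsPrime ∧ p ≠ ⊥ ∧ p < q) ∧
      ∀ (a : Valuation L ℤᵐ⁰) (c : Ideal C), c.IsPrime → (∀ x : C, a x ≤ 1) →
        (∀ x, x ∈ c ↔ a x < 1) → (∀ s : A, a s ≤ exp (-2) → a (v s) < 1) → q ≤ c →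
        ∃ q ∈ Z, q ≤ c := fun q hq => by
    have := hq.1.1
    have q0 : q ≠ ⊥ := fun e => J0 (le_bot_iff.1 (e ▸ hq.1.2))
    by_cases h1 : ∃ p : Ideal C, p.IsPrime ∧ p ≠ ⊥ ∧ p < q
    · exact ⟨{q}, Set.finite_singleton _, by rintro _ rfl; exact ⟨this, h1⟩,
        fun a c _ _ _ _ h => ⟨q, rfl, h⟩⟩
    obtain ⟨w, w1, w2, ⟨t, w3⟩, w4⟩ := exists_dv (L := L) q q0 fun p a b c =>
      c.eq_of_not_lt fun h => h1 ⟨p, a, b, h⟩
    have w5 : ∀ x : C, x ∉ q → w x = 1 := fun x hx =>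
      le_antisymm (w1 x) (not_lt.1 fun h => hx ((w2 x).1 h))
    have n0 : ∀ x : C, x ∉ q → (x : L) ≠ 0 := fun x hx e => by simpa [e] using w5 x hx
    obtain ⟨s, s1, s2⟩ : ∃ s : A, algebraMap A C s ∈ q ∧ algebraMap A C (v s) ∉ q := by
      by_contra hc
      push Not at hc
      rcases hs (q.comap (algebraMap A C)) hc with e | e
      exacts [q0 (Ideal.eq_bot_of_comap_eq_bot e), Ideal.IsPrime.ne_top inferInstance e]
    have s3 : w s ≠ exp (-1) := fun ws => by
      obtain ⟨y, c, hc, e⟩ := w4 ψ (reg w.valuationSubring (fun c => w1 (algebraMap K C c))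
        fun d hd => ram w (C := C.restrictScalars K)
          ((Subalgebra.fg_top _).1 ((Subalgebra.fg_top (C.restrictScalars K)).2
            ((Subalgebra.fg_iff_finiteType _).2 ft))) (fun x hx => C.algebraMap_mem ⟨x, hx⟩)
          (fun x hx => hx) (fun x hx => w1 ⟨x, hx⟩) (fun x hx => by
            obtain ⟨y, c, hc, e⟩ := w4 x hx
            exact ⟨y, y.2, c, c.2, w5 c hc, e⟩) s.2 ws d hd)
      exact hc (hq.1.2 ((hJ c).2 ⟨y, by rw [e]; exact (mul_div_cancel₀ _ (n0 c hc)).symm⟩))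
    have t0 : (t : L) ≠ 0 := fun e => by
      rw [show algebraMap C L t = 0 from e, map_zero] at w3; exact exp_ne_zero w3.symm
    obtain ⟨y, c, hc, e⟩ := w4 (s / t ^ 2) (by
      rw [map_div₀, map_pow, show w t = _ from w3, div_le_one₀ (by decide)]
      exact (lt_mul_exp_iff_le (by decide)).1
        (lt_of_le_of_ne (le_exp_neg ((w2 _).2 s1)) s3))
    have u0 : c * algebraMap A C (v s) ∉ q := fun h => (this.mem_or_mem h).elim hc s2
    refine ⟨(q ⊔ Ideal.span {c * algebraMap A C (v s)}).minimalPrimes,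
      Ideal.finite_minimalPrimes_of_isNoetherianRing _ _, fun q' hq' => ⟨hq'.1.1, q, this, q0,
        lt_of_le_of_ne (le_sup_left.trans hq'.1.2) fun e => u0 (e ▸ hq'.1.2
          (Ideal.mem_sup_right (Ideal.mem_span_singleton_self _)))⟩,
      fun a k _ a1 a2 a3 h => Ideal.exists_minimalPrimes_le (sup_le h ?_)⟩
    rw [Ideal.span_singleton_le_iff_mem]
    by_cases ck : c ∈ k
    · exact k.mul_mem_right _ ck
    refine k.mul_mem_left _ ((a2 _).2 (a3 s ?_))
    have t1 := le_exp_neg ((a2 t).1 (h ((w2 t).1 (w3.trans_lt (by decide)))))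
    rw [← div_mul_cancel₀ (s : L) (pow_ne_zero 2 t0), e, map_mul, map_pow, map_div₀,
      show a (algebraMap C L c) = 1 from le_antisymm (a1 c) (not_lt.1 fun h => ck ((a2 c).2 h)),
      div_one]
    exact mul_le_of_le_one_of_le (a1 y) (pow_le_pow_left' t1 2)
  choose! Z h1 h2 h3 using key
  refine ⟨⋃ q ∈ J.minimalPrimes, Z q, (Ideal.finite_minimalPrimes_of_isNoetherianRing _ J).biUnion
    h1, fun q' hq' => ?_, fun a a1 a2 a3 => ?_⟩
  · obtain ⟨q, hq, h⟩ := Set.mem_iUnion₂.1 hq'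
    exact h2 q hq q' h
  · have a4 : ∀ x : C, a.comap (algebraMap C L) x ≤ 1 := fun x => val_int_one x.2 a a1
    obtain ⟨q, hq, h⟩ := Ideal.exists_minimalPrimes_le (I := J) (J := cen _ a4) fun c hc => by
      obtain ⟨y, e⟩ := (hJ c).1 hc
      refine lt_of_le_of_ne (a4 c) fun h => a3.not_ge ?_
      simpa [e, show a c = 1 from h] using (a4 y : a y ≤ 1)
    obtain ⟨q', h4, h5⟩ := h3 q hq a _ inferInstance a4 (fun _ => Iff.rfl) a2 h
    exact ⟨q', Set.mem_biUnion hq h4, fun x hx => h5 hx⟩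

lemma trdeg_two {K C : Type u} [Field K] [CommRing C] [IsDomain C] [Algebra K C] [FiniteType K C]
    {p q : Ideal C} [p.IsPrime] [q.IsPrime] (p0 : p ≠ ⊥) (pq : p < q) {n : ℕ}
    (d1 : trdeg K C = n) : ∃ d : ℕ, trdeg K (C ⧸ q) = d ∧ d + 2 ≤ n := by
  have d2 := trdeg_drop (Ideal.Quotient.mkₐ K p) Ideal.Quotient.mk_surjective fun h =>
    p0 (by rw [← Ideal.mk_ker (I := p)]; exact (RingHom.injective_iff_ker_eq_bot _).1 h)
  have d3 := trdeg_drop (Ideal.Quotient.factorₐ K pq.le) (Ideal.Quotient.factor_surjective pq.le)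
    fun h => by
      obtain ⟨x, h1, h2⟩ := SetLike.exists_of_lt pq
      exact h2 (Ideal.Quotient.eq_zero_iff_mem.1 (h (a₁ := Ideal.Quotient.mk p x)
        ((Ideal.Quotient.eq_zero_iff_mem.2 h1).trans (map_zero _).symm)))
  rw [d1] at d2
  obtain ⟨d', hd'⟩ := Cardinal.lt_aleph0.1 (d2.trans (Cardinal.natCast_lt_aleph0))
  obtain ⟨d, hd⟩ := Cardinal.lt_aleph0.1 (d3.trans (d2.trans (Cardinal.natCast_lt_aleph0)))
  rw [hd'] at d2 d3
  rw [hd] at d3
  exact ⟨d, hd, by norm_cast at d2 d3; omega⟩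

lemma aux_two {K A C : Type u} [Field K] [CommRing A] [IsDomain A] [Algebra K A] [FiniteType K A]
    [CommRing C] [IsDomain C] [Algebra K C] [FiniteType K C] [Algebra A C] [IsScalarTower K A C]
    [FaithfulSMul A C] [Algebra.IsAlgebraic A C] (v : Derivation K A A)
    {p q : Ideal C} [p.IsPrime] [q.IsPrime] (p0 : p ≠ ⊥) (pq : p < q) :
    ∃ (n : ℕ) (t : Fin n → A), ∀ M, ∃ k, 0 < k ∧ ∃ a : (Fin n → Fin (k + 1)) → K,
      ∑ α, a α • ∏ i, t i ^ (α i : ℕ) ≠ 0 ∧
      ∀ i < M * k, algebraMap A C (v^[i] (∑ α, a α • ∏ i, t i ^ (α i : ℕ))) ∈ q := by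
  obtain ⟨m, t, ht⟩ := exists_isTranscendenceBasis' K A
  obtain ⟨n, hn⟩ := Cardinal.lt_aleph0.1 (trdeg_lt_aleph0_of_finiteType (R := K) (S := A))
  obtain ⟨e⟩ := Cardinal.mk_eq_nat_iff.1 (ht.cardinalMk_eq_trdeg.trans hn)
  let φ := (Ideal.Quotient.mkₐ K q).comp (IsScalarTower.toAlgHom K A C)
  obtain ⟨d, hd, d2⟩ := trdeg_two p0 pq (show trdeg K C = n by
    rw [← trdeg_add_eq K A, trdeg_eq_zero (R := A), add_zero, hn])
  refine ⟨n, t ∘ e.symm, fun M => ?_⟩
  obtain ⟨k, k0, c, s0, hs⟩ := aux_poly φ.rangeRestrict φ.rangeRestrict_surjective v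
    (ht.1.comp _ e.symm.injective) (hd ▸ trdeg_le_of_injective φ.range.val Subtype.val_injective)
    d2 M
  exact ⟨k, k0, c, s0, fun i hi =>
    Ideal.Quotient.eq_zero_iff_mem.1 (congrArg Subtype.val (hs i hi))⟩

variable {K E L : Type u} [NontriviallyNormedField K] [CharZero K] [Field E] [Algebra K E]
  [Field L] [Algebra K L] (N : Nev K E) (ι : L →ₐ[K] E) (Φ : Frame K L)
  (hv : ∀ j (s : Φ.A j), N.D (ι s) = ι (Φ.v j s))

omit [CharZero K]

include hv in
lemma gauss_bdd (x : L) : ∃ C : ℝ, ∀ n b, (N.gs n b (ι x) : ℝ) ≤ C :=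
  N.bdd fun O h1 h2 => by
    obtain ⟨j, hj⟩ := Φ.val (O.comap ι) fun c => by
      change ι _ ∈ O; rw [ι.commutes]; exact h1 c
    let a := O.valuation.comap (ι : L →+* E)
    have a1 : ∀ s : Φ.A j, a.comap (algebraMap _ L) s ≤ 1 := fun s =>
      (O.valuation_le_one_iff _).2 (hj s s.2)
    have a2 := (Φ.simple j (cen _ a1) fun s hs => by
      change O.valuation (ι s) < 1 at hs
      change O.valuation (ι (Φ.v j s)) < 1
      rw [← hv]
      by_cases s0 : ι s = 0
      · simp [s0]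
      rw [← div_mul_cancel₀ (N.D (ι s)) s0, map_mul]
      exact (mul_le_of_le_one_left' ((O.valuation_le_one_iff _).2 (h2 _))).trans_lt hs
      ).resolve_right (Ideal.IsPrime.ne_top inferInstance)
    obtain ⟨y, y0, hy⟩ := (Algebra.IsAlgebraic.isAlgebraic (R := Φ.A j) x).exists_integral_multiple
    have a3 := val_int_one hy a a1
    rw [Algebra.smul_def, map_mul, show a (algebraMap _ L y) = 1 from le_antisymm (a1 y)
      (not_lt.1 fun h => y0 ((Submodule.eq_bot_iff _).1 a2 y h)), one_mul] at a3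
    exact (O.valuation_le_one_iff _).1 a3

include hv in
lemma it_v (j) (s : Φ.A j) (i : ℕ) : N.D^[i] (ι s) = ι ((Φ.v j)^[i] s) := by
  induction i with
  | zero => rfl
  | succ i ih => rw [Function.iterate_succ_apply', Function.iterate_succ_apply', ih, hv]

variable (Ψ : Finset L)

/-- the total height -/
def tot (n : ℕ) : ℝ := ∑ ψ ∈ Ψ, N.ht n (ι ψ)

lemma tot_nonneg (n : ℕ) : 0 ≤ tot N ι Ψ n := Finset.sum_nonneg fun _ _ => N.ht_nonneg _ _

include hv in
lemma dep (alg : Algebra.IsAlgebraic (IntermediateField.adjoin K (Ψ : Set L)) L) (x : L) :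
    ∃ e C : ℝ, 0 ≤ e ∧ ∀ n, N.ht n (ι x) ≤ e * tot N ι Ψ n + C := by
  let H : ∀ n, N.P n → ℕ := fun n p => ∑ ψ ∈ Ψ, (log (N.a n p (ι ψ))).toNat
  let B : L → Prop := fun x => ∃ e : ℕ, ∀ n p, N.a n p (ι x) ≤ exp ((e * H n p : ℕ) : ℤ)
  have mono : ∀ {e f : ℕ} n p, e ≤ f → exp ((e * H n p : ℕ) : ℤ) ≤ exp ((f * H n p : ℕ) : ℤ) :=
    fun n p h => exp_le_exp.2 (by exact_mod_cast Nat.mul_le_mul_right _ h)
  have h1 : ∀ x ∈ adjoin K (Ψ : Set L), B x := fun x hx => by
    induction hx using adjoin_induction with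
    | mem x hx =>
      refine ⟨1, fun n p => le_exp_of_log_le ((Int.self_le_toNat _).trans ?_)⟩
      rw [one_mul]
      exact_mod_cast Finset.single_le_sum (f := fun ψ => (log (N.a n p (ι ψ))).toNat)
        (fun _ _ => Nat.zero_le _) hx
    | algebraMap c => exact ⟨0, fun n p => by simpa using N.aK n p c⟩
    | add x y _ _ hx hy =>
      obtain ⟨e, he⟩ := hx
      obtain ⟨f, hf⟩ := hy
      exact ⟨max e f, fun n p => by
        rw [map_add]
        exact Valuation.map_add_le _ ((he n p).trans (mono n p (le_max_left _ _)))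
          ((hf n p).trans (mono n p (le_max_right _ _)))⟩
    | mul x y _ _ hx hy =>
      obtain ⟨e, he⟩ := hx
      obtain ⟨f, hf⟩ := hy
      exact ⟨e + f, fun n p => by
        rw [map_mul, map_mul, add_mul, Nat.cast_add, exp_add]
        exact mul_le_mul' (he n p) (hf n p)⟩
  have h2 : ∀ x, IsIntegral (adjoin K (Ψ : Set L)) x → ∃ e : ℝ, 0 ≤ e ∧
      ∀ n, N.ht n (ι x) ≤ e * tot N ι Ψ n := fun x hx => by
    obtain ⟨T, hT⟩ := val_int ℤᵐ⁰ hx
    choose e he using fun c : adjoin K (Ψ : Set L) => h1 c c.2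
    refine ⟨(T.sup e : ℕ), by positivity, fun n => N.ht_le (by positivity) fun p => ?_⟩
    refine (N.pl_le p (hT ((N.a n p).comap (ι : L →+* E)) _ (by simpa using mono (f := T.sup e) n p zero_le)
      fun c hc => (he c n p).trans (mono n p (Finset.le_sup hc))) (by positivity)).trans
      (le_of_eq ?_)
    simp only [H, Nev.pl]
    push_cast
    refine congrArg _ (Finset.sum_congr rfl fun ψ _ => ?_)
    exact_mod_cast Int.ofNat_toNat _
  obtain ⟨y, y0, hy⟩ := (IntermediateField.isAlgebraic_adjoin_iff.1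
    (Algebra.IsAlgebraic.isAlgebraic (R := IntermediateField.adjoin K (Ψ : Set L))
      x)).exists_integral_multiple
  have y1 : ι y ≠ 0 := by simpa using y0
  obtain ⟨e, e0, he⟩ := h2 _ hy
  obtain ⟨f, f0, hf⟩ := h2 y (isIntegral_algebraMap (x := y))
  obtain ⟨C, hC⟩ := N.ht_inv y1 (gauss_bdd N ι Φ hv y)
  refine ⟨e + f, C, by positivity, fun n => ?_⟩
  have := N.ht_le (n := n) (T := Finset.univ) zero_le_one (x := ι x) (y := ![ι (y • x), (ι y)⁻¹])
    fun p => by
      have := N.pl_mul p (ι (y • x)) (ι y)⁻¹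
      rw [show ι (y • x) * (ι y)⁻¹ = ι x by
        rw [Subalgebra.smul_def, smul_eq_mul, map_mul]; field_simp] at this
      simpa using this
  simp only [Fin.sum_univ_two, Matrix.cons_val_zero, Matrix.cons_val_one] at this
  linarith [he n, hf n, hC n]

/-- a family of sets of points of negligible weight -/
def Small (Y : ∀ n, Set (N.P n)) : Prop := ∀ ε > 0, ∃ C, ∀ n (T : Finset (N.P n)), ↑T ⊆ Y n →
  ∑ p ∈ T, N.wt n p ≤ ε * tot N ι Ψ n + C

lemma small_union {α : Type*} {S : Set α} (hS : S.Finite) {Y : α → ∀ n, Set (N.P n)}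
    (h : ∀ i ∈ S, Small N ι Ψ (Y i)) : Small N ι Ψ fun n => ⋃ i ∈ S, Y i n := by
  classical
  induction S, hS using Set.Finite.induction_on with
  | empty => exact fun ε hε => ⟨0, fun n T hT => by
      simpa [show T = ∅ by simpa using hT] using mul_nonneg hε.le (tot_nonneg N ι Ψ n)⟩
  | @insert i S _ _ ih =>
    intro ε hε
    obtain ⟨C, hC⟩ := h i (by simp) _ (half_pos hε)
    obtain ⟨D, hD⟩ := ih (fun j hj => h j (by simp [hj])) _ (half_pos hε)
    refine ⟨C + D, fun n T hT => ?_⟩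
    rw [← Finset.sum_filter_add_sum_filter_not T (· ∈ Y i n)]
    linarith [hC n _ fun p (hp : p ∈ T.filter (· ∈ Y i n)) => (Finset.mem_filter.1 hp).2,
      hD n _ fun p (hp : p ∈ T.filter (· ∉ Y i n)) => by
        simpa [(Finset.mem_filter.1 hp).2] using hT (Finset.mem_filter.1 hp).1]

variable [CharZero K] [EssFiniteType K L]

include hv in
lemma small_prime (alg : Algebra.IsAlgebraic (IntermediateField.adjoin K (Ψ : Set L)) L) (j)
    (q : Ideal (integralClosure (Φ.A j) L)) [q.IsPrime]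
    (p : Ideal (integralClosure (Φ.A j) L)) [p.IsPrime] (p0 : p ≠ ⊥)
    (pq : p < q) : Small N ι Ψ fun n => {z | ∀ x ∈ q, N.a n z (ι x) < 1} := by
  have ft := closure_ft (Φ.A j)
  obtain ⟨n, t, ht⟩ := aux_two (Φ.v j) p0 pq
  choose e C e0 he using fun i => dep N ι Φ hv Ψ alg (t i)
  intro ε hε
  obtain ⟨M, hM⟩ := exists_nat_ge ((∑ i, e i) / ε)
  obtain ⟨k, k0, c, s0, hs⟩ := ht (M + 1)
  have h1 : ∀ m, N.ht m (ι (∑ α, c α • ∏ i, t i ^ (α i : ℕ) : Φ.A j)) ≤
      k * ∑ i, N.ht m (ι (t i)) := fun m => N.ht_le (by positivity) fun z => by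
    refine (N.pl_le z (k := k * ∑ i, (log (N.a m z (ι (t i)))).toNat) ?_ (by positivity)).trans
      (le_of_eq ?_)
    · push_cast
      rw [map_sum]
      refine Valuation.map_sum_le _ fun α _ => ?_
      rw [map_smul, Algebra.smul_def, map_mul, map_prod, map_prod, Finset.mul_sum]
      refine mul_le_of_le_one_of_le (N.aK _ _ _) ?_
      rw [show ∀ f : Fin n → ℤ, exp (∑ i, f i) = ∏ i, exp (f i) from fun f =>
        Finset.cons_induction_on (motive := fun T => exp (∑ i ∈ T, f i) = ∏ i ∈ T, exp (f i))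
          Finset.univ rfl fun i T hi ih => by
            rw [Finset.sum_cons, Finset.prod_cons, exp_add, ih]]
      refine Finset.prod_le_prod' fun i _ => ?_
      rw [map_pow, map_pow]
      refine (pow_le_pow_left' (le_exp_of_log_le (Int.self_le_toNat _)) _).trans ?_
      rw [← exp_nsmul, exp_le_exp, nsmul_eq_mul]
      exact mul_le_mul_of_nonneg_right (by exact_mod_cast Nat.le_of_lt_succ (α i).2) (by positivity)
    · simp [Nev.pl]
  generalize (∑ α, c α • ∏ i, t i ^ (α i : ℕ) : Φ.A j) = s at s0 hs h1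
  obtain ⟨D, hD⟩ := N.ht_inv (x := ι s) (by simpa using s0) (gauss_bdd N ι Φ hv _)
  have pos : (0 : ℝ) < (M + 1) * k := by positivity
  refine ⟨(k * ∑ i, C i + D) / ((M + 1) * k), fun m T hT => le_of_mul_le_mul_left ?_ pos⟩
  have h2 : ((M + 1) * k) * ∑ z ∈ T, N.wt m z ≤ N.ht m (ι s)⁻¹ := by
    refine le_trans ?_ (N.sum_le_ht _ T)
    rw [Finset.mul_sum]
    refine Finset.sum_le_sum fun z hz => (mul_comm _ _).trans_le
      (mul_le_mul_of_nonneg_left ?_ (N.wt0 m z))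
    obtain ⟨l, hl⟩ := Nat.exists_eq_succ_of_ne_zero (show (M + 1) * k ≠ 0 by positivity)
    have := N.ord_ge z l (ι s) fun i hi => by
      rw [it_v N ι Φ hv]
      exact hT hz _ (hs i (by omega))
    rw [← Nat.succ_eq_add_one, ← hl] at this
    exact_mod_cast N.le_pl z (x := (ι s)⁻¹) (k := ((M + 1) * k : ℕ)) (by
      rw [map_inv₀, le_inv_comm₀ exp_pos (zero_lt_iff.2 (by simpa using s0))]; exact this)
  have h3 : ∑ i, N.ht m (ι (t i)) ≤ (∑ i, e i) * tot N ι Ψ m + ∑ i, C i := by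
    rw [Finset.sum_mul, ← Finset.sum_add_distrib]; exact Finset.sum_le_sum fun i _ => he i m
  rw [div_le_iff₀ hε] at hM
  have h4 := mul_le_mul_of_nonneg_right (show ∑ i, e i ≤ (M + 1) * ε by linarith)
    (tot_nonneg N ι Ψ m)
  have h5 := mul_le_mul_of_nonneg_left (h3.trans (add_le_add_left h4 _)) (Nat.cast_nonneg k)
  rw [mul_add, mul_div_cancel₀ _ pos.ne']
  linarith [hD m, h1 m]

include hv in
theorem core (alg : Algebra.IsAlgebraic (IntermediateField.adjoin K (Ψ : Set L)) L)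
    (reg : ∀ ψ ∈ Ψ, ∀ O : ValuationSubring L, (∀ c, algebraMap K L c ∈ O) →
      (∀ d : Derivation K L L, (∀ j, ∀ a ∈ Φ.A j, d a ∈ Φ.A j) → ∀ x ∈ O, d x ∈ O) → ψ ∈ O)
    (x : L) : ∃ c, ι x = algebraMap K E c := by
  have key : ∀ ψ ∈ Ψ, ∀ ε > 0, ∃ C, ∀ n, N.ht n (ι ψ) ≤ ε * tot N ι Ψ n + C := fun ψ hψ => by
    choose Z z1 z2 z3 using fun j => exc (Φ.A j) (Φ.v j) (Φ.simple j)
      fun O h1 h2 => reg ψ hψ O h1 fun d hd => h2 d (hd j)
    have sm := small_union N ι Ψ (Set.finite_univ (α := Φ.J)) fun j _ =>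
      small_union N ι Ψ (z1 j) fun q hq => by
        obtain ⟨_, p, _, h1, h2⟩ := z2 j q hq
        exact small_prime N ι Φ hv Ψ alg j q p h1 h2
    have mult : ∀ j, ∃ R : ℕ, ∀ n (z : N.P n), (∀ x : Φ.A j, N.a n z (ι x) ≤ 1) →
        N.a n z (ι ψ) ≤ exp (R : ℤ) := fun j => by
      obtain ⟨y, y0, hy⟩ :=
        (Algebra.IsAlgebraic.isAlgebraic (R := Φ.A j) ψ).exists_integral_multiple
      let I : ℕ → Ideal (Φ.A j) := fun R => Ideal.span {s | ∃ i ≤ R, s = (Φ.v j)^[i] y}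
      have mono : Monotone I := fun R S h => Ideal.span_mono fun s ⟨i, h1, h2⟩ =>
        ⟨i, h1.trans h, h2⟩
      have st : ∀ R, ∀ s ∈ I R, Φ.v j s ∈ I (R + 1) := fun R s hs => by
        induction hs using Submodule.span_induction with
        | mem s hs =>
          obtain ⟨i, h1, rfl⟩ := hs
          exact Ideal.subset_span ⟨i + 1, by omega, (Function.iterate_succ_apply' _ _ _).symm⟩
        | zero => simp
        | add _ _ _ _ a b => rw [map_add]; exact add_mem a b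
        | smul c s hs a =>
          rw [smul_eq_mul, Derivation.leibniz]
          exact add_mem (Ideal.mul_mem_left _ _ a)
            (Ideal.mul_mem_right _ _ (mono R.le_succ hs))
      have mem := fun s => Submodule.mem_iSup_of_directed (x := s) I mono.directed_le
      obtain ⟨R, hR⟩ := (mem 1).1 ((Ideal.eq_top_iff_one _).1 ((Φ.simple j (⨆ R, I R) fun s hs => by
        obtain ⟨R, hR⟩ := (mem s).1 hs
        exact (mem _).2 ⟨_, st R s hR⟩).resolve_left fun e => y0 ((Submodule.eq_bot_iff _).1 e y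
          ((mem y).2 ⟨0, Ideal.subset_span ⟨0, le_rfl, rfl⟩⟩))))
      refine ⟨R, fun n z hz => ?_⟩
      let a := (N.a n z).comap (ι : L →+* E)
      have a3 : N.a n z (ι (y • ψ)) ≤ 1 := val_int_one hy a hz
      have a4 : 1 ≤ exp (R : ℤ) * N.a n z (ι y) := not_lt.1 fun hc =>
        Ideal.IsPrime.ne_top inferInstance ((Ideal.eq_top_iff_one
          (cen (a.comap (algebraMap _ L)) hz)).2 (Ideal.span_le.2 (by
            rintro _ ⟨i, hi, rfl⟩
            change N.a n z (ι ((Φ.v j)^[i] y)) < 1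
            rw [← it_v N ι Φ hv]
            exact ((N.aD_it z _ i).trans (mul_le_mul_left (exp_le_exp.2
              (by exact_mod_cast hi)) _)).trans_lt hc) hR))
      rw [Subalgebra.smul_def, smul_eq_mul, map_mul, map_mul] at a3
      calc _ ≤ exp (R : ℤ) * N.a n z (ι y) * N.a n z (ι ψ) := le_mul_of_one_le_left' a4
        _ ≤ _ := by rw [mul_assoc]; exact mul_le_of_le_one_right' a3
    choose R hR using mult
    obtain ⟨S, hS⟩ := (Set.finite_range R).bddAbove
    intro ε hε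
    obtain ⟨C, hC⟩ := sm (ε / (S + 1)) (by positivity)
    refine ⟨(S + 1) * C, fun n => ?_⟩
    have ch : ∀ z : N.P n, ∃ j, ∀ x : Φ.A j, N.a n z (ι x) ≤ 1 := fun z => by
      obtain ⟨j, hj⟩ := Φ.val ((N.a n z).valuationSubring.comap ι) fun c => by
        change N.a n z (ι _) ≤ 1; rw [ι.commutes]; exact N.aK n z c
      exact ⟨j, fun x => hj x x.2⟩
    have := mul_le_mul_of_nonneg_left (hC n (N.ht_fin n (ι ψ)).toFinset fun z hz => by
      obtain ⟨j, hj⟩ := ch z
      obtain ⟨q, h1, h2⟩ := z3 j ((N.a n z).comap (ι : L →+* E)) hj (fun s hs => by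
        change N.a n z (ι _) < 1
        rw [← hv]
        exact ((N.aD_le z _).trans (mul_le_mul_right hs _)).trans_lt (by decide)) (by
        by_contra hc
        have := N.pl_le z (x := ι ψ) (k := 0) (not_lt.1 hc) le_rfl
        simp [le_antisymm (by simpa using this) (N.pl_nonneg z _)] at hz)
      exact Set.mem_biUnion (Set.mem_univ j) (Set.mem_biUnion h1 h2))
      (show (0 : ℝ) ≤ S + 1 by positivity)
    rw [mul_add, ← mul_assoc, mul_div_cancel₀ _ (by positivity), Finset.mul_sum] at this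
    rw [Nev.ht, finsum_eq_sum _ (N.ht_fin n _)]
    refine (Finset.sum_le_sum fun z _ => (mul_le_mul_of_nonneg_left ?_ (N.wt0 n z)).trans
      (mul_comm _ _).le).trans this
    obtain ⟨j, hj⟩ := ch z
    refine (N.pl_le z (hR j n z hj) (by positivity)).trans ?_
    exact_mod_cast (hS ⟨j, rfl⟩).trans S.le_succ
  choose! C hC using fun ψ hψ => key ψ hψ (1 / (2 * (Ψ.card + 1))) (by positivity)
  have bd : ∀ n, tot N ι Ψ n ≤ 2 * ∑ ψ ∈ Ψ, C ψ := fun n => by
    have h1 : tot N ι Ψ n ≤ _ := Finset.sum_le_sum fun ψ hψ => hC ψ hψ n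
    rw [Finset.sum_add_distrib, Finset.sum_const, nsmul_eq_mul, ← mul_assoc] at h1
    have h2 : (Ψ.card : ℝ) * (1 / (2 * (Ψ.card + 1))) ≤ 1 / 2 := by
      rw [mul_one_div, div_le_div_iff₀ (by positivity) two_pos]; linarith
    linarith [mul_le_mul_of_nonneg_right h2 (tot_nonneg N ι Ψ n)]
  refine N.mem_of_ht fun c _ => ?_
  obtain ⟨e, D, e0, h1⟩ := dep N ι Φ hv Ψ alg x
  obtain ⟨e', D', e0', h2⟩ := dep N ι Φ hv Ψ alg (x - algebraMap K L c)⁻¹
  refine ⟨max (e * (2 * ∑ ψ ∈ Ψ, C ψ) + D) (e' * (2 * ∑ ψ ∈ Ψ, C ψ) + D'), fun n => ⟨?_, ?_⟩⟩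
  · exact le_max_of_le_left (by linarith [h1 n, mul_le_mul_of_nonneg_left (bd n) e0])
  · rw [← ι.commutes, ← map_sub, ← map_inv₀]
    exact le_max_of_le_right (by linarith [h2 n, mul_le_mul_of_nonneg_left (bd n) e0'])

end

end Pool.Agent.Lib.MP_7b66ee_ag
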