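import Mathlib

/-! Definitions used in the statement. -/

namespace Pool.Agent.Lib.MP_7b66ee_ag

open AlgebraicGeometry CategoryTheory
open scoped TensorProduct

universe u

noncomputable section

section Analytic

variable (K : Type u) [NormedField K]

/-- the closed annulus 1/r ≤ |z| ≤ r (empty for r < 1) -/
def Ann (r : ℝ) : Type u := {z : K // 1 ≤ r * ‖z‖ ∧ ‖z‖ ≤ r}

/-- Laurent polynomials in z, as functions on the annulus -/
def Lau (r : ℝ) : Subalgebra K (Ann K r → K) :=
  Algebra.adjoin K {fun z => z.1, fun z => z.1⁻¹}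

variable {K} in
lemma Ann.ne {r : ℝ} (z : Ann K r) : z.1 ≠ 0 := fun h => by
  have := z.2.1
  rw [h, norm_zero, mul_zero] at this
  exact absurd this (by norm_num)

variable {K} in
lemma Ann.inv_le {r : ℝ} (z : Ann K r) : ‖z.1⁻¹‖ ≤ r := by
  rw [norm_inv, inv_le_iff_one_le_mul₀ (norm_pos_iff.2 z.ne)]
  exact z.2.1

lemma Lau_bdd {r : ℝ} {p : Ann K r → K} (hp : p ∈ Lau K r) : ∃ C, 0 < C ∧ ∀ z, ‖p z‖ ≤ C := by
  induction hp using Algebra.adjoin_induction with
  | mem x hx =>
    refine ⟨|r| + 1, by positivity, fun z => le_trans ?_ ((le_abs_self r).trans (by simp))⟩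
    rcases hx with rfl | rfl
    exacts [z.2.2, z.inv_le]
  | algebraMap c => exact ⟨‖c‖ + 1, by positivity, fun z => by simp⟩
  | add x y _ _ hx hy =>
    obtain ⟨C, h1, h2⟩ := hx
    obtain ⟨D, h3, h4⟩ := hy
    exact ⟨C + D, by positivity, fun z => (norm_add_le _ _).trans (add_le_add (h2 z) (h4 z))⟩
  | mul x y _ _ hx hy =>
    obtain ⟨C, h1, h2⟩ := hx
    obtain ⟨D, h3, h4⟩ := hy
    exact ⟨C * D, by positivity, fun z => (norm_mul_le _ _).trans
      (mul_le_mul (h2 z) (h4 z) (norm_nonneg _) h1.le)⟩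

/-- the algebra of analytic functions on the closed annulus: uniform limits of Laurent
polynomials -/
def An (r : ℝ) : Subalgebra K (Ann K r → K) where
  carrier := {h | ∀ ε > 0, ∃ p ∈ Lau K r, ∀ z, ‖h z - p z‖ ≤ ε}
  add_mem' := fun {f g} hf hg ε hε => by
    obtain ⟨p, hp, h1⟩ := hf (ε / 2) (by positivity)
    obtain ⟨q, hq, h2⟩ := hg (ε / 2) (by positivity)
    refine ⟨p + q, add_mem hp hq, fun z => ?_⟩
    rw [show (f + g) z - (p + q) z = (f z - p z) + (g z - q z) by simp; ring]
    linarith [norm_add_le (f z - p z) (g z - q z), h1 z, h2 z]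
  mul_mem' := fun {f g} hf hg ε hε => by
    obtain ⟨p0, hp0, h0⟩ := hf 1 one_pos
    obtain ⟨C, hC, hC'⟩ := Lau_bdd K hp0
    obtain ⟨q, hq, h2⟩ := hg (ε / 2 / (C + 1)) (by positivity)
    obtain ⟨D, hD, hD'⟩ := Lau_bdd K hq
    obtain ⟨p, hp, h1⟩ := hf (ε / 2 / D) (by positivity)
    refine ⟨p * q, mul_mem hp hq, fun z => ?_⟩
    rw [show (f * g) z - (p * q) z = f z * (g z - q z) + (f z - p z) * q z by simp; ring]
    have a : ‖f z‖ ≤ C + 1 := by linarith [norm_le_norm_add_norm_sub' (f z) (p0 z), h0 z, hC' z]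
    have b := mul_le_mul a (h2 z) (norm_nonneg _) (by positivity)
    have c := mul_le_mul (h1 z) (hD' z) (norm_nonneg _) (by positivity)
    rw [mul_div_cancel₀ _ (by positivity)] at b
    rw [div_mul_cancel₀ _ hD.ne'] at c
    refine (norm_add_le _ _).trans ?_
    rw [norm_mul, norm_mul]
    linarith
  algebraMap_mem' := fun c ε hε => ⟨_, (Lau K r).algebraMap_mem c, fun z => by simpa using hε.le⟩

/-- the inclusion of a smaller annulus -/
def incl {r s : ℝ} (h : r ≤ s) (z : Ann K r) : Ann K s :=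
  ⟨z.1, z.2.1.trans (mul_le_mul_of_nonneg_right h (norm_nonneg _)), z.2.2.trans h⟩

/-- restriction of analytic functions to a smaller annulus -/
def res {r s : ℝ} (h : r ≤ s) : An K s →ₐ[K] An K r where
  toFun f := ⟨fun z => f.1 (incl K h z), fun ε hε => by
    obtain ⟨p, hp, h1⟩ := f.2 ε hε
    refine ⟨fun z => p (incl K h z), ?_, fun z => h1 _⟩
    clear h1
    induction hp using Algebra.adjoin_induction with
    | mem x hx =>
      rcases hx with rfl | rfl
      exacts [Algebra.subset_adjoin (Or.inl rfl), Algebra.subset_adjoin (Or.inr rfl)]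
    | algebraMap c => exact (Lau K r).algebraMap_mem c
    | add x y _ _ hx hy => exact add_mem hx hy
    | mul x y _ _ hx hy => exact mul_mem hx hy⟩
  map_one' := rfl
  map_mul' _ _ := rfl
  map_zero' := rfl
  map_add' _ _ := rfl
  commutes' _ := rfl

/-- an analytic map from the multiplicative group to X: a compatible family of K-morphisms
from the spectra of the algebras of the closed annuli -/
structure AnMap (X : Over (Spec (.of K))) where
  map : ∀ r : ℝ, Spec (.of (An K r)) ⟶ X.left
  comm : ∀ r, map r ≫ X.hom = Spec.map (CommRingCat.ofHom (algebraMap K (An K r)))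
  compat : ∀ r s (h : r ≤ s),
    Spec.map (CommRingCat.ofHom (res K h).toRingHom) ≫ map s = map r

end Analytic

section Canonical

variable (K F : Type u) [Field K] [Field F] [Algebra K F]

/-- rational k-canonical forms of the function field F -/
abbrev Pluri (k : ℕ) : Type u :=
  ⨂[F] _ : Fin k, ⋀[F]^(Module.finrank F Ω[F⁄K]) Ω[F⁄K]

variable {F} in
/-- the form lies in the O-module spanned by the products of k forms da_1 ∧ ... ∧ da_n
with all a_j in O -/
def RegAt (O : ValuationSubring F) {k : ℕ} (θ : Pluri K F k) : Prop :=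
  θ ∈ AddSubgroup.closure {η | ∃ (c : F) (a : Fin k → Fin (Module.finrank F Ω[F⁄K]) → F),
    c ∈ O ∧ (∀ i j, a i j ∈ O) ∧ η = c • PiTensorProduct.tprod F fun i =>
      exteriorPower.ιMulti F _ fun j => KaehlerDifferential.D K F (a i j)}

/-- the function field F is of general type over K -/
def GenType : Prop :=
  ∃ (k : ℕ) (θ : Pluri K F k) (S : Finset F), 0 < k ∧ θ ≠ 0 ∧
    (∀ O : ValuationSubring F, (∀ c : K, algebraMap K F c ∈ O) →
      RegAt K O θ ∧ ∀ φ ∈ S, RegAt K O (φ • θ)) ∧
    Algebra.IsAlgebraic (IntermediateField.adjoin K (S : Set F)) F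

end Canonical

/-- the K-algebra structure of the residue field of a point of a K-scheme -/
abbrev resAlg {K : Type u} [Field K] (X : Over (Spec (.of K))) (x : X.left) :
    Algebra K (X.left.residueField x) :=
  (Spec.preimage (X.left.fromSpecResidueField x ≫ X.hom)).hom.toAlgebra

end

end Pool.Agent.Lib.MP_7b66ee_ag
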