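import Pool.Agent.Lib.MP_7b66ee_ag.Grp

/-! Construction of the frame. -/

namespace Pool.Agent.Lib.MP_7b66ee_ag

open AlgebraicGeometry CategoryTheory TrivSqZeroExt Algebra

universe u

noncomputable section

lemma der_ext {K S T : Type*} [CommRing K] [CommRing S] [CommRing T] [Algebra K S] [Algebra K T]
    [Algebra S T] [IsScalarTower K S T] [FormallyEtale S T] {d d' : Derivation K T T}
    (h : ∀ s, d (algebraMap S T s) = d' (algebraMap S T s)) : d = d' := by
  refine (KaehlerDifferential.linearMapEquivDerivation K T).symm.injective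
    ((KaehlerDifferential.isBaseChange_of_formallyEtale K S T).algHom_ext _ _ fun ω => ?_)
  induction (KaehlerDifferential.span_range_derivation K S ▸ Submodule.mem_top :
    ω ∈ Submodule.span _ _) using Submodule.span_induction with
  | mem _ hx => obtain ⟨s, rfl⟩ := hx; simpa using h s
  | zero => simp only [map_zero]
  | add _ _ _ _ a b => simp only [map_add, a, b]
  | smul c _ _ a => simp only [map_smul, LinearMap.map_smul_of_tower, a]

section

variable {K : Type u} [Field K] {A : Over (Spec (.of K))} [GrpObj A] {At : Atlas A} (Λ : Lie At)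
  {F : Type u} [Field F] [Algebra K F] {γ : Pt A F} {j : At.J} {α : At.C j →ₐ[K] F}
  {L : Type u} [Field L] [Algebra K L]

lemma Gen.alg (hg : Gen γ) (hα : pm α (At.u j) = γ) [Algebra F L] [IsScalarTower K F L]
    [FiniteDimensional F L] :
    Algebra.IsAlgebraic ((IsScalarTower.toAlgHom K F L).comp α).range L := ⟨fun x => by
  have := hg.frac hα
  have := IsLocalization.isAlgebraic F (nonZeroDivisors α.range)
  have := Algebra.IsAlgebraic.trans α.range F L
  exact (Algebra.IsAlgebraic.isAlgebraic (R := α.range) x).ringHom_of_comp_eq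
    (((IsScalarTower.toAlgHom K F L).comp α.range.val).codRestrict
      ((IsScalarTower.toAlgHom K F L).comp α).range fun ⟨_, s, rfl⟩ => ⟨s, rfl⟩)
    (RingHom.id L) (fun p q h => Subtype.ext ((algebraMap F L).injective
      (congrArg Subtype.val h))) rfl⟩

omit [GrpObj A] in
lemma exists_dual (a : At.C j →ₐ[K] L) (δ : Derivation K L L) :
    ∃ R : Subalgebra K L, FiniteType K R ∧ ∃ β : At.C j →ₐ[K] DualNumber R,
      ∀ s, ((β s).fst : L) = a s ∧ ((β s).snd : L) = δ (a s) := by
  classical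
  obtain ⟨S, hS⟩ := FiniteType.out (R := K) (A := At.C j)
  let R := adjoin K ((S.image a ∪ S.image fun s => δ (a s) : Finset L) : Set L)
  have hR : ∀ s, a s ∈ R ∧ δ (a s) ∈ R := fun s => by
    induction (hS ▸ Algebra.mem_top : s ∈ adjoin K (S : Set _)) using adjoin_induction with
    | mem s hs => exact ⟨subset_adjoin (by simp; exact Or.inl ⟨s, hs, rfl⟩),
        subset_adjoin (by simp; exact Or.inr ⟨s, hs, rfl⟩)⟩
    | algebraMap c => simp
    | add _ _ _ _ p q => simpa using ⟨add_mem p.1 q.1, add_mem p.2 q.2⟩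
    | mul _ _ _ _ p q => simpa using ⟨mul_mem p.1 q.1, add_mem (mul_mem p.1 q.2) (mul_mem q.1 p.2)⟩
  exact ⟨R, (Subalgebra.fg_iff_finiteType _).1 ⟨_, rfl⟩, mkT (a.codRestrict R fun s => (hR s).1)
    ((δ.toLinearMap ∘ₗ a.toLinearMap).codRestrict R.toSubmodule fun s => (hR s).2)
    (Subtype.ext ((congrArg δ (map_one a)).trans δ.map_one_eq_zero))
    fun p q => Subtype.ext ((congrArg δ (map_mul a p q)).trans (δ.leibniz _ _)),
    fun s => ⟨rfl, rfl⟩⟩

lemma Lie.spans [IsAlgClosed K] (hg : Gen γ) {y : Pt A K} (hy : ∀ j α, pm α (At.u j) = γ →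
    ∀ χ : At.C j →ₐ[K] K, (∀ s, α s = 0 → χ s = 0) → y⁻¹ * pm χ (At.u j) ∈ hg.stab)
    (hα : pm α (At.u j) = γ) (e : F →ₐ[K] L) (δ : Derivation K L L) :
    ∃ (μ : Fin Λ.m → L) (k : Fin Λ.m → Λ.H γ),
      ∀ s, δ (e (α s)) = ∑ i, μ i * e (α (Λ.vf j (k i).1 s)) := by
  classical
  obtain ⟨R, _, β, hβ⟩ := exists_dual (e.comp α) δ
  obtain ⟨μ, hμ⟩ := Λ.sur R (pm β (At.u j))
  replace hμ := (Λ.uf R j β μ).1 hμ
  have mem : ∀ χ : R →ₐ[K] K, (fun i => χ (μ i)) ∈ Λ.H γ := fun χ =>
    Λ.mem_H hg hy hα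
      (mkT (χ.comp ((fstHom K R R).comp β)) (χ.toLinearMap ∘ₗ (sndHom R R).restrictScalars K ∘ₗ
        β.toLinearMap) (by
          change χ (β 1).snd = 0
          rw [map_one, snd_one, map_zero]) fun p q => by
          change χ (β (p * q)).snd = χ (β p).fst * χ (β q).snd + χ (β q).fst * χ (β p).snd
          rw [map_mul, DualNumber.snd_mul, map_add, map_mul, map_mul, mul_comm (χ (β p).snd)])
      (fun s hs => by
        have h0 : e.comp α s = 0 := (congrArg e hs).trans (map_zero e)
        exact TrivSqZeroExt.ext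
          ((congrArg χ (Subtype.ext ((hβ s).1.trans h0))).trans (map_zero χ))
          ((congrArg χ (Subtype.ext ((hβ s).2.trans ((congrArg δ h0).trans (map_zero δ))))).trans
            (map_zero χ)))
      fun s => (congrArg χ (hμ s)).trans ((map_sum χ _ _).trans
        (Finset.sum_congr rfl fun i _ => map_mul χ _ _))
  obtain ⟨P, hP⟩ := (Λ.H γ).subtype.exists_leftInverse_of_injective (Submodule.ker_subtype _)
  have hμ' : ∀ i, μ i = ∑ k, μ k * algebraMap K R ((P (Pi.single k 1)).1 i) := fun i =>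
    sub_eq_zero.1 (jac (K := K) fun χ => by
      have := congrArg (fun x : Λ.H γ => x.1 i) (DFunLike.congr_fun hP ⟨_, mem χ⟩)
      change (P _).1 i = χ (μ i) at this
      rw [LinearMap.pi_apply_eq_sum_univ] at this
      simp [← this, ← Pi.single_apply, Pi.single_comm])
  refine ⟨fun k => μ k, fun k => P (Pi.single k 1), fun s => ?_⟩
  have h1 := congrArg R.val (hμ s)
  rw [map_sum] at h1
  refine ((hβ s).2.symm.trans h1).trans ?_
  have h2 := fun k => Λ.vf_ap (e.comp α) (P (Pi.single k 1)).1 s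
  simp only [AlgHom.comp_apply] at h2
  simp only [h2, Finset.mul_sum]
  rw [Finset.sum_comm]
  refine Finset.sum_congr rfl fun i _ => ?_
  rw [map_mul, hμ' i, map_sum, Finset.mul_sum]
  refine Finset.sum_congr rfl fun k _ => ?_
  rw [map_mul, AlgHom.commutes, mul_left_comm]
  exact congrArg (_ * ·) (congrArg (· * _) (hβ _).1)

end

variable {K : Type u} [NontriviallyNormedField K] [IsAlgClosed K] [CharZero K]
  {A : Over (Spec (.of K))} [GrpObj A] [IsProper A.hom]
  {F : Type u} [Field F] [Algebra K F] {γ : Pt A F} {E : Type u} [Field E] [Algebra K E]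
  (N : Nev K E)

theorem exists_frame (hg : Gen γ) {L : Type u} [Field L] [Algebra K L] [Algebra F L]
    [IsScalarTower K F L] [FiniteDimensional F L] (ι : L →ₐ[K] E) :
    ∃ Φ : Frame K L, (∀ j (s : Φ.A j), N.D (ι s) = ι (Φ.v j s)) ∧ EssFiniteType K L ∧
      ∀ δ : Derivation K L L, δ ∈ Submodule.span L
        {d : Derivation K L L | ∀ j, ∀ a ∈ Φ.A j, d a ∈ Φ.A j} := by
  classical
  obtain ⟨At⟩ := exists_atlas (A := A)
  obtain ⟨Λ⟩ := exists_lie At
  let e := IsScalarTower.toAlgHom K F L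
  obtain ⟨l, hl⟩ := exists_ode Λ N (ι.comp e) γ
  obtain ⟨y, hy⟩ := exists_base Λ N (ι.comp e) hg hl
  let J := {j // ∃ α, pm α (At.u j) = γ}
  choose α hα using fun j : J => j.2
  let a := fun j : J => e.comp (α j)
  have ha : ∀ j, pm (a j) (At.u j.1) = pm e γ := fun j => by rw [← pm_pm, hα]
  have hD : ∀ j s, N.D (ι (a j s)) = ι (a j (Λ.vf j.1 l s)) := fun j =>
    hl 1 j.1 (ι.comp (a j)) (by rw [← pm_pm, ha, pm_pm, map_one, mul_one])
  have der : ∀ j k, (∀ s, a j s = 0 → a j (Λ.vf j.1 k s) = 0) → ∃ v : Derivation K (a j).range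
      (a j).range, ∀ s, v ((a j).rangeRestrict s) = (a j).rangeRestrict (Λ.vf j.1 k s) :=
    fun j k h => ⟨_, Derivation.liftOfSurjective_apply (a j).rangeRestrict_surjective
      fun s hs => Subtype.ext (h s (congrArg Subtype.val hs))⟩
  choose v hv using fun j => der j l fun s hs => by simpa [hs] using (hD j s).symm
  have ft := fun j => FiniteType.of_surjective _ (a j).rangeRestrict_surjective
  have alg : ∀ j, Algebra.IsAlgebraic (a j).range L := fun j => hg.alg (hα j)
  obtain ⟨j0, α0, h0, -⟩ := chart (At := At) γ ⊤ fun _ => trivial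
  obtain ⟨j⟩ : Nonempty J := ⟨⟨j0, α0, h0⟩⟩
  have := etale (a j).range
  refine ⟨⟨J, inferInstance, fun j => (a j).range, ft, alg, fun O hO => ?_, v, fun j I hI => ?_⟩,
    ?_, ?_, fun δ => ?_⟩
  · obtain ⟨j, β, h1, h2⟩ := chart (At := At) γ (O.comap e) fun c => by
      change e _ ∈ O; rw [e.commutes]; exact hO c
    refine ⟨⟨j, β, h1⟩, ?_⟩
    rintro _ ⟨s, rfl⟩
    rw [At.inj (h1.trans (hα ⟨j, β, h1⟩).symm)] at h2
    exact h2 s
  · refine or_iff_not_imp_right.2 fun h => (Submodule.eq_bot_iff _).2 fun x hx => ?_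
    obtain ⟨m, hm, h1⟩ := I.exists_le_maximal h
    obtain ⟨χ, hχ⟩ := kpt_max (K := K) m
    obtain ⟨s, rfl⟩ := (a j).rangeRestrict_surjective x
    have hs : ∀ i, (a j).rangeRestrict ((Λ.vf j.1 l)^[i] s) ∈ I := fun i => by
      induction i with
      | zero => exact hx
      | succ i ih => rw [Function.iterate_succ_apply', ← hv]; exact hI _ ih
    exact Subtype.ext ((congrArg e ((hy j.1 _ (hα j) (χ.comp (a j).rangeRestrict) fun s hs => by
      rw [AlgHom.comp_apply, show (a j).rangeRestrict s = 0 from Subtype.ext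
        ((congrArg e hs).trans (map_zero e)), map_zero]).2 s
          fun i => (hχ _).2 (h1 (hs i)))).trans (map_zero e))
  · rintro j ⟨_, s, rfl⟩
    exact (hD j s).trans (congrArg (fun x : (a j).range => ι x) (hv j s).symm)
  · have := hg.frac (hα j)
    have := FiniteType.of_surjective _ (α j).rangeRestrict_surjective
    have := EssFiniteType.of_isLocalization F (nonZeroDivisors (α j).range)
    have := EssFiniteType.comp K (α j).range F
    exact EssFiniteType.comp K F L
  have ex : ∀ k : Λ.H γ, ∃ d : Derivation K L L,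
      ∀ (i : J) s, d (a i s) = a i (Λ.vf i.1 k.1 s) := fun k => by
    obtain ⟨w, hw⟩ := der j k.1 fun s hs => (congrArg e (k.2 j.1 _ (hα j) s
      ((map_eq_zero e).1 hs))).trans (map_zero e)
    obtain ⟨d, hd⟩ := ext_der K (a j).range L ((Algebra.linearMap _ L).compDer w)
    refine ⟨d, fun i s => ?_⟩
    have := (Λ.uf' (a j) (AlgHom.id K L) d fun n => algebraMap K L (k.1 n)).2 fun s =>
      ((hd ((a j).rangeRestrict s)).trans (congrArg Subtype.val (hw s))).trans
        (Λ.vf_ap (a j) _ _)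
    rw [ha, ← ha i] at this
    exact ((Λ.uf' _ _ _ _).1 this s).trans (Λ.vf_ap (a i) _ _).symm
  choose d hd using ex
  obtain ⟨μ, k, h⟩ := Λ.spans hg (fun j α h χ k => (hy j α h χ k).1) (hα j) e δ
  rw [show δ = ∑ i, μ i • d (k i) from der_ext (S := (a j).range) fun ⟨_, s, rfl⟩ =>
    (h s).trans ((Finset.sum_congr rfl fun i _ => congrArg (μ i * ·) (hd (k i) j s).symm).trans
      (sum_ap _ (fun i => μ i • d (k i)) _).symm)]
  refine Submodule.sum_mem _ fun i _ => Submodule.smul_mem _ _ (Submodule.subset_span ?_)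
  rintro i _ ⟨s, rfl⟩
  exact ⟨_, (hd _ i s).symm⟩

end

end Pool.Agent.Lib.MP_7b66ee_ag
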