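import Pool.Agent.Lib.MP_7b66ee_ag.Lie
import Pool.Agent.Lib.MP_7b66ee_ag.Core

/-! The frame on the Zariski closure of an analytic curve in a proper group scheme. -/

namespace Pool.Agent.Lib.MP_7b66ee_ag

open AlgebraicGeometry CategoryTheory TrivSqZeroExt Algebra

universe u

noncomputable section

section

variable {K : Type u} [Field K] {A : Over (Spec (.of K))} [GrpObj A] {At : Atlas A} (Λ : Lie At)
  {F : Type u} [Field F] [Algebra K F] {γ : Pt A F} {j : At.J}

lemma pm_of {R S : Type u} [CommRing R] [Algebra K R] [CommRing S] [Algebra K S] (φ : R →ₐ[K] S)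
    (ψ : K →ₐ[K] R) (h : Pt A K) : pm φ (pm ψ h) = pm (ofId K S) h := by
  rw [pm_pm, Subsingleton.elim (φ.comp ψ)]

/-- the coordinates of the point generate the field -/
def Gen (γ : Pt A F) : Prop := ∀ F0 : IntermediateField K F, (∃ x, pm F0.val x = γ) → F0 = ⊤

lemma Gen.mul (hg : Gen γ) (h : Pt A K) : Gen (γ * pm (ofId K F) h) := fun F0 ⟨x, hx⟩ =>
  hg F0 ⟨x * (pm (ofId K F0) h)⁻¹, by rw [map_mul, map_inv, hx, pm_of, mul_inv_cancel_right]⟩

lemma Gen.frac (hg : Gen γ) {α : At.C j →ₐ[K] F} (hα : pm α (At.u j) = γ) :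
    IsFractionRing α.range F := IsFractionRing.of_field _ _ fun z => by
  have := hg (IntermediateField.adjoin K α.range) ⟨pm (α.codRestrict
    (IntermediateField.adjoin K (α.range : Set F)).toSubalgebra fun s =>
      IntermediateField.subset_adjoin _ _ ⟨s, rfl⟩) (At.u j), (pm_pm _ _ _).trans hα⟩
  obtain ⟨a, ha, b, hb, rfl⟩ := IntermediateField.mem_adjoin_iff_div.1
    (this ▸ IntermediateField.mem_top : z ∈ IntermediateField.adjoin K (α.range : Set F))
  rw [Algebra.adjoin_eq] at ha hb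
  exact ⟨⟨a, ha⟩, ⟨b, hb⟩, rfl⟩

/-- the translations preserving the closure of the point -/
def Gen.stab (hg : Gen γ) : Subgroup (Pt A K) where
  carrier := {h | ∃ τ : F →ₐ[K] F, pm τ γ = γ * pm (ofId K F) h}
  mul_mem' := fun ⟨σ, h1⟩ ⟨τ, h2⟩ => ⟨σ.comp τ, by
    rw [← pm_pm, h2, map_mul, h1, pm_of, map_mul, mul_assoc]⟩
  one_mem' := ⟨AlgHom.id K F, by rw [pm_id, map_one, mul_one]⟩
  inv_mem' := fun {h} ⟨τ, h1⟩ => by
    have := hg.mul h τ.fieldRange ⟨pm τ.rangeRestrict γ, (pm_pm _ _ _).trans h1⟩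
    let e := AlgEquiv.ofBijective τ ⟨τ.injective, AlgHom.fieldRange_eq_top.1 this⟩
    refine ⟨e.symm, ?_⟩
    rw [map_inv, eq_mul_inv_iff_mul_eq, ← pm_of (e.symm : F →ₐ[K] F) (ofId K F), ← map_mul, ← h1,
      pm_pm]
    rw [show (e.symm : F →ₐ[K] F).comp τ = .id K F from AlgHom.ext e.symm_apply_apply, pm_id]

lemma Gen.tau (hg : Gen γ) {α β : At.C j →ₐ[K] F} (hα : pm α (At.u j) = γ) {h : Pt A K}
    (hβ : pm β (At.u j) = γ * pm (ofId K F) h) (hk : ∀ s, α s = 0 → β s = 0) :
    ∃ τ : F →ₐ[K] F, τ.comp α = β := by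
  have := hg.frac hα
  have := (hg.mul h).frac hβ
  have := FiniteType.of_surjective _ α.rangeRestrict_surjective
  let φ := α.rangeRestrict.liftOfSurjective α.rangeRestrict_surjective β.rangeRestrict
    fun s hs => Subtype.ext (hk s (congrArg Subtype.val hs))
  have e : ∀ s, φ (α.rangeRestrict s) = β.rangeRestrict s := fun s =>
    AlgHom.liftOfSurjective_apply _ _ _ _ s
  have tr : ∀ (B : Subalgebra K F) [IsFractionRing B F], trdeg K B = trdeg K F := fun B _ => by
    have := IsLocalization.isAlgebraic F (nonZeroDivisors B)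
    rw [← trdeg_add_eq K B (A := F), trdeg_eq_zero (R := B), add_zero]
  have inj : Function.Injective φ := by
    by_contra hc
    have := trdeg_drop φ (fun ⟨_, s, rfl⟩ => ⟨_, e s⟩) hc
    rw [tr, tr] at this
    exact lt_irrefl _ this
  refine ⟨IsFractionRing.liftAlgHom (g := β.range.val.comp φ) (Subtype.val_injective.comp inj),
    AlgHom.ext fun s => ?_⟩
  rw [AlgHom.comp_apply, IsFractionRing.liftAlgHom_apply,
    show α s = algebraMap α.range F (α.rangeRestrict s) from rfl, IsFractionRing.lift_algebraMap]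
  exact congrArg Subtype.val (e s)

lemma sum_ap {R S ι : Type*} [CommRing R] [CommRing S] [Algebra R S] (T : Finset ι)
    (d : ι → Derivation R S S) (s : S) : (∑ i ∈ T, d i) s = ∑ i ∈ T, d i s := by
  induction T using Finset.cons_induction with
  | empty => rfl
  | cons a T h ih => rw [Finset.sum_cons, Finset.sum_cons, Derivation.add_apply, ih]

/-- the invariant vector field with coordinates l -/
def Lie.vf (j) (l : Fin Λ.m → K) : Derivation K (At.C j) (At.C j) := ∑ i, l i • Λ.v j i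

lemma Lie.vf_ap {S : Type u} [CommRing S] [Algebra K S] (χ : At.C j →ₐ[K] S) (l : Fin Λ.m → K)
    (s) : χ (Λ.vf j l s) = ∑ i, χ (Λ.v j i s) * algebraMap K S (l i) := by
  simp [Lie.vf, sum_ap, Algebra.smul_def, mul_comm]

variable (γ) in
/-- the invariant vector fields tangent to the closure of the point -/
def Lie.H : Submodule K (Fin Λ.m → K) where
  carrier := {l | ∀ j α, pm α (At.u j) = γ → ∀ s, α s = 0 → α (Λ.vf j l s) = 0}
  add_mem' := fun a b j α h s hs => by
    simpa [Lie.vf_ap, mul_add, Finset.sum_add_distrib] using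
      congrArg₂ (· + ·) (a j α h s hs) (b j α h s hs)
  zero_mem' := fun j α h s hs => by simp [Lie.vf_ap]
  smul_mem' := fun c l a j α h s hs => by
    simpa [Lie.vf_ap, Finset.mul_sum, mul_left_comm] using
      congrArg (algebraMap K F c * ·) (a j α h s hs)

lemma Lie.uf' {S T : Type u} [CommRing S] [Algebra K S] [CommRing T] [Algebra K T]
    (α : At.C j →ₐ[K] S) (ι : S →ₐ[K] T) (D : Derivation K T T) (l : Fin Λ.m → T) :
    pm (dual ι D) (pm α (At.u j)) = cv Λ.W l * pm (inlAlgHom K T T) (pm ι (pm α (At.u j))) ↔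
      ∀ s, D (ι (α s)) = ∑ i, ι (α (Λ.v j i s)) * l i := by
  have := Λ.uf T j ((dual ι D).comp α) l
  rwa [← pm_pm, pm_pm (dual ι D)] at this

variable [IsAlgClosed K]

lemma Lie.mem_H (hg : Gen γ) {y : Pt A K} (hy : ∀ j α, pm α (At.u j) = γ →
    ∀ χ : At.C j →ₐ[K] K, (∀ s, α s = 0 → χ s = 0) → y⁻¹ * pm χ (At.u j) ∈ hg.stab)
    {α : At.C j →ₐ[K] F} (hα : pm α (At.u j) = γ) (β : At.C j →ₐ[K] DualNumber K)
    (hk : ∀ s, α s = 0 → β s = 0) {l : Fin Λ.m → K}
    (hl : ∀ s, (β s).snd = ∑ i, (β (Λ.v j i s)).fst * l i) : l ∈ Λ.H γ := by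
  intro j' α' hα' s hs
  have := hg.frac hα
  have := FiniteType.of_surjective _ α'.rangeRestrict_surjective
  refine congrArg Subtype.val (jac (K := K) (x := α'.rangeRestrict (Λ.vf j' l s)) fun χ => ?_)
  let b := α.rangeRestrict.liftOfSurjective α.rangeRestrict_surjective β
    fun s hs => hk s (congrArg Subtype.val hs)
  let m := RingHom.ker ((fstHom K K K).comp b)
  have : m.IsPrime := RingHom.ker_isPrime _
  let O := Localization.subalgebra.ofField F m.primeCompl m.primeCompl_le_nonZeroDivisors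
  let c : O →ₐ[K] DualNumber K := IsLocalization.liftAlgHom (M := m.primeCompl) (f := b)
    fun x => isUnit_iff_isUnit_fst.2 (Ne.isUnit x.2)
  have c1 : ∀ x, c (algebraMap _ O x) = b x := fun x => IsLocalization.lift_eq _ x
  let a := (IsScalarTower.toAlgHom K _ O).comp α.rangeRestrict
  have c2 : c.comp a = β := AlgHom.ext fun s =>
    (c1 _).trans (AlgHom.liftOfSurjective_apply _ _ _ _ s)
  have h1 := hy j α hα ((fstHom K K K).comp β) fun s hs => by simp [hk s hs]
  have h2 := hy j' α' hα' (χ.comp α'.rangeRestrict) fun s hs => by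
    rw [AlgHom.comp_apply, show α'.rangeRestrict s = 0 from Subtype.ext hs, map_zero]
  have h3 := mul_mem (inv_mem h1) h2
  rw [mul_inv_rev, inv_inv, mul_assoc, mul_inv_cancel_left] at h3
  set h := (pm ((fstHom K K K).comp β) (At.u j))⁻¹ * pm (χ.comp α'.rangeRestrict) (At.u j')
    with hh
  obtain ⟨τ, hτ⟩ := h3
  obtain ⟨η, e1, e2⟩ := At.opn_surj ((fstHom K K K).comp c) (fun x => ⟨algebraMap K _ x, by simp⟩)
    (fun x hx => by
      obtain ⟨⟨p, q⟩, rfl⟩ := IsLocalization.mk'_surjective m.primeCompl x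
      refine (IsLocalization.AtPrime.isUnit_mk'_iff O m p q).2 fun hp => q.2 ?_
      have := congrArg ((fstHom K K K).comp c) (IsLocalization.mk'_spec O p q)
      rw [map_mul, hx, one_mul, AlgHom.comp_apply, AlgHom.comp_apply, c1, c1] at this
      exact this.trans hp)
    (x := pm a (At.u j) * pm (ofId K O) h) (β := χ.comp α'.rangeRestrict) (by
      rw [map_mul, pm_of, pm_pm, AlgHom.comp_assoc, c2, Subsingleton.elim (ofId K K) (.id K K),
        pm_id, hh, mul_inv_cancel_left])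
  have e3 : (IsScalarTower.toAlgHom K O F).comp η = τ.comp α' := At.inj (by
    rw [← pm_pm, ← pm_pm, e1, hα', hτ, map_mul, pm_of, pm_pm, ← hα]; rfl)
  have e4 : η s = 0 := Subtype.ext (by simpa [hs] using DFunLike.congr_fun e3 s)
  have e5 : pm (c.comp η) (At.u j') = pm β (At.u j) * pm (ofId K _) h := by
    rw [← pm_pm, e1, map_mul, pm_of, pm_pm, c2]
  have := (Λ.uf K j' (c.comp η) l).1 (by
    rw [e5, map_mul (pm (fstHom K K K)), map_mul (pm (inlAlgHom K K K)), pm_of, pm_of, ← mul_assoc,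
      ← (Λ.uf K j β l).2 hl]) s
  rw [AlgHom.comp_apply, e4, map_zero] at this
  rw [← AlgHom.comp_apply, ← e2, Lie.vf_ap]
  exact this.symm

end

variable {K : Type u} [NontriviallyNormedField K] [IsAlgClosed K] [CharZero K]
  {A : Over (Spec (.of K))} [GrpObj A] [IsProper A.hom] {At : Atlas A} (Λ : Lie At)
  {F : Type u} [Field F] [Algebra K F] {γ : Pt A F} {E : Type u} [Field E] [Algebra K E]
  (N : Nev K E) (ι : F →ₐ[K] E)

omit [IsAlgClosed K] [CharZero K] in
lemma chart (γ : Pt A F) (O : ValuationSubring F) (h : ∀ c, algebraMap K F c ∈ O) :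
    ∃ j α, pm α (At.u j) = γ ∧ ∀ s, α s ∈ O := by
  let O' : Subalgebra K F := { O.toSubring with algebraMap_mem' := h }
  have : IsLocalRing O' := inferInstanceAs (IsLocalRing O)
  obtain ⟨x, hx⟩ := val_lift O' O.mem_or_inv_mem γ
  obtain ⟨j, α, hα⟩ := At.loc x
  exact ⟨j, O'.val.comp α, by rw [← pm_pm, hα, hx], fun s => (α s).2⟩

omit [CharZero K] in
lemma exists_ode (γ : Pt A F) : ∃ l : Fin Λ.m → K, ∀ (h : Pt A K) j (β : At.C j →ₐ[K] E),
    pm β (At.u j) = pm ι γ * pm (ofId K E) h → ∀ s, N.D (β s) = β (Λ.vf j l s) := by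
  obtain ⟨μ, hμ⟩ := Λ.sur E (pm (dual ι N.D) γ)
  rw [pm_pm (dual ι N.D)] at hμ
  change _ = _ * pm _ (pm ι γ) at hμ
  choose l hl using fun i => N.const (x := μ i) fun O h1 h2 => by
    obtain ⟨j, α, rfl, hα⟩ := chart (At := At) γ (O.comap ι) fun c => by
      change ι _ ∈ O; rw [ι.commutes]; exact h1 c
    have key : ∀ w : Fin Λ.m → At.C j, ∑ k, ι (α (w k)) * μ k ∈ O := fun w => by
      induction (Λ.span j ▸ Submodule.mem_top : w ∈ Submodule.span _ _)
        using Submodule.span_induction with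
      | mem _ h =>
        obtain ⟨y, rfl⟩ := h
        rw [← (Λ.uf' α ι N.D μ).1 hμ]
        exact h2 _ (hα y)
      | zero => simp
      | add _ _ _ _ a b => simpa [add_mul, Finset.sum_add_distrib] using add_mem a b
      | smul c _ _ a => simpa [Finset.mul_sum, mul_assoc] using O.mul_mem _ _ (hα c) a
    simpa [Pi.single_apply, apply_ite] using key (Pi.single i 1)
  refine ⟨l, fun h j β hβ s => ?_⟩
  have := (Λ.uf' β (AlgHom.id K E) N.D μ).1 (by
    rw [pm_id, hβ, map_mul, map_mul, pm_of, pm_of, ← mul_assoc, ← hμ, pm_pm]; rfl) s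
  simpa [Lie.vf_ap, hl] using this

omit [IsAlgClosed K] in
lemma exists_base (hg : Gen γ) {l : Fin Λ.m → K} (hl : ∀ (h : Pt A K) j (β : At.C j →ₐ[K] E),
    pm β (At.u j) = pm ι γ * pm (ofId K E) h → ∀ s, N.D (β s) = β (Λ.vf j l s)) :
    ∃ y : Pt A K, ∀ j α, pm α (At.u j) = γ → ∀ χ : At.C j →ₐ[K] K, (∀ s, α s = 0 → χ s = 0) →
      y⁻¹ * pm χ (At.u j) ∈ hg.stab ∧ ∀ s, (∀ i, χ ((Λ.vf j l)^[i] s) = 0) → α s = 0 := by
  let a := N.a 0 (N.b 0)
  let V : Subalgebra K E := { a.valuationSubring.toSubring with algebraMap_mem' := N.aK 0 _ }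
  have a1 : ∀ x : V, a.comap (algebraMap V E) x ≤ 1 := fun x => x.2
  obtain ⟨ρ, hρ⟩ := kpt (K := K) (cen _ a1) (Ideal.IsPrime.ne_top inferInstance)
    fun x => N.res 0 _ x x.2
  obtain ⟨g, hg'⟩ := val_lift V a.valuationSubring.mem_or_inv_mem (pm ι γ)
  refine ⟨pm ρ g, fun j α hα χ hχ => ?_⟩
  obtain ⟨β, e1, e2⟩ := At.opn_surj ρ (fun x => ⟨algebraMap K _ x, by simp⟩)
    (fun x hx => by
      have : a x = 1 := le_antisymm x.2 (not_lt.1 fun h => by simpa [hx] using (hρ x).2 h)
      exact IsUnit.of_mul_eq_one ⟨x.1⁻¹, (by simp [this] : a x.1⁻¹ ≤ 1)⟩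
        (Subtype.ext (mul_inv_cancel₀ fun e => by simp [e] at this)))
    (x := g * pm (ofId K V) ((pm ρ g)⁻¹ * pm χ (At.u j))) (β := χ) (by
      rw [map_mul, pm_of, Subsingleton.elim (ofId K K) (.id K K), pm_id, mul_inv_cancel_left])
  have e3 : pm (V.val.comp β) (At.u j) = pm ι γ * pm (ofId K E) ((pm ρ g)⁻¹ * pm χ (At.u j)) := by
    rw [← pm_pm, e1, map_mul, hg', pm_of]
  have k1 : ∀ s, (∀ i, χ ((Λ.vf j l)^[i] s) = 0) → (β s : E) = 0 := fun s hs =>
    N.eq_zero (N.b 0) fun i => by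
      have : N.D^[i] (β s) = β ((Λ.vf j l)^[i] s) := by
        induction i with
        | zero => rfl
        | succ i ih =>
          rw [Function.iterate_succ_apply', Function.iterate_succ_apply', ih]
          exact hl _ j _ e3 _
      rw [this]
      exact (hρ _).1 (by rw [← AlgHom.comp_apply, e2, hs])
  obtain ⟨β', e4, e5⟩ := At.opn_field ι (x := γ * pm (ofId K F) ((pm ρ g)⁻¹ * pm χ (At.u j)))
    (β := V.val.comp β) (by rw [e3, map_mul (pm ι), pm_of])
  have k2 : ∀ s, (β s : E) = ι (β' s) := fun s => (DFunLike.congr_fun e5 s).symm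
  obtain ⟨τ, hτ⟩ := hg.tau hα e4 fun s hs => (map_eq_zero ι).1 ((k2 s).symm.trans
    (k1 s fun i => hχ _ (by
      induction i with
      | zero => exact hs
      | succ i ih =>
        have := hl 1 j (ι.comp α) (by rw [← pm_pm, hα, map_one, mul_one]) ((Λ.vf j l)^[i] s)
        rw [Function.iterate_succ_apply']
        simpa [ih] using this.symm)))
  refine ⟨⟨τ, by rw [← e4, ← hτ, ← pm_pm, hα]⟩, fun s hs => ?_⟩
  simpa [k2, ← hτ] using k1 s hs

lemma etale {K L : Type u} [Field K] [CharZero K] [Field L] [Algebra K L] (B : Subalgebra K L)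
    [Algebra.IsAlgebraic B L] : FormallyEtale B L := by
  let := FractionRing.liftAlgebra B L
  have := FormallyEtale.of_isLocalization (Rₘ := FractionRing B) (nonZeroDivisors B)
  have : Algebra.IsAlgebraic (FractionRing B) L := .extendScalars (IsFractionRing.injective B _)
  have : CharZero (FractionRing B) :=
    charZero_of_injective_algebraMap (algebraMap K _).injective
  have := FormallyEtale.of_isSeparable (FractionRing B) L
  exact .comp B (FractionRing B) L

end

end Pool.Agent.Lib.MP_7b66ee_ag
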