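import Pool.Agent.Lib.MP_7b66ee_ag.AnC

/-! Heights attached to value distribution data. -/

namespace Pool.Agent.Lib.MP_7b66ee_ag

open Filter WithZero
open scoped NNReal

universe u

noncomputable section

lemma val_int (Γ : Type*) [LinearOrderedCommGroupWithZero Γ] {R L : Type*} [CommRing R] [Field L]
    [Algebra R L] {x : L} (hx : IsIntegral R x) : ∃ T : Finset R, ∀ (a : Valuation L Γ) (γ : Γ),
      1 ≤ γ → (∀ c ∈ T, a (algebraMap R L c) ≤ γ) → a x ≤ γ := by
  classical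
  obtain ⟨Q, hQ, h0⟩ := hx
  refine ⟨(Finset.range Q.natDegree).image Q.coeff, fun a γ h1 h => not_lt.1 fun hc => ?_⟩
  have x0 : 0 < a x := (zero_lt_one.trans_le h1).trans hc
  rw [Polynomial.eval₂_eq_sum_range, Finset.sum_range_succ, hQ.coeff_natDegree, map_one, one_mul,
    add_eq_zero_iff_neg_eq] at h0
  refine lt_irrefl (a (x ^ Q.natDegree)) ?_
  conv_lhs => rw [← h0, a.map_neg]
  refine a.map_sum_lt (by simp [x0.ne']) fun i hi => ?_
  rw [map_mul, map_pow, map_pow]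
  calc _ < a x * a x ^ i := mul_lt_mul_of_pos_right
        ((h _ (Finset.mem_image_of_mem _ hi)).trans_lt hc) (pow_pos x0 _)
    _ ≤ _ := by
      rw [← pow_succ']; exact pow_le_pow_right₀ (h1.trans hc.le) (Finset.mem_range.1 hi)

lemma val_int_one {Γ : Type*} [LinearOrderedCommGroupWithZero Γ] {R L : Type*} [CommRing R]
    [Field L] [Algebra R L] {x : L} (hx : IsIntegral R x) (a : Valuation L Γ)
    (h : ∀ c, a (algebraMap R L c) ≤ 1) : a x ≤ 1 :=
  (val_int Γ hx).choose_spec a 1 le_rfl fun c _ => h c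

/-- the centre of a valuation -/
def cen {Γ : Type*} [LinearOrderedCommGroupWithZero Γ] {R : Type*} [CommRing R]
    (a : Valuation R Γ) (h : ∀ x, a x ≤ 1) : Ideal R where
  carrier := {x | a x < 1}
  add_mem' := a.map_add_lt
  zero_mem' := by simp
  smul_mem' := fun c x hx => by
    change a (c * x) < 1
    rw [map_mul]; exact (mul_le_of_le_one_left' (h c)).trans_lt hx

instance {Γ : Type*} [LinearOrderedCommGroupWithZero Γ] {R : Type*} [CommRing R]
    (a : Valuation R Γ) (h : ∀ x, a x ≤ 1) : (cen a h).IsPrime :=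
  ⟨(Ideal.ne_top_iff_one _).2 fun e => (a.map_one.symm.trans_lt e).false,
    fun {x y} e => by
      by_contra hc
      push Not at hc
      change a (x * y) < 1 at e
      rw [map_mul, le_antisymm (h x) (not_lt.1 hc.1), le_antisymm (h y) (not_lt.1 hc.2)] at e
      simp at e⟩

lemma le_exp_neg {x : ℤᵐ⁰} (h : x < 1) : x ≤ exp (-1) :=
  (lt_mul_exp_iff_le exp_ne_zero).1 (by simpa using h)

variable {K E : Type u} [NontriviallyNormedField K] [Field E] [Algebra K E] (N : Nev K E)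

namespace Nev

lemma bdd {x : E} (h : ∀ O : ValuationSubring E, (∀ c, algebraMap K E c ∈ O) →
    (∀ y, N.D y / y ∈ O) → x ∈ O) : ∃ C : ℝ, ∀ n b, (N.gs n b x : ℝ) ≤ C := by
  by_contra hc
  push Not at hc
  choose n b hb using fun m : ℕ => hc m
  let U := Ultrafilter.of (atTop : Filter ℕ)
  obtain ⟨C, hC⟩ := h
    { carrier := {y | ∃ C : ℝ≥0, ∀ᶠ m in U, N.gs (n m) (b m) y ≤ C}
      mul_mem' := fun ⟨C, hC⟩ ⟨D, hD⟩ => ⟨C * D, by
        filter_upwards [hC, hD] with m h1 h2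
        rw [map_mul]; exact mul_le_mul' h1 h2⟩
      one_mem' := ⟨1, .of_forall fun m => by simp⟩
      add_mem' := fun ⟨C, hC⟩ ⟨D, hD⟩ => ⟨max C D, by
        filter_upwards [hC, hD] with m h1 h2
        exact (Valuation.map_add _ _ _).trans (max_le_max h1 h2)⟩
      zero_mem' := ⟨0, .of_forall fun m => by simp⟩
      neg_mem' := fun ⟨C, hC⟩ => ⟨C, by simpa using hC⟩
      mem_or_inv_mem' := fun y => (U.em fun m => N.gs (n m) (b m) y ≤ 1).imp (fun h => ⟨1, h⟩)
        fun h => ⟨1, h.mono fun m hm => by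
          rw [map_inv₀]; exact inv_le_one_of_one_le₀ (not_le.1 hm).le⟩ }
    (fun c => ⟨‖c‖₊, .of_forall fun m => (N.gsK _ _ c).le⟩)
    fun y => ⟨1, .of_forall fun m => by
      rw [map_div₀]; exact div_le_one_of_le₀ (N.gsD _ _ y) zero_le⟩
  obtain ⟨m, h1, h2⟩ := (hC.and ((Ultrafilter.of_le _)
    (tendsto_natCast_atTop_atTop.eventually_ge_atTop (C : ℝ)))).exists
  exact absurd ((hb m).trans_le (NNReal.coe_le_coe.2 h1)) (not_lt.2 h2)

variable {n : ℕ} (p : N.P n)

lemma a_c {c : K} (hc : c ≠ 0) : N.a n p (algebraMap K E c) = 1 := by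
  refine le_antisymm (N.aK n p c) ?_
  simpa [inv_le_one_iff₀, hc] using N.aK n p c⁻¹

lemma aD_split [CharZero K] {x : E} (hx : x ≠ 0) : ∃ y z, N.D x = y + z ∧ N.a n p y ≤ N.a n p x ∧
    (z = 0 ∧ N.a n p x = 1 ∨ N.a n p z = exp 1 * N.a n p x) := by
  obtain ⟨t, h1, h2⟩ := N.unif n p
  have t0 : t ≠ 0 := fun e => by simp [e] at h1; exact exp_ne_zero h1.symm
  have x0 : N.a n p x ≠ 0 := by simpa using hx
  obtain ⟨m, hm⟩ : ∃ m : ℤ, N.a n p x = exp (-m) := ⟨-log (N.a n p x), by simp [x0]⟩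
  have ht : ∀ k : ℤ, N.a n p (t ^ k) = exp (-k) := fun k => by
    rw [map_zpow₀, h1, ← exp_zsmul]; simp
  have hu : N.a n p (x / t ^ m) = 1 := by rw [map_div₀, ht, hm, div_self exp_ne_zero]
  refine ⟨t ^ m * N.D (x / t ^ m), x / t ^ m * (m * (t ^ (m - 1) * N.D t)), ?_, ?_, ?_⟩
  · conv_lhs => rw [← mul_div_cancel₀ x (zpow_ne_zero m t0)]
    rw [Derivation.leibniz, Derivation.leibniz_zpow]
    simp
  · rw [map_mul, ht, hm]
    exact mul_le_of_le_one_right' (N.aD n p _ hu.le)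
  · by_cases m0 : m = 0
    · exact Or.inl ⟨by simp [m0], by simp [hm, m0]⟩
    · rw [map_mul, map_mul, map_mul, hu, ht, h2, ← map_intCast (algebraMap K E),
        N.a_c p (by exact_mod_cast m0), hm, ← exp_add]
      exact Or.inr (by rw [one_mul, one_mul, mul_one]; congr 1; ring)

variable [CharZero K]

lemma aD_le (x : E) : N.a n p (N.D x) ≤ exp 1 * N.a n p x := by
  by_cases hx : x = 0
  · simp [hx]
  obtain ⟨y, z, h1, h2, h3⟩ := N.aD_split p hx
  rw [h1]
  refine Valuation.map_add_le _ (h2.trans (le_mul_of_one_le_left' (by decide))) ?_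
  rcases h3 with ⟨rfl, -⟩ | h3
  exacts [by simp, h3.le]

lemma aD_it (x : E) (i : ℕ) : N.a n p (N.D^[i] x) ≤ exp (i : ℤ) * N.a n p x := by
  induction i with
  | zero => simp
  | succ i ih =>
    rw [Function.iterate_succ_apply']
    refine (N.aD_le p _).trans ((mul_le_mul_right ih _).trans (le_of_eq ?_))
    rw [← mul_assoc, ← exp_add, add_comm]; rfl

lemma ord_ge (m : ℕ) (x : E) (h : ∀ i < m + 1, N.a n p (N.D^[i] x) < 1) :
    N.a n p x ≤ exp (-(m + 1 : ℕ) : ℤ) := by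
  induction m generalizing x with
  | zero => exact le_exp_neg (h 0 one_pos)
  | succ m ih =>
    by_cases hx : x = 0
    · simp [hx]
    have h0 : N.a n p x < 1 := h 0 (by omega)
    have := ih (N.D x) fun i hi => h (i + 1) (by omega)
    obtain ⟨y, z, h1, h2, h3⟩ := N.aD_split p hx
    obtain h3 := h3.resolve_left fun e => h0.ne e.2
    rw [h1, Valuation.map_add_eq_of_lt_right _ (h2.trans_lt (h3 ▸ lt_mul_of_one_lt_left
      (zero_lt_iff.2 (by simpa using hx)) (by decide))), h3, ← le_div_iff₀' exp_pos,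
      ← exp_sub] at this
    refine this.trans (le_of_eq ?_)
    congr 1

lemma eq_zero {x : E} (h : ∀ i, N.a n p (N.D^[i] x) < 1) : x = 0 := by
  by_contra hx
  obtain ⟨k, hk⟩ := exists_exp_neg_natCast_lt (x := N.a n p x) (by simpa using hx)
  have := hk.trans_le (N.ord_ge p k x fun i _ => h i)
  rw [exp_lt_exp] at this
  omega

omit [CharZero K]

/-- pole order -/
def pl (x : E) : ℝ := max ((log (N.a n p x) : ℤ) : ℝ) 0

/-- counting function of the poles -/
def ht (n : ℕ) (x : E) : ℝ := ∑ᶠ p, N.wt n p * N.pl p x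

lemma pl_nonneg (x : E) : 0 ≤ N.pl p x := le_max_right _ _

lemma pl_le {x : E} {k : ℤ} (h : N.a n p x ≤ exp k) (hk : 0 ≤ k) : N.pl p x ≤ k := by
  refine max_le ?_ (by exact_mod_cast hk)
  by_cases hx : N.a n p x = 0
  · simpa [hx] using hk
  · exact_mod_cast (log_le_iff_le_exp hx).2 h

lemma le_pl {x : E} {k : ℤ} (h : exp k ≤ N.a n p x) : (k : ℝ) ≤ N.pl p x :=
  le_max_of_le_left (by exact_mod_cast le_log_of_exp_le h)

lemma pl_mul (x y : E) : N.pl p (x * y) ≤ N.pl p x + N.pl p y := by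
  by_cases hx : x = 0
  · simp [hx, pl]
  by_cases hy : y = 0
  · simp [hy, pl]
  refine max_le ?_ (add_nonneg (N.pl_nonneg p _) (N.pl_nonneg p _))
  rw [map_mul, log_mul (by simpa using hx) (by simpa using hy), Int.cast_add]
  exact add_le_add (le_max_left _ _) (le_max_left _ _)

lemma ht_fin (n : ℕ) (x : E) : (Function.support fun p => N.wt n p * N.pl p x).Finite :=
  (N.fin n x).subset fun p hp e => hp (by simp only [pl, e]; simp)

lemma sum_le_ht (x : E) (T : Finset (N.P n)) : ∑ p ∈ T, N.wt n p * N.pl p x ≤ N.ht n x := by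
  classical
  rw [ht, finsum_eq_sum_of_support_subset _ (s := T ∪ (N.ht_fin n x).toFinset) (by simp)]
  exact Finset.sum_le_sum_of_subset_of_nonneg Finset.subset_union_left
    fun p _ _ => mul_nonneg (N.wt0 n p) (N.pl_nonneg p x)

lemma ht_nonneg (n : ℕ) (x : E) : 0 ≤ N.ht n x := by simpa using N.sum_le_ht x ∅

lemma ht_le {ι : Type*} {T : Finset ι} {c : ℝ} (hc : 0 ≤ c) {x : E} {y : ι → E}
    (h : ∀ p : N.P n, N.pl p x ≤ c * ∑ i ∈ T, N.pl p (y i)) :
    N.ht n x ≤ c * ∑ i ∈ T, N.ht n (y i) := by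
  rw [ht, finsum_eq_sum _ (N.ht_fin n x)]
  refine (Finset.sum_le_sum fun p _ => mul_le_mul_of_nonneg_left (h p) (N.wt0 n p)).trans ?_
  simp only [mul_left_comm _ c, ← Finset.mul_sum]
  refine mul_le_mul_of_nonneg_left ?_ hc
  simp only [Finset.mul_sum]
  rw [Finset.sum_comm]
  exact Finset.sum_le_sum fun i _ => N.sum_le_ht _ _

lemma ht_inv {x : E} (hx : x ≠ 0) (h : ∃ C : ℝ, ∀ n b, (N.gs n b x : ℝ) ≤ C) :
    ∃ C, ∀ n, N.ht n x⁻¹ ≤ N.ht n x + C := by
  obtain ⟨C, hC⟩ := h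
  obtain ⟨κ, hκ⟩ := N.jen x hx
  refine ⟨2 * C - κ, fun n => ?_⟩
  have e : N.ht n x - N.ht n x⁻¹ = ∑ᶠ p, N.wt n p * (log (N.a n p x) : ℤ) := by
    rw [ht, ht, ← finsum_sub_distrib (N.ht_fin _ _) (N.ht_fin _ _)]
    refine finsum_congr fun p => ?_
    rw [← mul_sub, pl, pl, map_inv₀, log_inv, Int.cast_neg, max_zero_sub_max_neg_zero_eq_self]
  linarith [hκ n, Real.log_le_self (N.gs n true x).coe_nonneg,
    Real.log_le_self (N.gs n false x).coe_nonneg,
    hC n true, hC n false]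

lemma mem_of_ht {x : E} (h : ∀ c, x ≠ algebraMap K E c → ∃ C, ∀ n, N.ht n x ≤ C ∧
    N.ht n (x - algebraMap K E c)⁻¹ ≤ C) : ∃ c, x = algebraMap K E c := by
  have key : ∀ y C, (∀ n, N.ht n y ≤ C) → N.a 0 (N.b 0) y ≤ 1 := fun y C hC => not_lt.1 fun hy => by
    obtain ⟨n, hn⟩ := N.wtb C
    have h1 := N.le_pl (N.b n) (x := y) (k := 1) (by
      rw [N.ab]; exact not_lt.1 fun e => hy.not_ge ((lt_mul_exp_iff_le one_ne_zero).1 (by simpa)))
    have h2 := N.sum_le_ht y {N.b n}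
    rw [Finset.sum_singleton] at h2
    push_cast at h1
    nlinarith [hC n, N.wt0 n (N.b n)]
  by_contra hc
  push Not at hc
  obtain ⟨C, hC⟩ := h 0 (hc 0)
  obtain ⟨c, h1⟩ := N.res _ _ x (key x C fun n => (hC n).1)
  obtain ⟨C, hC⟩ := h c (hc c)
  have := key _ C fun n => (hC n).2
  rw [map_inv₀, inv_le_one₀ (zero_lt_iff.2 (by simpa using sub_ne_zero.2 (hc c)))] at this
  exact h1.not_ge this

lemma const {x : E} (h : ∀ O : ValuationSubring E, (∀ c, algebraMap K E c ∈ O) →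
    (∀ y ∈ O, N.D y ∈ O) → x ∈ O) : ∃ c, x = algebraMap K E c := by
  have h0 : ∀ c n, N.ht n (x - algebraMap K E c) = 0 := fun c n =>
    finsum_eq_zero_of_forall_eq_zero fun p => by
      rw [le_antisymm (by simpa using N.pl_le p (k := 0) ((N.a n p).map_sub_le
        (h (N.a n p).valuationSubring (N.aK n p) (N.aD n p)) (N.aK n p c)) le_rfl)
        (N.pl_nonneg p _), mul_zero]
  refine N.mem_of_ht fun c hc => ?_
  obtain ⟨C, hC⟩ := N.ht_inv (sub_ne_zero.2 hc) (N.bdd fun O h1 h2 => sub_mem (h O h1 fun y hy => by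
    by_cases y0 : y = 0
    · simp [y0]
    · simpa [y0] using mul_mem (h2 y) hy) (h1 c))
  exact ⟨max 0 C, fun n => ⟨by simpa using (h0 0 n).le.trans (le_max_left 0 C),
    (hC n).trans (by simp [h0])⟩⟩

end Nev

end

end Pool.Agent.Lib.MP_7b66ee_ag
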