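import Pool.Agent.Lib.MP_7b66ee_ag.Sch

/-! Invariant vector fields of a group scheme. -/

namespace Pool.Agent.Lib.MP_7b66ee_ag

open AlgebraicGeometry CategoryTheory TrivSqZeroExt

universe u

noncomputable section

variable {K : Type u} [Field K] {R S : Type u} [CommRing R] [Algebra K R] [CommRing S]
  [Algebra K S] {M : Type u} [AddCommGroup M] [Module S M] [Module Sᵐᵒᵖ M] [IsCentralScalar S M]
  [Module K M] [IsScalarTower K S M] [IsScalarTower K Sᵐᵒᵖ M] {m : ℕ}

/-- the homomorphism attached to a derivation along α -/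
def mkT (α : R →ₐ[K] S) (δ : R →ₗ[K] M) (h1 : δ 1 = 0)
    (h : ∀ a b, δ (a * b) = α a • δ b + α b • δ a) : R →ₐ[K] TrivSqZeroExt S M where
  toFun s := ⟨α s, δ s⟩
  map_one' := TrivSqZeroExt.ext (map_one α) h1
  map_mul' a b := TrivSqZeroExt.ext (map_mul α a b) (by simpa using h a b)
  map_zero' := TrivSqZeroExt.ext (map_zero α) (map_zero δ)
  map_add' a b := TrivSqZeroExt.ext (map_add α a b) (map_add δ a b)
  commutes' c := TrivSqZeroExt.ext (α.commutes c) (by
    change δ _ = 0
    rw [Algebra.algebraMap_eq_smul_one, map_smul, h1, smul_zero])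

def tm (α : R →ₐ[K] S) (B : Fin m → M) :
    TrivSqZeroExt R (Fin m → R) →ₐ[K] TrivSqZeroExt S M :=
  mkT (α.comp (fstHom K R _))
    { toFun := fun x => ∑ i, α (x.snd i) • B i
      map_add' := fun x y => by simp [add_smul, Finset.sum_add_distrib]
      map_smul' := fun c x => by simp [Finset.smul_sum] } (by simp) fun x y => by
    simp [add_smul, Finset.sum_add_distrib, Finset.smul_sum, mul_smul]

@[simp] lemma tm_fst (α : R →ₐ[K] S) (B : Fin m → M) (x) : (tm α B x).fst = α x.fst := rfl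
@[simp] lemma tm_snd (α : R →ₐ[K] S) (B : Fin m → M) (x) :
    (tm α B x).snd = ∑ i, α (x.snd i) • B i := rfl

/-- the homomorphism attached to a derivation -/
def dual (α : R →ₐ[K] S) (D : Derivation K S S) : R →ₐ[K] DualNumber S :=
  mkT α (D.toLinearMap ∘ₗ α.toLinearMap) (by simp) fun a b => by simp

@[simp] lemma dual_fst (α : R →ₐ[K] S) (D : Derivation K S S) (x) : (dual α D x).fst = α x := rfl
@[simp] lemma dual_snd (α : R →ₐ[K] S) (D : Derivation K S S) (x) :
    (dual α D x).snd = D (α x) := rfl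

lemma unit_fst (x : TrivSqZeroExt S M) (h : fstHom K S M x = 1) : IsUnit x :=
  isUnit_iff_isUnit_fst.2 (by rw [show x.fst = 1 from h]; exact isUnit_one)

variable {A : Over (Spec (.of K))} [GrpObj A] (At : Atlas A)

/-- the tangent vector at the origin with coordinates l -/
def cv (W : Pt A (TrivSqZeroExt K (Fin m → K))) (l : Fin m → S) : Pt A (DualNumber S) :=
  pm (tm (Algebra.ofId K S) l) W

/-- the invariant vector fields -/
structure Lie where
  m : ℕ
  W : Pt A (TrivSqZeroExt K (Fin m → K))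
  v : ∀ j, Fin m → Derivation K (At.C j) (At.C j)
  sur : ∀ (S : Type u) [CommRing S] [Algebra K S] (x : Pt A (DualNumber S)),
    ∃ l, x = cv W l * pm (inlAlgHom K S S) (pm (fstHom K S S) x)
  inj : ∀ (S : Type u) [CommRing S] [Algebra K S] (l : Fin m → S), cv W l = 1 → l = 0
  uf : ∀ (S : Type u) [CommRing S] [Algebra K S] j (β : At.C j →ₐ[K] DualNumber S) (l : Fin m → S),
    pm β (At.u j) = cv W l * pm (inlAlgHom K S S) (pm (fstHom K S S) (pm β (At.u j))) ↔
      ∀ s, (β s).snd = ∑ i, (β (v j i s)).fst * l i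

theorem exists_lie : Nonempty (Lie At) := by
  classical
  obtain ⟨j, ε, hε⟩ := At.loc (1 : Pt A K)
  let N := Submodule.span K (insert 1 {x | ∃ a b, x = a * b - ε a • b - ε b • a})
  have N1 : N.mkQ 1 = 0 := (Submodule.Quotient.mk_eq_zero _).2
    (Submodule.subset_span (Set.mem_insert _ _))
  have N2 : ∀ a b, N.mkQ (a * b) = ε a • N.mkQ b + ε b • N.mkQ a := fun a b => by
    have := (Submodule.Quotient.mk_eq_zero N).2 (Submodule.subset_span (Or.inr ⟨a, b, rfl⟩))
    rwa [← Submodule.mkQ_apply, map_sub, map_sub, map_smul, map_smul, sub_sub, sub_eq_zero] at this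
  have : Module.Finite K (At.C j ⧸ N) := by
    obtain ⟨T, hT⟩ := Algebra.FiniteType.out (R := K) (A := At.C j)
    refine ⟨⟨T.image N.mkQ, eq_top_iff.2 fun x _ => ?_⟩⟩
    obtain ⟨x, rfl⟩ := N.mkQ_surjective x
    induction (hT ▸ Algebra.mem_top : x ∈ Algebra.adjoin K (T : Set _))
      using Algebra.adjoin_induction with
    | mem x hx => exact Submodule.subset_span (Finset.mem_image_of_mem _ hx)
    | algebraMap c => rw [Algebra.algebraMap_eq_smul_one, map_smul, N1, smul_zero]; exact zero_mem _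
    | add x y _ _ hx hy => rw [map_add]; exact add_mem (hx trivial) (hy trivial)
    | mul x y _ _ hx hy =>
      rw [N2]; exact add_mem (Submodule.smul_mem _ _ (hy trivial)) (Submodule.smul_mem _ _ (hx trivial))
  let b := Module.finBasis K (At.C j ⧸ N)
  let w := mkT ε (b.equivFun.toLinearMap ∘ₗ N.mkQ) (by simp only [LinearMap.comp_apply, N1, map_zero])
    fun a b => by simp only [LinearMap.comp_apply, N2, map_add, map_smul]
  let W := pm w (At.u j)
  have W1 : ∀ (S : Type u) [CommRing S] [Algebra K S] (φ : _ →ₐ[K] S) (ψ : K →ₐ[K] S),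
      φ.comp w = ψ.comp ε → pm φ W = 1 := fun S _ _ φ ψ h => by
    rw [pm_pm, h, ← pm_pm, hε, map_one]
  have hv : ∀ i, ∃ β, pm β (At.u i) = pm (tm (Algebra.ofId K _) fun k => Pi.single k 1) W *
      pm (inlAlgHom K (At.C i) (Fin _ → At.C i)) (At.u i) ∧
      (fstHom K _ _).comp β = AlgHom.id K _ := fun i =>
    At.opn_surj _ (fun x => ⟨inl x, rfl⟩) unit_fst (by
      rw [map_mul, pm_pm, pm_pm _ _ (At.u i), W1 _ _ (Algebra.ofId K _) rfl, one_mul]; rfl)
  choose β h1 h2 using hv
  have h3 : ∀ i s, (β i s).fst = s := fun i s => DFunLike.congr_fun (h2 i) s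
  refine ⟨{
    m := _
    W := W
    v := fun i k => Derivation.mk' (LinearMap.proj k ∘ₗ (sndHom _ _).restrictScalars K ∘ₗ
      (β i).toLinearMap) fun a b => by simp [h3]
    sur := fun S _ _ x => ?_
    inj := fun S _ _ l h => ?_
    uf := fun S _ _ i γ l => ?_ }⟩
  · obtain ⟨γ, e1, e2⟩ := At.opn_surj (fstHom K S S) (fun x => ⟨inl x, rfl⟩) unit_fst
      (x := x * (pm (inlAlgHom K S S) (pm (fstHom K S S) x))⁻¹)
      (β := (Algebra.ofId K S).comp ε) (by
        rw [← pm_pm, hε, map_one, map_mul, map_inv, pm_pm (inlAlgHom K S S)]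
        exact ((congrArg (_ * ·⁻¹) (pm_id _)).trans (mul_inv_cancel _)).symm)
    have e3 : ∀ s, (γ s).fst = algebraMap K S (ε s) := fun s => DFunLike.congr_fun e2 s
    let δ := N.liftQ ((sndHom S S).restrictScalars K ∘ₗ γ.toLinearMap) (Submodule.span_le.2 (by
      rintro _ (rfl | ⟨a, b, rfl⟩)
      · simp
      · simp [e3, Algebra.smul_def, mul_comm, algebraMap_eq_inl']))
    refine ⟨fun k => δ (b k), ?_⟩
    rw [← mul_inv_eq_iff_eq_mul, ← e1, cv, pm_pm]
    congr 2
    refine AlgHom.ext fun s => TrivSqZeroExt.ext (e3 s) ?_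
    change δ (N.mkQ s) = ∑ k, algebraMap K S (b.equivFun (N.mkQ s) k) • δ (b k)
    conv_lhs => rw [← b.sum_equivFun (N.mkQ s), map_sum]
    simp only [map_smul]
    simp [Algebra.smul_def]
  · have := At.inj (α := (tm (Algebra.ofId K S) l).comp w)
      (β := ((inlAlgHom K S S).comp (Algebra.ofId K S)).comp ε) (by
        rw [← pm_pm, ← pm_pm, hε, map_one]; exact h)
    funext k
    obtain ⟨s, hs⟩ := N.mkQ_surjective (b k)
    have := congrArg TrivSqZeroExt.snd (DFunLike.congr_fun this s)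
    change ∑ k, algebraMap K S (b.equivFun (N.mkQ s) k) • l k = 0 at this
    simpa [hs, Finsupp.single_apply] using this
  · have e : cv W l * pm (inlAlgHom K S S) (pm (fstHom K S S) (pm γ (At.u i))) =
        pm ((tm ((fstHom K S S).comp γ) l).comp (β i)) (At.u i) := by
      rw [← pm_pm _ _ (At.u i), h1, map_mul, pm_pm, pm_pm, pm_pm _ _ W, pm_pm _ _ (At.u i), cv]
      congr 3
      · refine AlgHom.ext fun x => TrivSqZeroExt.ext (by simp) ?_
        simp [Finset.sum_apply, Pi.single_apply, Algebra.smul_def]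
      · exact AlgHom.ext fun x => TrivSqZeroExt.ext rfl (by simp)
    rw [e]
    exact ⟨fun h s => congrArg TrivSqZeroExt.snd (DFunLike.congr_fun (At.inj h) s), fun h => by
      congr 2
      exact AlgHom.ext fun s => TrivSqZeroExt.ext (by simp [h3]) (h s)⟩

lemma kpt (I : Ideal R) (h : I ≠ ⊤) (hs : ∀ x, ∃ c, x - algebraMap K R c ∈ I) :
    ∃ χ : R →ₐ[K] K, ∀ x, χ x = 0 ↔ x ∈ I := by
  have := Ideal.Quotient.nontrivial_iff.2 h
  refine ⟨((AlgEquiv.ofBijective (Algebra.ofId K (R ⧸ I)) ⟨(algebraMap K _).injective, fun x => by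
    obtain ⟨x, rfl⟩ := Ideal.Quotient.mk_surjective x
    obtain ⟨c, hc⟩ := hs x
    exact ⟨c, (Ideal.Quotient.eq.2 hc).symm⟩⟩).symm : _ →ₐ[K] _).comp (Ideal.Quotient.mkₐ K I),
    fun x => ?_⟩
  simp [Ideal.Quotient.eq_zero_iff_mem]

variable [IsAlgClosed K]

lemma kpt_max [Algebra.FiniteType K R] (I : Ideal R) [h : I.IsMaximal] :
    ∃ χ : R →ₐ[K] K, ∀ x, χ x = 0 ↔ x ∈ I := kpt I h.ne_top fun x => by
  let := Ideal.Quotient.field I
  have := finite_of_finite_type_of_isJacobsonRing K (R ⧸ I)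
  obtain ⟨c, hc⟩ := (IsAlgClosed.algebraMap_bijective_of_isIntegral (k := K) (K := R ⧸ I)).2
    (Ideal.Quotient.mk I x)
  exact ⟨c, Ideal.Quotient.eq.1 hc.symm⟩

lemma jac [Algebra.FiniteType K R] [IsDomain R] {x : R} (h : ∀ χ : R →ₐ[K] K, χ x = 0) : x = 0 := by
  have := isJacobsonRing_of_finiteType (A := K) (B := R)
  rw [← Ideal.mem_bot, ← IsJacobsonRing.out this (I := ⊥) (Ideal.IsPrime.isRadical inferInstance)]
  refine Ideal.mem_sInf.2 fun {I} hI => ?_
  have := hI.2
  obtain ⟨χ, hχ⟩ := kpt_max (K := K) I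
  exact (hχ x).1 (h χ)

variable {At} in
lemma Lie.span (Λ : Lie At) (j) :
    Submodule.span (At.C j) (Set.range fun y k => Λ.v j k y) = ⊤ := by
  classical
  refine (eq_top_or_exists_le_coatom _).resolve_right fun ⟨N, hN, h⟩ => ?_
  obtain ⟨I, hI, ⟨e⟩⟩ := isSimpleModule_iff_quot_maximal.1 (isSimpleModule_iff_isCoatom.2 hN)
  obtain ⟨χ, hχ⟩ := kpt_max (K := K) I
  choose l hl using fun k => Ideal.Quotient.mk_surjective (e (N.mkQ (Pi.single k 1)))
  have key : ∀ w : Fin Λ.m → At.C j, e (N.mkQ w) = Ideal.Quotient.mk I (∑ k, w k * l k) :=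
    fun w => by
      conv_lhs => rw [← Finset.univ_sum_single w, map_sum, map_sum]
      rw [map_sum]
      refine Finset.sum_congr rfl fun k _ => ?_
      rw [show Pi.single k (w k) = w k • (Pi.single k 1 : Fin Λ.m → At.C j) by
        rw [← Pi.single_smul, smul_eq_mul, mul_one], map_smul, map_smul, ← hl]
      rfl
  have := (Λ.uf K j ((inlAlgHom K K K).comp χ) fun k => χ (l k)).2 fun s => by
    have := key fun k => Λ.v j k s
    rw [show N.mkQ _ = 0 from (Submodule.Quotient.mk_eq_zero N).2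
      (h (Submodule.subset_span ⟨s, rfl⟩)), map_zero, eq_comm, Ideal.Quotient.eq_zero_iff_mem,
      ← hχ] at this
    simpa [eq_comm] using this
  rw [pm_pm, pm_pm, eq_comm] at this
  have := Λ.inj K _ (mul_eq_right.1 this)
  refine hN.1 (eq_top_iff.2 fun w _ => (Submodule.Quotient.mk_eq_zero N).1 (e.injective ?_))
  rw [map_zero, ← Submodule.mkQ_apply, key, Ideal.Quotient.eq_zero_iff_mem, ← hχ]
  simp [show ∀ k, χ (l k) = 0 from congrFun this]

end

end Pool.Agent.Lib.MP_7b66ee_ag
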