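import Pool.Agent.Lib.MP_7b66ee_ag.Frm
import Pool.Agent.Lib.MP_7b66ee_ag.Canon

/-! An analytic map from the multiplicative group whose Zariski closure is of general type and
generically finite over a proper group scheme is constant. -/

namespace Pool.Agent.Lib.MP_7b66ee_ag

open AlgebraicGeometry CategoryTheory IsLocalRing

universe u

lemma fac {E : Type u} [Field E] {X : Scheme.{u}} (g : Spec (.of E) ⟶ X) {x : X}
    (hx : g (closedPoint E) = x) :
    ∃ φ : X.residueField x ⟶ .of E, Spec.map φ ≫ X.fromSpecResidueField x = g := by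
  subst hx
  exact ⟨_, Scheme.descResidueField_stalkClosedPointTo_fromSpecResidueField E X g⟩

theorem degen {K : Type u} [NontriviallyNormedField K] [IsUltrametricDist K] [CompleteSpace K]
    [IsAlgClosed K] [CharZero K] (A X : Over (Spec (.of K))) [GrpObj A] [IsProper A.hom]
    [IsProper X.hom] (π : X ⟶ A) (f : AnMap K X) :
    ∃ x : X.left, IsGenericPoint x (closure (⋃ r, Set.range (f.map r))) ∧
      ((π.left.residueFieldMap x).hom.Finite →
        @GenType K (X.left.residueField x) _ _ (resAlg X x) → ∃ y, ∀ r p, f.map r p = y) := by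
  let g := fun (r : ℝ) [Fact (1 ≤ r)] =>
    Spec.map (CommRingCat.ofHom (algebraMap (An K r) (Fr K r))) ≫ f.map r
  have hg : ∀ (r : ℝ) [h : Fact (1 ≤ r)],
      Spec.map (CommRingCat.ofHom (Jr K r).toRingHom) ≫ g r = g 1 := fun r h => by
    simp only [g, ← f.compat 1 r h.out, ← Spec.map_comp_assoc]
    congr 2
    exact CommRingCat.hom_ext (RingHom.ext Jr_alg)
  let x := g 1 (closedPoint _)
  have hx : ∀ (r : ℝ) [Fact (1 ≤ r)], g r (closedPoint _) = x := fun r _ => by
    simp only [x, ← hg r, Scheme.Hom.comp_apply]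
    exact congrArg _ (Subsingleton.elim (α := PrimeSpectrum (Fr K r)) _ _)
  have sp : ∀ r p, x ⤳ f.map r p := fun r p => by
    by_cases h : 1 ≤ r
    · have := Fact.mk h
      rw [← hx r]
      refine Specializes.map ((PrimeSpectrum.le_iff_specializes _ _).1 fun a ha => ?_)
        (f.map r).continuous
      have : algebraMap (An K r) (Fr K r) a = 0 := by
        by_contra hc
        exact ha (Ne.isUnit hc)
      rw [(map_eq_zero_iff _ (IsFractionRing.injective _ _)).1 this]
      exact zero_mem _
    · refine absurd ((Ideal.eq_top_iff_one _).2 ?_) p.2.ne_top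
      rw [show (1 : An K r) = 0 from Subtype.ext (funext fun z => absurd z.2 fun ⟨a, b⟩ => by
        nlinarith [norm_nonneg z.1])]
      exact zero_mem _
  refine ⟨x, subset_antisymm (closure_mono ?_) (closure_minimal ?_ isClosed_closure),
    fun fin gt => ⟨x, fun r p => ?_⟩⟩
  · exact Set.singleton_subset_iff.2 (Set.mem_iUnion.2 ⟨1, _, rfl⟩)
  · exact Set.iUnion_subset fun r _ ⟨p, hp⟩ => hp ▸ (sp r p).mem_closure
  let := resAlg X x
  let := resAlg A (π.left x)
  let := (π.left.residueFieldMap x).hom.toAlgebra
  have : IsScalarTower K (A.left.residueField (π.left x)) (X.left.residueField x) :=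
    .of_algebraMap_eq' (congrArg CommRingCat.Hom.hom (Spec.map_injective (by
      rw [Spec.map_preimage, ← Over.w π,
        ← Scheme.Hom.SpecMap_residueFieldMap_fromSpecResidueField_assoc, ← Spec.map_preimage
          (_ ≫ A.hom), ← Spec.map_comp]; rfl)))
  have : FiniteDimensional (A.left.residueField (π.left x)) (X.left.residueField x) := fin
  choose φ hφ using fun (r : ℝ) (_ : Fact (1 ≤ r)) => fac (g r) (hx r)
  have e1 : Spec.preimage (X.left.fromSpecResidueField x ≫ X.hom) ≫ φ 1 inferInstance =
      CommRingCat.ofHom (algebraMap K (Fr K 1)) := Spec.map_injective (by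
    rw [Spec.map_comp, Spec.map_preimage, ← Category.assoc, hφ, Category.assoc, f.comm,
      ← Spec.map_comp]; rfl)
  have e2 : ∀ r [h : Fact (1 ≤ r)], φ r h ≫ CommRingCat.ofHom (Jr K r).toRingHom =
      φ 1 inferInstance := fun r h => Spec.map_injective ((cancel_mono (X.left.fromSpecResidueField x)).1 (by
      rw [Spec.map_comp, Category.assoc, hφ, hφ, hg]))
  let ι : X.left.residueField x →ₐ[K] Mer K := AlgHom.codRestrict
    ⟨(φ 1 inferInstance).hom, fun c => congrArg (·.hom c) e1⟩ (Mer K).toSubalgebra
    fun z r h => ⟨φ r h z, congrArg (·.hom z) (e2 r)⟩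
  let γ : Pt A (A.left.residueField (π.left x)) :=
    Over.homMk (A.left.fromSpecResidueField _) (Spec.map_preimage _).symm
  have gen : Gen γ := fun F0 ⟨y, hy⟩ => by
    have hy : Spec.map (CommRingCat.ofHom F0.val.toRingHom) ≫ y.left =
      A.left.fromSpecResidueField _ := congrArg CommaMorphism.left hy
    obtain ⟨ψ, hψ⟩ := fac (E := F0) (x := π.left x) y.left (by
      have := Scheme.fromSpecResidueField_apply (π.left x) (closedPoint _)
      rw [← hy, Scheme.Hom.comp_apply] at this
      exact (congrArg _ (Subsingleton.elim (α := PrimeSpectrum F0) _ _)).trans this)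
    have : ψ ≫ CommRingCat.ofHom F0.val.toRingHom = 𝟙 _ := Spec.map_injective
      ((cancel_mono (A.left.fromSpecResidueField _)).1 (by
        rw [Spec.map_comp, Category.assoc, hψ, hy, Spec.map_id]
        exact (Category.id_comp _).symm))
    exact eq_top_iff.2 fun z _ =>
      (congrArg (·.hom z) this : F0.val (ψ z) = z) ▸ (ψ z).2
  obtain ⟨N⟩ := exists_nev K
  obtain ⟨Φ, hv, _, hs⟩ := exists_frame N gen ι
  obtain ⟨Ψ, h1, h2⟩ := exists_psi gt hs
  have := IsClosedImmersion.spec_of_surjective
    (Spec.preimage (X.left.fromSpecResidueField x ≫ X.hom)) fun z =>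
      (core N ι Φ hv Ψ h1 h2 z).imp fun c hc => ι.injective ((ι.commutes c).trans hc.symm)
  rw [Spec.map_preimage] at this
  have := (IsClosedImmersion.of_comp (X.left.fromSpecResidueField x)
    X.hom).isClosedEmbedding.isClosed_range
  rw [Scheme.range_fromSpecResidueField] at this
  exact (sp r p).mem_closed this rfl

end Pool.Agent.Lib.MP_7b66ee_ag
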