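import Mathlib

/-! Points of a proper group scheme with values in algebras. -/

namespace Pool.Agent.Lib.MP_7b66ee_ag

open AlgebraicGeometry CategoryTheory

universe u

noncomputable section

variable {K : Type u} [Field K] {R S T : Type u} [CommRing R] [Algebra K R] [CommRing S]
  [Algebra K S] [CommRing T] [Algebra K T]

variable (K R) in
abbrev sp : Over (Spec (.of K)) := Over.mk (Spec.map (CommRingCat.ofHom (algebraMap K R)))

def spm (φ : R →ₐ[K] S) : sp K S ⟶ sp K R :=
  Over.homMk (Spec.map (CommRingCat.ofHom φ.toRingHom)) (by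
    change Spec.map _ ≫ Spec.map _ = Spec.map _
    rw [← Spec.map_comp, ← CommRingCat.ofHom_comp]
    congr 2
    exact φ.comp_algebraMap)

lemma spm_left (φ : R →ₐ[K] S) : (spm φ).left = Spec.map (CommRingCat.ofHom φ.toRingHom) := rfl

lemma spm_surj (f : sp K S ⟶ sp K R) : ∃ φ, spm φ = f := by
  obtain ⟨g, hg⟩ := Spec.map_surjective (R := .of R) (S := .of S) f.left
  refine ⟨⟨g.hom, fun c => ?_⟩, Over.OverMorphism.ext hg⟩
  have := Over.w f
  rw [← hg] at this
  change Spec.map _ ≫ Spec.map _ = Spec.map _ at this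
  rw [← Spec.map_comp] at this
  exact congrArg (fun h => h.hom c) (Spec.map_injective this)

variable {A : Over (Spec (.of K))} [GrpObj A]

abbrev Pt (A : Over (Spec (.of K))) (R : Type u) [CommRing R] [Algebra K R] := sp K R ⟶ A

instance : Group (Pt A R) := Hom.group

def pm (φ : R →ₐ[K] S) : Pt A R →* Pt A S := MonoidHom.mk' (spm φ ≫ ·) (MonObj.comp_mul _)

lemma pm_def (φ : R →ₐ[K] S) (x : Pt A R) : pm φ x = spm φ ≫ x := rfl

lemma pm_pm (φ : R →ₐ[K] S) (ψ : S →ₐ[K] T) (x : Pt A R) : pm ψ (pm φ x) = pm (ψ.comp φ) x := by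
  rw [pm_def, pm_def, pm_def, ← Category.assoc]
  congr 1
  exact Over.OverMorphism.ext (Spec.map_comp _ _).symm

lemma pm_id (x : Pt A R) : pm (AlgHom.id K R) x = x := by
  rw [pm_def, show spm (AlgHom.id K R) = 𝟙 _ from Over.OverMorphism.ext (Spec.map_id _),
    Category.id_comp]

variable (A) in
/-- a finite affine atlas -/
structure Atlas where
  J : Type u
  fin : Finite J
  C : J → CommAlgCat.{u} K
  ft : ∀ j, Algebra.FiniteType K (C j)
  u : ∀ j, Pt A (C j)
  op : ∀ j, IsOpenImmersion (u j).left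
  cov : ∀ x : A.left, ∃ j, x ∈ Set.range (u j).left

attribute [instance] Atlas.fin Atlas.ft Atlas.op

omit [GrpObj A] in
theorem exists_atlas [IsProper A.hom] : Nonempty (Atlas A) := by
  have : CompactSpace A.left := QuasiCompact.compactSpace_of_compactSpace A.hom
  obtain ⟨t, ht⟩ := isCompact_univ.elim_finite_subcover
    (fun U : A.left.affineOpens => (U.1 : Set A.left)) (fun U => U.1.2) fun x _ => by
      obtain ⟨U, hU, hx, -⟩ := exists_isAffineOpen_mem_and_subset (x := x) (U := ⊤) trivial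
      exact Set.mem_iUnion.2 ⟨⟨U, hU⟩, hx⟩
  let φ : ∀ U : t, CommRingCat.of K ⟶ Γ(A.left, U.1.1) := fun U =>
    Spec.preimage (U.1.2.fromSpec ≫ A.hom)
  let _ : ∀ U : t, Algebra K Γ(A.left, U.1.1) := fun U => (φ U).hom.toAlgebra
  refine ⟨{
    J := t
    fin := inferInstance
    C := fun U => CommAlgCat.of K Γ(A.left, U.1.1)
    ft := fun U => ?_
    u := fun U => Over.homMk U.1.2.fromSpec (Spec.map_preimage _).symm
    op := fun U => inferInstanceAs (IsOpenImmersion U.1.2.fromSpec)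
    cov := fun x => ?_ }⟩
  · refine (HasRingHomProperty.Spec_iff (P := @LocallyOfFiniteType) (φ := φ U)).1 ?_
    rw [Spec.map_preimage]
    infer_instance
  · obtain ⟨U, hU, hx⟩ := Set.mem_iUnion₂.1 (ht (Set.mem_univ x))
    exact ⟨⟨U, hU⟩, U.2.range_fromSpec.ge hx⟩

namespace Atlas

variable (At : Atlas A) {j : At.J}

lemma inj {α β : At.C j →ₐ[K] R} (h : pm α (At.u j) = pm β (At.u j)) : α = β := by
  have := (cancel_mono (At.u j).left).1 (congrArg CommaMorphism.left h)
  exact AlgHom.ext fun c => congrArg (fun h => h.hom c) (Spec.map_injective this)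

lemma lift (x : Pt A R) (h : ∀ m : MaximalSpectrum R, x.left m.toPrimeSpectrum ∈
    Set.range (At.u j).left) : ∃ α, pm α (At.u j) = x := by
  have H : Set.range x.left ⊆ Set.range (At.u j).left := by
    rintro _ ⟨p, rfl⟩
    obtain ⟨m, hm, hp⟩ := Ideal.exists_le_maximal _ p.2.ne_top
    exact (((PrimeSpectrum.le_iff_specializes p ⟨m, hm.isPrime⟩).1 hp).map
      x.left.continuous).mem_open (At.u j).left.isOpenEmbedding.isOpen_range (h ⟨m, hm⟩)
  obtain ⟨α, hα⟩ := spm_surj (Over.homMk (IsOpenImmersion.lift (At.u j).left x.left H) (by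
    rw [← Over.w (At.u j), IsOpenImmersion.lift_fac_assoc, Over.w]))
  exact ⟨α, Over.OverMorphism.ext (by
    rw [pm_def, hα]; exact IsOpenImmersion.lift_fac _ _ H)⟩

lemma loc [IsLocalRing R] (x : Pt A R) : ∃ j α, pm α (At.u j) = x := by
  obtain ⟨j, hj⟩ := At.cov (x.left (IsLocalRing.closedPoint R))
  exact ⟨j, At.lift x fun m => by
    rwa [show m.toPrimeSpectrum = IsLocalRing.closedPoint R from
      PrimeSpectrum.ext (IsLocalRing.eq_maximalIdeal m.2)]⟩

lemma opn (φ : R →ₐ[K] S) (hφ : ∀ m : Ideal R, m.IsMaximal → ∃ q : Ideal S, q.IsPrime ∧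
    q.comap φ = m) {x : Pt A R} {β : At.C j →ₐ[K] S} (h : pm β (At.u j) = pm φ x) :
    ∃ α, pm α (At.u j) = x ∧ φ.comp α = β := by
  obtain ⟨α, hα⟩ := At.lift (j := j) x fun m => by
    obtain ⟨q, hq, e⟩ := hφ m.1 m.2
    refine ⟨(spm β).left ⟨q, hq⟩, ?_⟩
    rw [← show (spm φ).left ⟨q, hq⟩ = m.toPrimeSpectrum from PrimeSpectrum.ext e,
      ← Scheme.Hom.comp_apply, ← Scheme.Hom.comp_apply, ← Over.comp_left, ← Over.comp_left,
      ← pm_def, h, pm_def]
  exact ⟨α, hα, At.inj (by rw [← pm_pm, hα, h])⟩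

lemma opn_surj (φ : R →ₐ[K] S) (h1 : Function.Surjective φ) (h2 : ∀ x, φ x = 1 → IsUnit x)
    {x : Pt A R} {β : At.C j →ₐ[K] S} (h : pm β (At.u j) = pm φ x) :
    ∃ α, pm α (At.u j) = x ∧ φ.comp α = β := At.opn φ (fun m hm => by
  have : RingHom.ker φ ≤ m := fun x hx => by
    by_contra hc
    obtain ⟨y, c, h3, h4⟩ := hm.exists_inv hc
    refine hm.ne_top (m.eq_top_of_isUnit_mem h3 (h2 c ?_))
    simpa [show φ x = 0 from hx] using congrArg φ h4
  exact ⟨m.map φ, Ideal.map_isPrime_of_surjective h1 this, by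
    rw [Ideal.comap_map_of_surjective _ h1]; exact sup_eq_left.2 this⟩) h

lemma opn_field {F E : Type u} [Field F] [Algebra K F] [Field E] [Algebra K E] (φ : F →ₐ[K] E)
    {x : Pt A F} {β : At.C j →ₐ[K] E} (h : pm β (At.u j) = pm φ x) :
    ∃ α, pm α (At.u j) = x ∧ φ.comp α = β := At.opn φ (fun m hm =>
  ⟨⊥, inferInstance, (Ideal.comap_bot_of_injective _ φ.injective).trans
    ((Ideal.eq_bot_or_top m).resolve_right hm.ne_top).symm⟩) h

end Atlas

lemma val_lift [IsProper A.hom] {F : Type u} [Field F] [Algebra K F] (O : Subalgebra K F)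
    (hO : ∀ x, x ∈ O ∨ x⁻¹ ∈ O) (x : Pt A F) : ∃ y : Pt A O, pm O.val y = x := by
  have : ValuationRing O := inferInstanceAs (ValuationRing (ValuationSubring.ofSubring O.toSubring hO))
  have : IsFractionRing O F :=
    inferInstanceAs (IsFractionRing (ValuationSubring.ofSubring O.toSubring hO) F)
  have H : UniversallyClosed A.hom := inferInstance
  rw [UniversallyClosed.eq_valuativeCriterion] at H
  obtain ⟨⟨l, h1, h2⟩⟩ := (H.1
    { R := O, K := F, i₁ := x.left, i₂ := (sp K O).hom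
      commSq := ⟨(Over.w x).trans (Over.w (spm O.val)).symm⟩ }).exists_lift
  exact ⟨Over.homMk l h2, Over.OverMorphism.ext h1⟩

end

end Pool.Agent.Lib.MP_7b66ee_ag
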