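import Mathlib

/-! Definitions used in the statement. -/

namespace Pool.Agent.Lib.MP_7b66ee_ag.St

open AlgebraicGeometry CategoryTheory
open scoped TensorProduct

universe u

noncomputable section

/-- the closed annulus 1/r ≤ |z| ≤ r (empty for r < 1) -/
def Ann (K : Type u) [NormedField K] (r : ℝ) : Set K := {z | 1 ≤ r * ‖z‖ ∧ ‖z‖ ≤ r}

/-- the algebra of uniform limits on S of Laurent polynomials -/
def An {K : Type u} [NormedField K] (S : Set K) : Subalgebra K (S → K) :=
  Algebra.adjoin K {h | ∀ ε > 0, ∃ p ∈ Algebra.adjoin K {fun z : S => z.1, fun z : S => z.1⁻¹},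
    ∀ z, ‖h z - p z‖ ≤ ε}

/-- a family of K-morphisms from the spectra of the function algebras B r on the sets S r,
compatible with restriction of functions -/
structure Fam {K : Type u} [Field K] (X : Over (Spec (.of K))) (S : ℝ → Set K)
    (B : ∀ r, Subalgebra K (S r → K)) where
  map : ∀ r, Spec (.of (B r)) ⟶ X.left
  comm : ∀ r, map r ≫ X.hom = Spec.map (CommRingCat.ofHom (algebraMap K (B r)))
  compat : ∀ r s (h : S r ⊆ S s) (ρ : B s →+* B r),
    (∀ g z, (ρ g).1 z = g.1 (Set.inclusion h z)) → Spec.map (CommRingCat.ofHom ρ) ≫ map s = map r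

/-- the image of the family -/
def Fam.im {K : Type u} [Field K] {X : Over (Spec (.of K))} {S : ℝ → Set K}
    {B : ∀ r, Subalgebra K (S r → K)} (f : Fam X S B) : Set X.left := ⋃ r, Set.range (f.map r)

/-- the form lies in the O-module spanned by the products of k forms da_1 ∧ ... ∧ da_n
with all a_j in O -/
def RegAt {F M : Type u} [Field F] [AddCommGroup M] [Module F M] (d : F → M)
    (O : ValuationSubring F) {k : ℕ} (θ : ⨂[F] _ : Fin k, ⋀[F]^(Module.finrank F M) M) : Prop :=
  θ ∈ AddSubgroup.closure {η | ∃ (c : F) (a : Fin k → Fin (Module.finrank F M) → F),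
    c ∈ O ∧ (∀ i j, a i j ∈ O) ∧ η = c • PiTensorProduct.tprod F fun i =>
      exteriorPower.ιMulti F _ fun j => d (a i j)}

/-- the everywhere regular k-canonical forms give a generically finite map -/
def Big (K : Type u) {F M : Type u} [Field K] [Field F] [Algebra K F] [AddCommGroup M]
    [Module F M] (d : F → M) : Prop :=
  ∃ (k : ℕ) (θ : ⨂[F] _ : Fin k, ⋀[F]^(Module.finrank F M) M) (S : Finset F), 0 < k ∧ θ ≠ 0 ∧
    (∀ O : ValuationSubring F, (∀ c : K, algebraMap K F c ∈ O) →
      RegAt d O θ ∧ ∀ φ ∈ S, RegAt d O (φ • θ)) ∧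
    Algebra.IsAlgebraic (IntermediateField.adjoin K (S : Set F)) F

/-- the function field F is of general type over K -/
def GenType (K F : Type u) [Field K] [Field F] [Algebra K F] : Prop :=
  Big K (KaehlerDifferential.D K F)

/-- the subvariety with generic point x is of general type -/
def GenTypeAt {K : Type u} [Field K] (X : Over (Spec (.of K))) (x : X.left) : Prop :=
  @GenType K (X.left.residueField x) _ _
    (Spec.preimage (X.left.fromSpecResidueField x ≫ X.hom)).hom.toAlgebra

end

end Pool.Agent.Lib.MP_7b66ee_ag.St
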